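import Mathlib
import Pool.Agent.Lib.P4a7640.Dist
import Pool.Agent.Lib.P4a7640.Furst

/-!
# Definitions for the block families and the sieve
-/

open Filter Topology
open Pool.Agent.Lib.P4a7640

namespace Pool.Agent.Lib.P4a7640D

/-- the number of `p ∈ D` that divide one of the `n + h`, `h ∈ H` -/
def KK (H D : Finset ℕ) (n : ℕ) : ℕ := (D.filter fun p => ∃ h ∈ H, p ∣ n + h).card

/-- the sign `(-1)^#{p ∈ D : p ∣ n + h for some h ∈ H}` -/
def uu (H D : Finset ℕ) (n : ℕ) : ℝ := (-1) ^ KK H D n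

/-- dyadic block of a prime in the `log log` scale: `2^(2^b) ≤ p < 2^(2^(b+1))` for `b = be p` -/
def be (p : ℕ) : ℕ := Nat.log 2 (Nat.log 2 p)

/-- elementary symmetric function of the weights `w p`, `p ∈ D` -/
def esy (w : ℕ → ℝ) (D : Finset ℕ) (r : ℕ) : ℝ := ∑ T ∈ D.powersetCard r, ∏ p ∈ T, w p

/-- truncated binomial expansion of `(-1)^K` -/
def tr (R K : ℕ) : ℝ := ∑ r ∈ Finset.range (R + 1), (-2:ℝ) ^ r * (K.choose r : ℝ)

/-- error term of the truncated expansion -/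
def er (R K : ℕ) : ℝ := 2 ^ (R + 1) * (K.choose (R + 1) : ℝ)

open Classical in
/-- signs that are constant on blocks: `-1` at `p ∈ P` with `κ p ∈ S`, and `1` elsewhere -/
noncomputable def bs (κ : ℕ → ℕ) (P : Set ℕ) (S : Set ℕ) : SS :=
  fun p => if p ∈ P ∧ κ p ∈ S then -1 else 1

/-- the places `k` such that the `k`-th binary digit of `α` is `1` -/
def dig (α : ℝ) : Set ℕ := {k | Odd ⌊(2:ℝ) ^ k * α⌋}

open Classical in
/-- the mass `∑ 1/p` over the primes `p ∈ P` of the block `κ p = k` -/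
noncomputable def mass (κ : ℕ → ℕ) (P : Set ℕ) (k : ℕ) : ℝ :=
  ∑' p : {p : ℕ // p.Prime ∧ p ∈ P ∧ κ p = k}, (1:ℝ) / (p : ℕ)

end Pool.Agent.Lib.P4a7640D
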