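import Mathlib
import Pool.Agent.Lib.P4a7640D.Base

/-!
# Products of block polynomials as sums over subsets

Module P4a7640D.Expand.

`esy_ind`: `∏ p ∈ T, (if P p then 1 else 0) = if T ⊆ D.filter P then 1 else 0` for `T ⊆ D`; the
`r`-subsets of `D` contained in `D.filter P` are the `r`-subsets of `D.filter P`
(`Finset.card_powersetCard`).

`prod_blocks`: write `D_j = D.filter (β · = j)`.  First, for each `j`,
`∑ r ∈ range (R j + 1), φ j r * esy w D_j r = ∑ T ∈ D_j.powerset, φ j T.card * ∏ p ∈ T, w p`
(group the subsets by cardinality, `Finset.sum_powerset_apply_card`-like or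
`Finset.sum_powerset`; the cardinalities `> R j` contribute `0` by `hφ`, the `r > |D_j|` give empty
`powersetCard`).  Then induct on `J` (generalise over `D`): split `D` into `A = D.filter (β · < J)`
and `B = D.filter (β · = J)`, and use the bijection `T ↦ (T ∩ A, T ∩ B)` between `D.powerset` and
`A.powerset ×ˢ B.powerset` (`Finset.sum_product'`, `Finset.sum_nbij'`, inverse `(U, V) ↦ U ∪ V`).
-/

open Finset

namespace Pool.Agent.Lib.P4a7640D

theorem esy_ind (D : Finset ℕ) (P : ℕ → Prop) [DecidablePred P] (r : ℕ) :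
    esy (fun p => if P p then 1 else 0) D r = ((D.filter P).card.choose r : ℝ) := by
  unfold esy
  have h1 : ∀ T ∈ D.powersetCard r, (∏ p ∈ T, (if P p then (1 : ℝ) else 0)) =
      if ∀ p ∈ T, P p then 1 else 0 := fun T _ => Finset.prod_boole
  rw [Finset.sum_congr rfl h1, Finset.sum_boole, ← Finset.card_powersetCard]
  congr 2
  ext T
  rw [Finset.mem_filter, Finset.mem_powersetCard, Finset.mem_powersetCard]
  constructor
  · rintro ⟨⟨h2, h3⟩, h4⟩
    exact ⟨fun p hp => Finset.mem_filter.2 ⟨h2 hp, h4 p hp⟩, h3⟩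
  · rintro ⟨h2, h3⟩
    exact ⟨⟨fun p hp => (Finset.mem_filter.1 (h2 hp)).1, h3⟩,
      fun p hp => (Finset.mem_filter.1 (h2 hp)).2⟩

private theorem block_sum (w : ℕ → ℝ) (D : Finset ℕ) (R : ℕ) (φ : ℕ → ℝ)
    (hφ : ∀ r, R < r → φ r = 0) :
    ∑ r ∈ range (R + 1), φ r * esy w D r = ∑ T ∈ D.powerset, φ T.card * ∏ p ∈ T, w p := by
  have h1 : ∑ T ∈ D.powerset, φ T.card * ∏ p ∈ T, w p =
      ∑ T ∈ D.powerset.filter (fun T => T.card ∈ range (R + 1)), φ T.card * ∏ p ∈ T, w p := by
    symm
    apply Finset.sum_subset (Finset.filter_subset _ _)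
    intro T hT hT'
    have h2 : R < T.card := by
      by_contra h3
      exact hT' (Finset.mem_filter.2 ⟨hT, Finset.mem_range.2 (by omega)⟩)
    rw [hφ _ h2, zero_mul]
  have h0 : ∀ T ∈ D.powerset.filter (fun T => T.card ∈ range (R + 1)), T.card ∈ range (R + 1) :=
    fun T hT => (Finset.mem_filter.1 hT).2
  rw [h1, ← Finset.sum_fiberwise_of_maps_to (g := fun T : Finset ℕ => T.card) h0]
  refine Finset.sum_congr rfl fun r hr => ?_
  unfold esy
  rw [Finset.mul_sum]
  refine Finset.sum_congr ?_ ?_
  · ext T
    rw [Finset.mem_powersetCard, Finset.mem_filter, Finset.mem_filter, Finset.mem_powerset]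
    constructor
    · rintro ⟨h2, h3⟩
      exact ⟨⟨h2, by rw [h3]; exact hr⟩, h3⟩
    · rintro ⟨⟨h2, _⟩, h3⟩
      exact ⟨h2, h3⟩
  · intro T hT
    rw [(Finset.mem_filter.1 hT).2]

theorem prod_blocks (w : ℕ → ℝ) (β : ℕ → ℕ) (D : Finset ℕ) (J : ℕ) (hD : ∀ p ∈ D, β p < J)
    (R : ℕ → ℕ) (φ : ℕ → ℕ → ℝ) (hφ : ∀ j r, R j < r → φ j r = 0) :
    ∏ j ∈ range J, (∑ r ∈ range (R j + 1), φ j r * esy w (D.filter fun p => β p = j) r) =
    ∑ T ∈ D.powerset, (∏ j ∈ range J, φ j (T.filter fun p => β p = j).card) * ∏ p ∈ T, w p := by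
  have h1 : ∀ j ∈ range J,
      (∑ r ∈ range (R j + 1), φ j r * esy w (D.filter fun p => β p = j) r) =
      ∑ T ∈ (D.filter fun p => β p = j).powerset, φ j T.card * ∏ p ∈ T, w p :=
    fun j _ => block_sum w _ (R j) (φ j) (hφ j)
  rw [Finset.prod_congr rfl h1]
  clear h1
  induction J generalizing D with
  | zero =>
    have h2 : D = ∅ := by
      apply Finset.eq_empty_of_forall_notMem
      intro p hp
      exact absurd (hD p hp) (Nat.not_lt_zero _)
    subst h2
    simp
  | succ J ih =>
    set A := D.filter (fun p => β p < J) with hA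
    set B := D.filter (fun p => β p = J) with hB
    have hAB : ∀ p ∈ D, p ∈ A ∨ p ∈ B := by
      intro p hp
      rcases Nat.lt_succ_iff_lt_or_eq.1 (hD p hp) with h | h
      · exact Or.inl (Finset.mem_filter.2 ⟨hp, h⟩)
      · exact Or.inr (Finset.mem_filter.2 ⟨hp, h⟩)
    have hdis : ∀ U ⊆ A, ∀ V ⊆ B, Disjoint U V := by
      intro U hU V hV
      rw [Finset.disjoint_left]
      intro p h1 h2
      have h3 := (Finset.mem_filter.1 (hU h1)).2
      have h4 := (Finset.mem_filter.1 (hV h2)).2
      omega
    rw [Finset.prod_range_succ]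
    have h2 : ∀ j ∈ range J, (∑ T ∈ (D.filter fun p => β p = j).powerset,
        φ j T.card * ∏ p ∈ T, w p) =
        ∑ T ∈ (A.filter fun p => β p = j).powerset, φ j T.card * ∏ p ∈ T, w p := by
      intro j hj
      have hj' := Finset.mem_range.1 hj
      congr 2
      ext p
      rw [hA, Finset.mem_filter, Finset.mem_filter, Finset.mem_filter]
      constructor
      · rintro ⟨h3, h4⟩; exact ⟨⟨h3, by omega⟩, h4⟩
      · rintro ⟨⟨h3, _⟩, h4⟩; exact ⟨h3, h4⟩
    rw [Finset.prod_congr rfl h2, ih A (fun p hp => (Finset.mem_filter.1 hp).2),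
      Finset.sum_mul_sum, ← Finset.sum_product']
    refine Finset.sum_nbij' (fun UV : Finset ℕ × Finset ℕ => UV.1 ∪ UV.2)
      (fun T => (T.filter (fun p => β p < J), T.filter (fun p => β p = J))) ?_ ?_ ?_ ?_ ?_
    · rintro ⟨U, V⟩ hUV
      rw [Finset.mem_product, Finset.mem_powerset, Finset.mem_powerset] at hUV
      rw [Finset.mem_powerset]
      exact Finset.union_subset (hUV.1.trans (Finset.filter_subset _ _))
        (hUV.2.trans (Finset.filter_subset _ _))
    · intro T hT
      rw [Finset.mem_powerset] at hT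
      rw [Finset.mem_product, Finset.mem_powerset, Finset.mem_powerset]
      exact ⟨Finset.filter_subset_filter _ hT, Finset.filter_subset_filter _ hT⟩
    · rintro ⟨U, V⟩ hUV
      rw [Finset.mem_product, Finset.mem_powerset, Finset.mem_powerset] at hUV
      obtain ⟨hU, hV⟩ := hUV
      simp only [Prod.mk.injEq]
      constructor
      · ext p
        rw [Finset.mem_filter, Finset.mem_union]
        constructor
        · rintro ⟨h3 | h3, h4⟩
          · exact h3
          · have := (Finset.mem_filter.1 (hV h3)).2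
            omega
        · intro h3
          exact ⟨Or.inl h3, (Finset.mem_filter.1 (hU h3)).2⟩
      · ext p
        rw [Finset.mem_filter, Finset.mem_union]
        constructor
        · rintro ⟨h3 | h3, h4⟩
          · have := (Finset.mem_filter.1 (hU h3)).2
            omega
          · exact h3
        · intro h3
          exact ⟨Or.inr h3, (Finset.mem_filter.1 (hV h3)).2⟩
    · intro T hT
      rw [Finset.mem_powerset] at hT
      simp only
      ext p
      rw [Finset.mem_union, Finset.mem_filter, Finset.mem_filter]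
      constructor
      · rintro (h3 | h3) <;> exact h3.1
      · intro h3
        rcases hAB p (hT h3) with h4 | h4
        · exact Or.inl ⟨h3, (Finset.mem_filter.1 h4).2⟩
        · exact Or.inr ⟨h3, (Finset.mem_filter.1 h4).2⟩
    · rintro ⟨U, V⟩ hUV
      rw [Finset.mem_product, Finset.mem_powerset, Finset.mem_powerset] at hUV
      obtain ⟨hU, hV⟩ := hUV
      simp only
      simp only at hU hV
      rw [Finset.prod_range_succ, Finset.prod_union (hdis U hU V hV)]
      have h3 : ∀ j ∈ range J, φ j (((U ∪ V).filter fun p => β p = j).card) =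
          φ j ((U.filter fun p => β p = j).card) := by
        intro j hj
        have hj' := Finset.mem_range.1 hj
        congr 2
        ext p
        rw [Finset.mem_filter, Finset.mem_filter, Finset.mem_union]
        constructor
        · rintro ⟨h4 | h4, h5⟩
          · exact ⟨h4, h5⟩
          · have := (Finset.mem_filter.1 (hV h4)).2
            omega
        · rintro ⟨h4, h5⟩; exact ⟨Or.inl h4, h5⟩
      have h6 : (U ∪ V).filter (fun p => β p = J) = V := by
        ext p
        rw [Finset.mem_filter, Finset.mem_union]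
        constructor
        · rintro ⟨h4 | h4, h5⟩
          · have := (Finset.mem_filter.1 (hU h4)).2
            omega
          · exact h4
        · intro h4
          exact ⟨Or.inr h4, (Finset.mem_filter.1 (hV h4)).2⟩
      rw [Finset.prod_congr rfl h3, h6]
      ring

end Pool.Agent.Lib.P4a7640D
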