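import Mathlib
import Pool.Agent.Lib.P4a7640D.Base
import Pool.Agent.Lib.P4a7640M.Cheb

/-!
# Chebyshev bounds for the blocks

Module P4a7640D.BlockMass.

`block_mass`: `be p = j` means `2^(2^j) ≤ p < 2^(2^(j+1))` (for `p ≥ 2`); use
`Pool.Agent.Lib.P4a7640M.sum_inv_range` with `y = 2^(2^j) - 1/2` (or treat `p = 2, 3` separately)
and `t = 2^(2^j) * 2`: the bound is `4 (1 + log t) / log y`, bounded uniformly in `j`.

`top_mass`: with `a = Nat.log 2 p`, `l = Nat.log 2 N`, `b = Nat.log 2 l` one gets `a ≤ 2 l + 1` and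
`l < (a + 1) 2^c ≤ a 2^(c+1)`, so (`l ≥ 1`, otherwise `D` is empty) `b ≤ be p + c + 1` and
`be p ≤ b + 2`: at most `c + 4` values of `be p`; sum `block_mass` over them
(`Finset.sum_fiberwise_of_maps_to`, or `Finset.sum_biUnion`).
-/

open Finset

namespace Pool.Agent.Lib.P4a7640D

private theorem log_mul_pow {a : ℕ} (ha : a ≠ 0) (c : ℕ) :
    Nat.log 2 (a * 2 ^ c) = Nat.log 2 a + c := by
  induction c with
  | zero => simp
  | succ c ih =>
    rw [pow_succ, ← mul_assoc, Nat.log_mul_base (by norm_num) (by positivity), ih, add_assoc]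

theorem block_mass : ∃ C : ℝ, 0 < C ∧ ∀ (j : ℕ) (D : Finset ℕ),
    (∀ p ∈ D, p.Prime ∧ be p = j) → ∑ p ∈ D, (1:ℝ) / p ≤ C := by
  have hL : 0 < Real.log 2 := Real.log_pos (by norm_num)
  refine ⟨8 * (1 / Real.log 2 + 2), by positivity, ?_⟩
  intro j D hD
  set X : ℝ := (2 : ℝ) ^ j with hX
  have hX1 : 1 ≤ X := one_le_pow₀ (by norm_num)
  set Y : ℝ := (2 : ℝ) ^ (2 ^ j) with hY
  have hY2 : 2 ≤ Y := by
    calc (2 : ℝ) = 2 ^ 1 := by norm_num
      _ ≤ 2 ^ (2 ^ j) := pow_le_pow_right₀ (by norm_num) Nat.one_le_two_pow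
  have hy : 1 < 3 / 4 * Y := by linarith
  have ht : 1 ≤ 2 * Y := by linarith
  have hs : ∀ p ∈ D, p.Prime ∧ 3 / 4 * Y < p ∧ (p : ℝ) ≤ 2 * Y * (3 / 4 * Y) := by
    intro p hp
    obtain ⟨hpp, hbe⟩ := hD p hp
    have hp2 := hpp.two_le
    have ha1 : 1 ≤ Nat.log 2 p := by
      exact Nat.log_pos (by norm_num) hp2
    have ha2 : 2 ^ j ≤ Nat.log 2 p := by
      rw [← hbe]
      exact Nat.pow_log_le_self 2 (by omega)
    have ha3 : Nat.log 2 p < 2 ^ (j + 1) := by
      rw [← hbe]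
      exact Nat.lt_pow_succ_log_self (by norm_num) _
    have h1 : 2 ^ (2 ^ j) ≤ p := by
      calc 2 ^ (2 ^ j) ≤ 2 ^ (Nat.log 2 p) := Nat.pow_le_pow_right (by norm_num) ha2
        _ ≤ p := Nat.pow_log_le_self 2 (by omega)
    have h2 : p < 2 ^ (2 ^ (j + 1)) := by
      calc p < 2 ^ (Nat.log 2 p + 1) := Nat.lt_pow_succ_log_self (by norm_num) _
        _ ≤ 2 ^ (2 ^ (j + 1)) := Nat.pow_le_pow_right (by norm_num) ha3
    have h1' : Y ≤ p := by rw [hY]; exact_mod_cast h1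
    have h2' : (p : ℝ) < Y * Y := by
      have : (2 : ℕ) ^ (2 ^ (j + 1)) = 2 ^ (2 ^ j) * 2 ^ (2 ^ j) := by
        rw [← pow_add]; congr 1; rw [pow_succ]; ring
      rw [this] at h2
      rw [hY]
      exact_mod_cast h2
    refine ⟨hpp, by linarith, ?_⟩
    nlinarith
  have h := P4a7640M.sum_inv_range hy ht D hs
  refine h.trans ?_
  have hlt : Real.log (2 * Y) = (X + 1) * Real.log 2 := by
    rw [Real.log_mul (by norm_num) (by positivity), hY, Real.log_pow, hX]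
    push_cast
    ring
  have hly : X * Real.log 2 / 2 ≤ Real.log (3 / 4 * Y) := by
    have h1 : Real.log Y = X * Real.log 2 := by
      rw [hY, Real.log_pow, hX]; push_cast; ring
    rw [Real.log_mul (by norm_num) (by positivity), h1]
    have h2 : -(Real.log 2) ≤ 2 * Real.log (3 / 4) := by
      rw [← Real.log_inv]
      have h3 : 2 * Real.log (3 / 4) = Real.log ((3 / 4 : ℝ) ^ 2) := by
        rw [Real.log_pow]; norm_num
      rw [h3]
      exact Real.log_le_log (by norm_num) (by norm_num)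
    nlinarith
  have hly0 : 0 < Real.log (3 / 4 * Y) := lt_of_lt_of_le (by positivity) hly
  rw [hlt, div_le_iff₀ hly0]
  have h3 : 8 * (1 / Real.log 2 + 2) * (X * Real.log 2 / 2) ≤
      8 * (1 / Real.log 2 + 2) * Real.log (3 / 4 * Y) :=
    mul_le_mul_of_nonneg_left hly (by positivity)
  refine le_trans ?_ h3
  have h4 : 8 * (1 / Real.log 2 + 2) * (X * Real.log 2 / 2) = 4 * (X + 2 * X * Real.log 2) := by
    field_simp
    ring
  rw [h4]
  nlinarith

theorem top_mass : ∃ C : ℝ, 0 < C ∧ ∀ (c N : ℕ) (D : Finset ℕ),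
    (∀ p ∈ D, p.Prime ∧ p ≤ N ^ 2 ∧ N < p ^ (2 ^ c)) → ∑ p ∈ D, (1:ℝ) / p ≤ C * (c + 4) := by
  obtain ⟨C, hC, hblock⟩ := block_mass
  refine ⟨C, hC, ?_⟩
  intro c N D hD
  rcases D.eq_empty_or_nonempty with hE | hne
  · rw [hE, Finset.sum_empty]; positivity
  have hN2 : 2 ≤ N := by
    obtain ⟨p, hp⟩ := hne
    obtain ⟨h1, h2, _⟩ := hD p hp
    have h3 := h1.two_le
    by_contra h4
    have h5 : N = 0 ∨ N = 1 := by omega
    rcases h5 with h5 | h5 <;> subst h5 <;> omega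
  set l := Nat.log 2 N with hl
  have hl1 : 1 ≤ l := by
    exact Nat.log_pos (by norm_num) hN2
  set b := Nat.log 2 l with hb
  have hmaps : ∀ p ∈ D, be p ∈ Finset.Icc (b - (c + 1)) (b + 2) := by
    intro p hp
    obtain ⟨h1, h2, h3⟩ := hD p hp
    have hp2 := h1.two_le
    set a := Nat.log 2 p with ha
    have ha1 : 1 ≤ a := by
      exact Nat.log_pos (by norm_num) hp2
    have hNlt : N < 2 ^ (l + 1) := Nat.lt_pow_succ_log_self (by norm_num) _
    have hNge : 2 ^ l ≤ N := Nat.pow_log_le_self 2 (by omega)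
    have hplt : p < 2 ^ (a + 1) := Nat.lt_pow_succ_log_self (by norm_num) _
    have hpge : 2 ^ a ≤ p := Nat.pow_log_le_self 2 (by omega)
    have h4 : a ≤ 2 * l + 1 := by
      have h5 : 2 ^ a < 2 ^ (2 * l + 2) := by
        calc 2 ^ a ≤ p := hpge
          _ ≤ N ^ 2 := h2
          _ < (2 ^ (l + 1)) ^ 2 := Nat.pow_lt_pow_left hNlt (by norm_num)
          _ = 2 ^ (2 * l + 2) := by rw [← pow_mul]; congr 1; ring
      have := (Nat.pow_lt_pow_iff_right (by norm_num : 1 < 2)).1 h5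
      omega
    have h6 : l < a * 2 ^ (c + 1) := by
      have h7 : 2 ^ l < 2 ^ ((a + 1) * 2 ^ c) := by
        calc 2 ^ l ≤ N := hNge
          _ < p ^ (2 ^ c) := h3
          _ ≤ (2 ^ (a + 1)) ^ (2 ^ c) := Nat.pow_le_pow_left hplt.le _
          _ = 2 ^ ((a + 1) * 2 ^ c) := by rw [← pow_mul]
      have h8 := (Nat.pow_lt_pow_iff_right (by norm_num : 1 < 2)).1 h7
      have h9 : (a + 1) * 2 ^ c ≤ a * 2 ^ (c + 1) := by
        rw [pow_succ]
        have : 0 < 2 ^ c := by positivity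
        nlinarith
      omega
    have h10 : be p = Nat.log 2 a := rfl
    rw [Finset.mem_Icc, h10]
    constructor
    · have h11 : b ≤ Nat.log 2 (a * 2 ^ (c + 1)) := Nat.log_mono_right h6.le
      have h12 : Nat.log 2 (a * 2 ^ (c + 1)) = Nat.log 2 a + (c + 1) :=
        log_mul_pow (by omega) _
      omega
    · have h11 : Nat.log 2 a ≤ Nat.log 2 (l * 2 ^ 2) := Nat.log_mono_right (by omega)
      have h12 : Nat.log 2 (l * 2 ^ 2) = Nat.log 2 l + 2 :=
        log_mul_pow (by omega) _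
      omega
  rw [← Finset.sum_fiberwise_of_maps_to hmaps]
  have h1 : ∀ j ∈ Finset.Icc (b - (c + 1)) (b + 2),
      ∑ p ∈ D.filter (fun p => be p = j), (1 : ℝ) / p ≤ C := by
    intro j _
    exact hblock j _ (fun p hp => ⟨(hD p (Finset.mem_filter.1 hp).1).1, (Finset.mem_filter.1 hp).2⟩)
  refine (Finset.sum_le_card_nsmul _ _ C h1).trans ?_
  rw [nsmul_eq_mul, mul_comm]
  refine mul_le_mul_of_nonneg_left ?_ hC.le
  have h2 : (Finset.Icc (b - (c + 1)) (b + 2)).card ≤ c + 4 := by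
    rw [Nat.card_Icc]; omega
  calc ((Finset.Icc (b - (c + 1)) (b + 2)).card : ℝ) ≤ ((c + 4 : ℕ) : ℝ) := by exact_mod_cast h2
    _ = (c : ℝ) + 4 := by push_cast; ring

end Pool.Agent.Lib.P4a7640D
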