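import Mathlib
import Pool.Agent.Lib.P4a7640D.Base

/-!
# Truncated binomial expansion and telescoping

Module P4a7640D.Trunc.

`trunc`: induction on `K` for all `R` at once.  Put `e R K = (-1)^K - tr R K`.  From
`choose (K+1) (r+1) = choose K r + choose K (r+1)` one gets
`tr (R+1) (K+1) = tr (R+1) K - 2 * tr R K`, hence `e (R+1) (K+1) = e (R+1) K - 2 * e R K`
(because `(-1)^(K+1) = (-1)^K - 2 (-1)^K`), while `tr 0 K = 1`, so `|e 0 (K+1)| ≤ 2 ≤ er 0 (K+1)`.
And `er (R+1) (K+1) = er (R+1) K + 2 * er R K`.  For `K = 0`: `tr R 0 = 1`.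

`prod_telescope`: induction on `s` (`Finset.induction_on`):
`|a_i A - b_i B| ≤ |A| |a_i - b_i| + |b_i| |A - B| ≤ e_i + (1 + e_i) (E - 1) = (1 + e_i) E - 1`
where `A = ∏ a`, `|A| ≤ 1`, `B = ∏ b`, `E = ∏ (1 + e)`, `|b_i| ≤ 1 + e_i`, `0 ≤ e_i`.
-/

open Finset

namespace Pool.Agent.Lib.P4a7640D

theorem trunc (R K : ℕ) : |(-1:ℝ) ^ K - tr R K| ≤ er R K := by
  induction K generalizing R with
  | zero =>
    have h1 : tr R 0 = 1 := by
      unfold tr
      rw [Finset.sum_eq_single 0]
      · simp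
      · intro r _ hr
        obtain ⟨r', rfl⟩ := Nat.exists_eq_succ_of_ne_zero hr
        simp
      · intro h; exact absurd (Finset.mem_range.2 (Nat.succ_pos _)) h
    have h2 : er R 0 = 0 := by
      unfold er
      simp
    rw [h1, h2]; simp
  | succ K ih =>
    rcases R with _ | R
    · have h1 : tr 0 (K + 1) = 1 := by
        unfold tr
        simp
      have h2 : er 0 (K + 1) = 2 * ((K : ℝ) + 1) := by
        unfold er
        simp
      rw [h1, h2]
      have h3 : |(-1 : ℝ) ^ (K + 1) - 1| ≤ |(-1 : ℝ) ^ (K + 1)| + |(1 : ℝ)| := abs_sub _ _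
      rw [abs_pow, abs_neg, abs_one, one_pow] at h3
      have h4 : (0 : ℝ) ≤ K := Nat.cast_nonneg K
      linarith
    · have h1 : tr (R + 1) (K + 1) = tr (R + 1) K - 2 * tr R K := by
        unfold tr
        rw [Finset.sum_range_succ' _ (R + 1), Finset.sum_range_succ' _ (R + 1)]
        have h2 : ∑ r ∈ Finset.range (R + 1), (-2 : ℝ) ^ (r + 1) * ((K + 1).choose (r + 1) : ℝ) =
            ∑ r ∈ Finset.range (R + 1), (-2 : ℝ) ^ (r + 1) * (K.choose (r + 1) : ℝ) -
            2 * ∑ r ∈ Finset.range (R + 1), (-2 : ℝ) ^ r * (K.choose r : ℝ) := by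
          rw [Finset.mul_sum, ← Finset.sum_sub_distrib]
          refine Finset.sum_congr rfl fun r _ => ?_
          rw [Nat.choose_succ_succ]
          push_cast
          ring
        rw [h2]
        simp
        ring
      have h3 : er (R + 1) (K + 1) = er (R + 1) K + 2 * er R K := by
        unfold er
        rw [Nat.choose_succ_succ]
        push_cast
        ring
      have h4 : (-1 : ℝ) ^ (K + 1) - tr (R + 1) (K + 1) =
          ((-1 : ℝ) ^ K - tr (R + 1) K) - 2 * ((-1 : ℝ) ^ K - tr R K) := by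
        rw [h1, pow_succ]; ring
      rw [h4, h3]
      have h5 := ih (R + 1)
      have h6 := ih R
      have h7 := abs_sub ((-1 : ℝ) ^ K - tr (R + 1) K) (2 * ((-1 : ℝ) ^ K - tr R K))
      rw [abs_mul, abs_of_pos (by norm_num : (0 : ℝ) < 2)] at h7
      linarith

theorem prod_telescope {ι : Type*} (s : Finset ι) (a b e : ι → ℝ) (ha : ∀ i ∈ s, |a i| ≤ 1)
    (hab : ∀ i ∈ s, |a i - b i| ≤ e i) :
    |∏ i ∈ s, a i - ∏ i ∈ s, b i| ≤ ∏ i ∈ s, (1 + e i) - 1 := by
  classical
  induction s using Finset.induction_on with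
  | empty => simp
  | insert i s hi ih =>
    rw [Finset.prod_insert hi, Finset.prod_insert hi, Finset.prod_insert hi]
    have ih' := ih (fun j hj => ha j (Finset.mem_insert_of_mem hj))
      (fun j hj => hab j (Finset.mem_insert_of_mem hj))
    have hai := ha i (Finset.mem_insert_self _ _)
    have habi := hab i (Finset.mem_insert_self _ _)
    have he : 0 ≤ e i := (abs_nonneg _).trans habi
    have hA : |∏ j ∈ s, a j| ≤ 1 := by
      rw [Finset.abs_prod]
      exact Finset.prod_le_one (fun j _ => abs_nonneg _)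
        (fun j hj => ha j (Finset.mem_insert_of_mem hj))
    have hb : |b i| ≤ 1 + e i := by
      have h1 : |b i| ≤ |a i| + |a i - b i| := by
        have := abs_sub (a i) (a i - b i)
        rwa [sub_sub_cancel] at this
      linarith
    have h0 : (0 : ℝ) ≤ ∏ j ∈ s, (1 + e j) - 1 := (abs_nonneg _).trans ih'
    have h1 : a i * ∏ j ∈ s, a j - b i * ∏ j ∈ s, b j =
        (a i - b i) * ∏ j ∈ s, a j + b i * (∏ j ∈ s, a j - ∏ j ∈ s, b j) := by ring
    rw [h1]
    have h2 := abs_add_le ((a i - b i) * ∏ j ∈ s, a j) (b i * (∏ j ∈ s, a j - ∏ j ∈ s, b j))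
    rw [abs_mul, abs_mul] at h2
    have h3 : |a i - b i| * |∏ j ∈ s, a j| ≤ e i * 1 :=
      mul_le_mul habi hA (abs_nonneg _) he
    have h4 : |b i| * |∏ j ∈ s, a j - ∏ j ∈ s, b j| ≤
        (1 + e i) * (∏ j ∈ s, (1 + e j) - 1) :=
      mul_le_mul hb ih' (abs_nonneg _) (by linarith)
    nlinarith

end Pool.Agent.Lib.P4a7640D
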