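import Mathlib
import Pool.Agent.Lib.P4a7640D.Trunc

/-!
# The main terms

Module P4a7640D.MainTerm.

Write `D_j = D.filter (β · = j)`, `w p = m / p`, `R_j = R + (J-1-j)`, `t_j = ∑' r, C^(R_j+1+r) /
(R_j+1+r)!` (a tail of the exponential series).
1. `esy w D_j r ≤ (∑ p ∈ D_j, w p)^r / r!` and `0 ≤ esy w D_j r` (induction on `D_j` or
   `Finset.prod_powersetCard..`; e.g. `(∑ w)^r ≥ r! * esy` by `Finset.esymm`/multinomial, or by
   induction on the set with the recursion `esy w (insert p D) (r+1) = esy w D (r+1) +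
   w p * esy w D r` and `(a + b)^(r+1) ≥ a^(r+1) + (r+1) b a^r`).
   So `2^r * esy w D_j r ≤ C^r / r!`.
2. `∑ r ∈ range (|D_j| + 1), (-2)^r esy w D_j r = ∏ p ∈ D_j, (1 - 2 w p)`
   (`Finset.prod_one_add`/`Finset.prod_add`), so with `π_j = ∏ p ∈ D_j, (1 - 2 w p)`, which lies in
   `[0, exp(-2 ∑ p ∈ D_j, w p)]` and is `≤ 1`, and `esy w D_j r = 0` for `r > |D_j|`:
   `|∑ r ∈ range (R_j + 1), (-2)^r esy w D_j r| ≤ π_j + t_j`.
3. `∏ (π_j + t_j) ≤ ∏ π_j + ∏ (1 + t_j) - 1` when `0 ≤ π_j ≤ 1`, `0 ≤ t_j` (induction on `J`).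
   `∏ (1 + t_j) ≤ exp (∑ t_j)`, and the second claim follows from
   `2^(R_j+1) esy w D_j (R_j+1) ≤ t_j`.
4. `∑ j < J, t_j ≤ ∑ i, ∑ r > R + i, C^r / r! ≤ ∑ r > R, r C^r / r!`, a tail of a convergent
   series, is `≤ log (1 + η)` for `R` large, uniformly in `J`.  (A convenient way: for
   `R + 1 ≥ 2 C` one has `C^r/r! ≤ (C^(R+1)/(R+1)!) * 2^(-(r-R-1))` for `r ≥ R + 1`, so
   `t_j ≤ 2 * (C^(R+1)/(R+1)!) * 2^(-(J-1-j))` and `∑ t_j ≤ 4 C^(R+1)/(R+1)!`, which tends to `0`:
   `FloorSemiring.tendsto_pow_div_factorial_atTop`.)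
-/

open Finset

namespace Pool.Agent.Lib.P4a7640D
namespace MainTermAux

theorem pow_ge {s w : ℝ} (hs : 0 ≤ s) (hw : 0 ≤ w) (r : ℕ) :
    s ^ (r + 1) + (r + 1) * w * s ^ r ≤ (s + w) ^ (r + 1) := by
  induction r with
  | zero => simp
  | succ r ih =>
    have h1 : (s + w) ^ (r + 1 + 1) = (s + w) * (s + w) ^ (r + 1) := by ring
    have h2 : (s + w) * (s ^ (r + 1) + (r + 1) * w * s ^ r) ≤ (s + w) * (s + w) ^ (r + 1) :=
      mul_le_mul_of_nonneg_left ih (by positivity)
    have h3 : 0 ≤ ((r : ℝ) + 1) * w ^ 2 * s ^ r := by positivity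
    rw [h1]
    refine le_trans ?_ h2
    push_cast
    have : (s + w) * (s ^ (r + 1) + (r + 1) * w * s ^ r)
        = s ^ (r + 1 + 1) + (r + 1 + 1) * w * s ^ (r + 1) + ((r : ℝ) + 1) * w ^ 2 * s ^ r := by
      ring
    rw [this]
    linarith

theorem esy_zero (w : ℕ → ℝ) (D : Finset ℕ) : esy w D 0 = 1 := by
  simp [esy]

theorem esy_empty_succ (w : ℕ → ℝ) (r : ℕ) : esy w ∅ (r + 1) = 0 := by
  have : (∅ : Finset ℕ).powersetCard (r + 1) = ∅ := by
    apply Finset.powersetCard_eq_empty.2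
    simp
  simp [esy, this]

theorem esy_large (w : ℕ → ℝ) {D : Finset ℕ} {r : ℕ} (h : D.card < r) : esy w D r = 0 := by
  have : D.powersetCard r = ∅ := Finset.powersetCard_eq_empty.2 h
  simp [esy, this]

theorem esy_insert (w : ℕ → ℝ) {D : Finset ℕ} {p : ℕ} (hp : p ∉ D) (r : ℕ) :
    esy w (insert p D) (r + 1) = esy w D (r + 1) + w p * esy w D r := by
  unfold esy
  rw [Finset.powersetCard_succ_insert hp, Finset.sum_union, Finset.sum_image, Finset.mul_sum]
  · congr 1
    refine Finset.sum_congr rfl fun T hT => ?_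
    have hT' : p ∉ T := fun h => hp ((Finset.mem_powersetCard.1 hT).1 h)
    rw [Finset.prod_insert hT']
  · intro T hT T' hT' h
    have h1 : p ∉ T := fun h => hp ((Finset.mem_powersetCard.1 hT).1 h)
    have h2 : p ∉ T' := fun h => hp ((Finset.mem_powersetCard.1 hT').1 h)
    have h3 : (insert p T).erase p = (insert p T').erase p := by rw [h]
    rwa [Finset.erase_insert h1, Finset.erase_insert h2] at h3
  · rw [Finset.disjoint_left]
    intro T hT hT'
    obtain ⟨T', _, rfl⟩ := Finset.mem_image.1 hT'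
    exact hp ((Finset.mem_powersetCard.1 hT).1 (Finset.mem_insert_self _ _))

theorem esy_nonneg (w : ℕ → ℝ) {D : Finset ℕ} (hw : ∀ p ∈ D, 0 ≤ w p) (r : ℕ) : 0 ≤ esy w D r := by
  unfold esy
  refine Finset.sum_nonneg fun T hT => Finset.prod_nonneg fun p hp => hw p ?_
  exact (Finset.mem_powersetCard.1 hT).1 hp

theorem esy_le (w : ℕ → ℝ) (D : Finset ℕ) (hw : ∀ p ∈ D, 0 ≤ w p) (r : ℕ) :
    esy w D r ≤ (∑ p ∈ D, w p) ^ r / r.factorial := by
  induction D using Finset.induction_on generalizing r with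
  | empty =>
    cases r with
    | zero => simp [esy_zero]
    | succ r => simp [esy_empty_succ]
  | insert p D hp ih =>
    have hw' : ∀ q ∈ D, 0 ≤ w q := fun q hq => hw q (Finset.mem_insert_of_mem hq)
    have hwp : 0 ≤ w p := hw p (Finset.mem_insert_self _ _)
    cases r with
    | zero => simp [esy_zero]
    | succ r =>
      rw [esy_insert w hp, Finset.sum_insert hp]
      have hs : 0 ≤ ∑ q ∈ D, w q := Finset.sum_nonneg hw'
      set s := ∑ q ∈ D, w q with hsdef
      have h1 := ih hw' (r + 1)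
      have h2 := mul_le_mul_of_nonneg_left (ih hw' r) hwp
      have h3 := pow_ge hs hwp r
      have hf : (0 : ℝ) < (r + 1).factorial := by positivity
      have hf' : (0 : ℝ) < r.factorial := by positivity
      have hf2 : ((r + 1).factorial : ℝ) = (r + 1) * r.factorial := by
        rw [Nat.factorial_succ]; push_cast; ring
      calc esy w D (r + 1) + w p * esy w D r
          ≤ s ^ (r + 1) / (r + 1).factorial + w p * (s ^ r / r.factorial) := add_le_add h1 h2
        _ = (s ^ (r + 1) + (r + 1) * w p * s ^ r) / (r + 1).factorial := by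
            rw [hf2]
            have : (0:ℝ) < r + 1 := by positivity
            field_simp
        _ ≤ (s + w p) ^ (r + 1) / (r + 1).factorial :=
            div_le_div_of_nonneg_right h3 hf.le
        _ = (w p + s) ^ (r + 1) / (r + 1).factorial := by rw [add_comm]

theorem two_pow_esy_le {w : ℕ → ℝ} {D : Finset ℕ} (hw : ∀ p ∈ D, 0 ≤ w p) {C : ℝ}
    (hC : 2 * ∑ p ∈ D, w p ≤ C) (r : ℕ) : 2 ^ r * esy w D r ≤ C ^ r / r.factorial := by
  have hs : 0 ≤ ∑ q ∈ D, w q := Finset.sum_nonneg hw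
  calc 2 ^ r * esy w D r ≤ 2 ^ r * ((∑ p ∈ D, w p) ^ r / r.factorial) :=
        mul_le_mul_of_nonneg_left (esy_le w D hw r) (by positivity)
    _ = (2 * ∑ p ∈ D, w p) ^ r / r.factorial := by rw [mul_pow]; ring
    _ ≤ C ^ r / r.factorial := by
        apply div_le_div_of_nonneg_right _ (by positivity)
        exact pow_le_pow_left₀ (by positivity) hC r

theorem tail_le {C : ℝ} (hC : 0 ≤ C) {R : ℕ} (hR : 2 * C ≤ R + 1) (i : ℕ) :
    C ^ (R + 1 + i) / (R + 1 + i).factorial ≤ C ^ (R + 1) / (R + 1).factorial / 2 ^ i := by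
  induction i with
  | zero => simp
  | succ i ih =>
    have e1 : C ^ (R + 1 + (i + 1)) / (R + 1 + (i + 1)).factorial
        = (C ^ (R + 1 + i) / (R + 1 + i).factorial) * (C / (R + 1 + i + 1)) := by
      rw [show R + 1 + (i + 1) = (R + 1 + i) + 1 by ring, Nat.factorial_succ, pow_succ]
      have : (0:ℝ) < (R + 1 + i).factorial := by positivity
      have h2 : (0:ℝ) < (R:ℝ) + 1 + i + 1 := by positivity
      push_cast
      field_simp
    have h2 : C / ((R:ℝ) + 1 + i + 1) ≤ 1 / 2 := by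
      rw [div_le_div_iff₀ (by positivity) (by norm_num)]
      have : (0:ℝ) ≤ i := by positivity
      linarith
    rw [e1]
    calc (C ^ (R + 1 + i) / (R + 1 + i).factorial) * (C / (R + 1 + i + 1))
        ≤ (C ^ (R + 1) / (R + 1).factorial / 2 ^ i) * (1 / 2) :=
          mul_le_mul ih h2 (by positivity) (by positivity)
      _ = C ^ (R + 1) / (R + 1).factorial / 2 ^ (i + 1) := by
          rw [pow_succ (2:ℝ) i, div_mul_div_comm, mul_one]

theorem sum_esy (w : ℕ → ℝ) (D : Finset ℕ) :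
    ∑ r ∈ range (D.card + 1), (-2:ℝ) ^ r * esy w D r = ∏ p ∈ D, (1 - 2 * w p) := by
  have h1 : ∏ p ∈ D, (1 - 2 * w p) = ∏ p ∈ D, (1 + (-2) * w p) :=
    Finset.prod_congr rfl fun p _ => by ring
  rw [h1, Finset.prod_one_add, Finset.sum_powerset]
  refine Finset.sum_congr rfl fun r _ => ?_
  unfold esy
  rw [Finset.mul_sum]
  refine Finset.sum_congr rfl fun T hT => ?_
  rw [Finset.prod_mul_distrib, Finset.prod_const, (Finset.mem_powersetCard.1 hT).2]

theorem sum_esy' (w : ℕ → ℝ) (D : Finset ℕ) {M : ℕ} (hM : D.card ≤ M) :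
    ∑ r ∈ range (M + 1), (-2:ℝ) ^ r * esy w D r = ∏ p ∈ D, (1 - 2 * w p) := by
  rw [← sum_esy]
  symm
  apply Finset.sum_subset
  · intro r hr
    simp only [Finset.mem_range] at hr ⊢
    omega
  · intro r _ hr
    have : D.card < r := by
      simp only [Finset.mem_range] at hr
      omega
    simp [esy_large w this]

theorem geom_le (a : ℝ) (ha : 0 ≤ a) (n : ℕ) : ∑ i ∈ range n, a / 2 ^ i ≤ 2 * a := by
  have h : ∑ i ∈ range n, a / 2 ^ i = 2 * a - 2 * a / 2 ^ n := by
    induction n with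
    | zero => simp
    | succ n ih =>
      rw [Finset.sum_range_succ, ih, pow_succ]
      field_simp
      ring
  rw [h]
  have : 0 ≤ 2 * a / 2 ^ n := by positivity
  linarith

theorem trunc_le {w : ℕ → ℝ} {D : Finset ℕ} (hw : ∀ p ∈ D, 0 ≤ w p) (hw2 : ∀ p ∈ D, 2 * w p ≤ 1)
    {C : ℝ} (hC0 : 0 ≤ C) (hC : 2 * ∑ p ∈ D, w p ≤ C) {R : ℕ} (hR : 2 * C ≤ R + 1) (k : ℕ) :
    |∑ r ∈ range (R + k + 1), (-2:ℝ) ^ r * esy w D r| ≤
      ∏ p ∈ D, (1 - 2 * w p) + 2 * (C ^ (R + 1) / (R + 1).factorial) / 2 ^ k := by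
  set a := C ^ (R + 1) / ((R + 1).factorial : ℝ) with ha
  have ha0 : 0 ≤ a := by positivity
  obtain ⟨n, hn⟩ : ∃ n, max (R + k) D.card = R + k + n :=
    ⟨max (R + k) D.card - (R + k), by have := le_max_left (R + k) D.card; omega⟩
  have h1 : ∑ r ∈ range (R + k + n + 1), (-2:ℝ) ^ r * esy w D r = ∏ p ∈ D, (1 - 2 * w p) := by
    apply sum_esy'
    rw [← hn]
    exact le_max_right _ _
  have h2 : ∑ r ∈ range (R + k + n + 1), (-2:ℝ) ^ r * esy w D r =
      ∑ r ∈ range (R + k + 1), (-2:ℝ) ^ r * esy w D r +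
        ∑ i ∈ range n, (-2:ℝ) ^ (R + k + 1 + i) * esy w D (R + k + 1 + i) := by
    rw [show R + k + n + 1 = (R + k + 1) + n by ring, Finset.sum_range_add]
  have h3 : |∑ i ∈ range n, (-2:ℝ) ^ (R + k + 1 + i) * esy w D (R + k + 1 + i)| ≤
      2 * a / 2 ^ k := by
    calc |∑ i ∈ range n, (-2:ℝ) ^ (R + k + 1 + i) * esy w D (R + k + 1 + i)|
        ≤ ∑ i ∈ range n, |(-2:ℝ) ^ (R + k + 1 + i) * esy w D (R + k + 1 + i)| :=
          Finset.abs_sum_le_sum_abs _ _
      _ ≤ ∑ i ∈ range n, (a / 2 ^ k) / 2 ^ i := by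
          refine Finset.sum_le_sum fun i _ => ?_
          rw [abs_mul, abs_pow, abs_neg, abs_two, abs_of_nonneg (esy_nonneg w hw _)]
          refine (two_pow_esy_le hw hC _).trans ?_
          have := tail_le hC0 hR (k + i)
          rw [show R + 1 + (k + i) = R + k + 1 + i by ring] at this
          refine this.trans (le_of_eq ?_)
          rw [pow_add (2:ℝ) k i, ← ha, ← div_div]
      _ ≤ 2 * (a / 2 ^ k) := geom_le _ (by positivity) n
      _ = 2 * a / 2 ^ k := by ring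
  have h4 : 0 ≤ ∏ p ∈ D, (1 - 2 * w p) := Finset.prod_nonneg fun p hp => by
    have := hw2 p hp
    linarith
  have h5 : ∑ r ∈ range (R + k + 1), (-2:ℝ) ^ r * esy w D r = ∏ p ∈ D, (1 - 2 * w p) -
      ∑ i ∈ range n, (-2:ℝ) ^ (R + k + 1 + i) * esy w D (R + k + 1 + i) := by
    rw [← h1, h2]; ring
  rw [h5]
  refine (abs_sub _ _).trans ?_
  rw [abs_of_nonneg h4]
  exact add_le_add le_rfl h3

theorem prod_le (π t : ℕ → ℝ) (J : ℕ) (h0 : ∀ j < J, 0 ≤ π j) (h1 : ∀ j < J, π j ≤ 1)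
    (ht : ∀ j < J, 0 ≤ t j) :
    ∏ j ∈ range J, (π j + t j) ≤ ∏ j ∈ range J, π j + (∏ j ∈ range J, (1 + t j) - 1) := by
  induction J with
  | zero => simp
  | succ J ih =>
    have ih' := ih (fun j hj => h0 j (by omega)) (fun j hj => h1 j (by omega))
      (fun j hj => ht j (by omega))
    rw [Finset.prod_range_succ, Finset.prod_range_succ, Finset.prod_range_succ]
    set P := ∏ j ∈ range J, π j with hP
    set Q := ∏ j ∈ range J, (1 + t j) with hQ
    have hP0 : 0 ≤ P := Finset.prod_nonneg fun j hj => h0 j (by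
      have := Finset.mem_range.1 hj; omega)
    have hP1 : P ≤ 1 := Finset.prod_le_one (fun j hj => h0 j (by
      have := Finset.mem_range.1 hj; omega)) (fun j hj => h1 j (by
      have := Finset.mem_range.1 hj; omega))
    have hQ1 : 1 ≤ Q := by
      rw [hQ]
      have : ∀ j ∈ range J, (1 : ℝ) ≤ 1 + t j := fun j hj => by
        have := ht j (by have := Finset.mem_range.1 hj; omega)
        linarith
      calc (1 : ℝ) = ∏ j ∈ range J, (1 : ℝ) := by simp
        _ ≤ ∏ j ∈ range J, (1 + t j) := Finset.prod_le_prod (fun _ _ => zero_le_one) this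
    have a0 := h0 J (by omega)
    have a1 := h1 J (by omega)
    have a2 := ht J (by omega)
    calc (∏ j ∈ range J, (π j + t j)) * (π J + t J)
        ≤ (P + (Q - 1)) * (π J + t J) := mul_le_mul_of_nonneg_right ih' (by linarith)
      _ ≤ P * π J + (Q * (1 + t J) - 1) := by nlinarith

end MainTermAux

open MainTermAux in
theorem main_term (C η : ℝ) (hC : 0 ≤ C) (hη : 0 < η) :
    ∃ R : ℕ, ∀ (m : ℕ) (D : Finset ℕ) (β : ℕ → ℕ) (J : ℕ),
      (∀ p ∈ D, 0 < p ∧ 2 * m ≤ p) → (∀ p ∈ D, β p < J) →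
      (∀ j < J, 2 * ∑ p ∈ D.filter (fun p => β p = j), (m : ℝ) / p ≤ C) →
      |∏ j ∈ range J, (∑ r ∈ range (R + (J - 1 - j) + 1),
        (-2:ℝ) ^ r * esy (fun p => (m : ℝ) / p) (D.filter fun p => β p = j) r)| ≤
        Real.exp (-(2 * ∑ p ∈ D, (m : ℝ) / p)) + η ∧
      ∏ j ∈ range J, (1 + 2 ^ (R + (J - 1 - j) + 1) *
        esy (fun p => (m : ℝ) / p) (D.filter fun p => β p = j) (R + (J - 1 - j) + 1)) - 1 ≤ η := by
  have hl : 0 < Real.log (1 + η) / 4 := by
    have := Real.log_pos (show (1:ℝ) < 1 + η by linarith)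
    positivity
  have hlim : Filter.Tendsto (fun R : ℕ => C ^ (R + 1) / ((R + 1).factorial : ℝ)) Filter.atTop
      (nhds 0) :=
    (FloorSemiring.tendsto_pow_div_factorial_atTop C).comp (Filter.tendsto_add_atTop_nat 1)
  have h1 : ∀ᶠ R : ℕ in Filter.atTop, C ^ (R + 1) / ((R + 1).factorial : ℝ) <
      Real.log (1 + η) / 4 := hlim.eventually (gt_mem_nhds hl)
  obtain ⟨R, hRa, hRb⟩ := (h1.and (Filter.eventually_ge_atTop ⌈2 * C⌉₊)).exists
  have hR : 2 * C ≤ R + 1 := by
    have h2 : 2 * C ≤ (⌈2 * C⌉₊ : ℝ) := Nat.le_ceil _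
    have h3 : ((⌈2 * C⌉₊ : ℕ) : ℝ) ≤ R := by exact_mod_cast hRb
    linarith
  refine ⟨R, fun m D β J hD hβ hCj => ?_⟩
  set w : ℕ → ℝ := fun p => (m : ℝ) / p with hwdef
  set a := C ^ (R + 1) / ((R + 1).factorial : ℝ) with ha
  have ha0 : 0 ≤ a := by positivity
  have hw0 : ∀ p, 0 ≤ w p := fun p => by positivity
  have hw1 : ∀ p ∈ D, 2 * w p ≤ 1 := by
    intro p hp
    obtain ⟨hp0, hp1⟩ := hD p hp
    have hp0' : (0 : ℝ) < p := by exact_mod_cast hp0
    have hp1' : (2 : ℝ) * m ≤ p := by exact_mod_cast hp1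
    show 2 * ((m : ℝ) / p) ≤ 1
    rw [← mul_div_assoc, div_le_one hp0']
    exact hp1'
  have hfil : ∀ j, ∀ p ∈ D.filter (fun p => β p = j), p ∈ D := fun j p hp =>
    (Finset.mem_filter.1 hp).1
  set π : ℕ → ℝ := fun j => ∏ p ∈ D.filter (fun p => β p = j), (1 - 2 * w p) with hπ
  set t : ℕ → ℝ := fun j => 2 * a / 2 ^ (J - 1 - j) with htdef
  have hπ0 : ∀ j, 0 ≤ π j := fun j => Finset.prod_nonneg fun p hp => by
    have := hw1 p (hfil j p hp)
    linarith
  have hπ1 : ∀ j, π j ≤ 1 := fun j => Finset.prod_le_one (fun p hp => by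
    have := hw1 p (hfil j p hp)
    linarith) (fun p hp => by
    have := hw0 p
    linarith)
  have ht0 : ∀ j, 0 ≤ t j := fun j => by positivity
  have hsum : ∑ j ∈ range J, t j ≤ 4 * a := by
    have h2 : ∑ j ∈ range J, t j = ∑ j ∈ range J, 2 * a / 2 ^ j :=
      Finset.sum_range_reflect (fun j => 2 * a / (2:ℝ) ^ j) J
    rw [h2]
    calc ∑ j ∈ range J, 2 * a / 2 ^ j ≤ 2 * (2 * a) := geom_le _ (by positivity) J
      _ = 4 * a := by ring
  have hprod : ∏ j ∈ range J, (1 + t j) - 1 ≤ η := by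
    have h2 : ∏ j ∈ range J, (1 + t j) ≤ Real.exp (∑ j ∈ range J, t j) := by
      rw [Real.exp_sum]
      refine Finset.prod_le_prod (fun j _ => by have := ht0 j; linarith) fun j _ => ?_
      have := Real.add_one_le_exp (t j)
      linarith
    have h3 : Real.exp (∑ j ∈ range J, t j) ≤ Real.exp (Real.log (1 + η)) := by
      apply Real.exp_le_exp.2
      linarith
    rw [Real.exp_log (by linarith)] at h3
    linarith
  constructor
  · rw [Finset.abs_prod]
    calc ∏ j ∈ range J, |∑ r ∈ range (R + (J - 1 - j) + 1),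
          (-2:ℝ) ^ r * esy w (D.filter fun p => β p = j) r|
        ≤ ∏ j ∈ range J, (π j + t j) := by
          refine Finset.prod_le_prod (fun _ _ => abs_nonneg _) fun j hj => ?_
          exact trunc_le (fun p _ => hw0 p) (fun p hp => hw1 p (hfil j p hp)) hC
            (hCj j (Finset.mem_range.1 hj)) hR (J - 1 - j)
      _ ≤ ∏ j ∈ range J, π j + (∏ j ∈ range J, (1 + t j) - 1) :=
          prod_le π t J (fun j _ => hπ0 j) (fun j _ => hπ1 j) (fun j _ => ht0 j)
      _ ≤ Real.exp (-(2 * ∑ p ∈ D, w p)) + η := by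
          refine add_le_add ?_ hprod
          have h2 : ∏ j ∈ range J, π j = ∏ p ∈ D, (1 - 2 * w p) :=
            Finset.prod_fiberwise_of_maps_to (fun p hp => Finset.mem_range.2 (hβ p hp)) _
          rw [h2, Finset.mul_sum, ← Finset.sum_neg_distrib, Real.exp_sum]
          refine Finset.prod_le_prod (fun p hp => by have := hw1 p hp; linarith) fun p _ => ?_
          have := Real.add_one_le_exp (-(2 * w p))
          linarith
  · refine le_trans (sub_le_sub_right ?_ 1) hprod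
    refine Finset.prod_le_prod (fun j _ => ?_) fun j hj => ?_
    · have := esy_nonneg w (D := D.filter fun p => β p = j) (fun p _ => hw0 p)
        (R + (J - 1 - j) + 1)
      positivity
    · have h2 := two_pow_esy_le (w := w) (fun p _ => hw0 p) (hCj j (Finset.mem_range.1 hj))
        (R + (J - 1 - j) + 1)
      have h3 := tail_le hC hR (J - 1 - j)
      rw [show R + 1 + (J - 1 - j) = R + (J - 1 - j) + 1 by ring, ← ha] at h3
      have h4 : a / 2 ^ (J - 1 - j) ≤ t j := by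
        show a / 2 ^ (J - 1 - j) ≤ 2 * a / 2 ^ (J - 1 - j)
        apply div_le_div_of_nonneg_right _ (by positivity)
        linarith
      linarith

end Pool.Agent.Lib.P4a7640D
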