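import Mathlib
import Pool.Agent.Lib.P4a7640D.Base

/-!
# Counting the `n ≤ x` such that every `p ∈ T` divides some `n + h`

Module P4a7640D.Crt.

Let `F n = ∏ p ∈ T, (if ∃ h ∈ H, p ∣ n + h then 1 else 0)`, `Q = ∏ p ∈ T, p`, `m = H.card`.
`F` is periodic with period `Q`, takes values in `{0,1}`, and `∑ n ∈ range Q, F n = m ^ T.card`:
induction on `T` (`Finset.induction_on`), using that for coprime `a`, `b` and functions `u`, `v`
with periods `a`, `b` one has `∑ n ∈ range (a*b), u n * v n = (∑ range a, u) * (∑ range b, v)`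
(Chinese remainder theorem, `Nat.chineseRemainder` or `ZMod.chineseRemainder`), and that for a
prime `p` larger than all elements of `H` exactly `m` residues `n < p` satisfy
`∃ h ∈ H, p ∣ n + h` (namely `n = (p - h) % p`, distinct for distinct `h`).
For a nonnegative function of period `Q` with sum `S` over a period,
`⌊x/Q⌋ S ≤ ∑ n ∈ Icc 1 x, F n ≤ (⌊x/Q⌋ + 1) S`, so the sum differs from `x S / Q` by at most `S`.
-/

open Finset

namespace Pool.Agent.Lib.P4a7640D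

private theorem base_count (x q c : ℕ) (hq : 0 < q) :
    |∑ n ∈ Icc 1 x, (if n ≡ c [MOD q] then (1:ℝ) else 0) - x / q| ≤ 1 := by
  have h1 : Icc 1 x = Ioc 0 x := by
    ext n
    simp only [mem_Icc, mem_Ioc]
    omega
  rw [h1, sum_boole]
  have h2 := Nat.Ioc_filter_modEq_card 0 x hq c
  have h3 : (((#{n ∈ Ioc 0 x | n ≡ c [MOD q]} : ℕ) : ℤ) : ℝ) =
      ((max (⌊((x:ℚ) - c) / q⌋ - ⌊(((0:ℕ):ℚ) - c) / q⌋) 0 : ℤ) : ℝ) := by
    exact_mod_cast h2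
  have hq' : (0:ℚ) < q := by exact_mod_cast hq
  have hmono : ⌊(((0:ℕ):ℚ) - c) / q⌋ ≤ ⌊((x:ℚ) - c) / q⌋ := by
    apply Int.floor_le_floor
    have : (0:ℚ) ≤ x := by positivity
    push_cast
    gcongr
  rw [max_eq_left (by omega)] at h3
  have h4 : ((#{n ∈ Ioc 0 x | n ≡ c [MOD q]} : ℕ) : ℝ) =
      ((⌊((x:ℚ) - c) / q⌋ : ℤ) : ℝ) - ((⌊(((0:ℕ):ℚ) - c) / q⌋ : ℤ) : ℝ) := by
    have : (((#{n ∈ Ioc 0 x | n ≡ c [MOD q]} : ℕ) : ℤ) : ℝ) =
        ((#{n ∈ Ioc 0 x | n ≡ c [MOD q]} : ℕ) : ℝ) := by norm_cast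
    rw [← this, h3]
    push_cast
    ring
  have a1 : ((⌊((x:ℚ) - c) / q⌋ : ℤ) : ℚ) ≤ ((x:ℚ) - c) / q := Int.floor_le _
  have a2 : ((x:ℚ) - c) / q < ((⌊((x:ℚ) - c) / q⌋ : ℤ) : ℚ) + 1 := Int.lt_floor_add_one _
  have b1 : ((⌊(((0:ℕ):ℚ) - c) / q⌋ : ℤ) : ℚ) ≤ (((0:ℕ):ℚ) - c) / q := Int.floor_le _
  have b2 : (((0:ℕ):ℚ) - c) / q < ((⌊(((0:ℕ):ℚ) - c) / q⌋ : ℤ) : ℚ) + 1 :=
    Int.lt_floor_add_one _
  have e1 : ((x:ℚ) - c) / q - (((0:ℕ):ℚ) - c) / q = x / q := by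
    push_cast
    ring
  have key : |((⌊((x:ℚ) - c) / q⌋ : ℤ) : ℚ) - ((⌊(((0:ℕ):ℚ) - c) / q⌋ : ℤ) : ℚ) - x / q| ≤ 1 := by
    rw [abs_le]
    constructor <;> linarith
  rw [h4]
  generalize ⌊((x:ℚ) - c) / q⌋ = A at key
  generalize ⌊(((0:ℕ):ℚ) - c) / q⌋ = B at key
  have key' : (((|(A:ℚ) - (B:ℚ) - (x:ℚ) / (q:ℚ)| : ℚ)) : ℝ) ≤ ((1:ℚ) : ℝ) := by
    exact_mod_cast key
  push_cast at key'
  exact key'

private theorem crt_two {q p : ℕ} (hco : Nat.Coprime q p) (hp : 0 < p) (c h : ℕ) :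
    ∃ c', ∀ n, (n ≡ c [MOD q] ∧ p ∣ n + h) ↔ n ≡ c' [MOD q * p] := by
  obtain ⟨c', h1, h2⟩ := Nat.chineseRemainder hco c ((p - 1) * h)
  refine ⟨c', fun n => ?_⟩
  have h3 : p ∣ n + h ↔ n ≡ (p - 1) * h [MOD p] := by
    have h4 : (p - 1) * h + h ≡ 0 [MOD p] := by
      have : (p - 1) * h + h = p * h := by
        obtain ⟨p', rfl⟩ : ∃ p', p = p' + 1 := ⟨p - 1, by omega⟩
        simp only [Nat.add_sub_cancel]
        ring
      rw [this]
      exact (Nat.modEq_zero_iff_dvd).2 (dvd_mul_right _ _)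
    rw [← Nat.modEq_zero_iff_dvd]
    constructor
    · intro h5
      exact Nat.ModEq.add_right_cancel' h (h5.trans h4.symm)
    · intro h5
      exact (Nat.ModEq.add_right h h5).trans h4
  rw [h3, ← Nat.modEq_and_modEq_iff_modEq_mul hco]
  constructor
  · rintro ⟨a, b⟩
    exact ⟨a.trans h1.symm, b.trans h2.symm⟩
  · rintro ⟨a, b⟩
    exact ⟨a.trans h1, b.trans h2⟩

private theorem ind_eq_sum (H : Finset ℕ) {p : ℕ} (hH : ∀ h ∈ H, h < p) (n : ℕ) :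
    (if ∃ h ∈ H, p ∣ n + h then (1:ℝ) else 0) = ∑ h ∈ H, if p ∣ n + h then (1:ℝ) else 0 := by
  by_cases h1 : ∃ h ∈ H, p ∣ n + h
  · rw [if_pos h1]
    obtain ⟨h0, hh0, hd⟩ := h1
    rw [sum_eq_single h0]
    · rw [if_pos hd]
    · intro b hb hne
      rw [if_neg]
      intro hd'
      apply hne
      have e1 : n + b ≡ n + h0 [MOD p] :=
        ((Nat.modEq_zero_iff_dvd).2 hd').trans ((Nat.modEq_zero_iff_dvd).2 hd).symm
      have e2 : b ≡ h0 [MOD p] := Nat.ModEq.add_left_cancel' n e1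
      exact Nat.ModEq.eq_of_lt_of_lt e2 (hH b hb) (hH h0 hh0)
    · intro hn
      exact absurd hh0 hn
  · rw [if_neg h1]
    symm
    apply sum_eq_zero
    intro h hh
    rw [if_neg]
    intro hd
    exact h1 ⟨h, hh, hd⟩

private theorem gen_count (H : Finset ℕ) (x : ℕ) (T : Finset ℕ) :
    (∀ p ∈ T, p.Prime) → (∀ p ∈ T, ∀ h ∈ H, h < p) → ∀ q c : ℕ, 0 < q →
    (∀ p ∈ T, Nat.Coprime q p) →
    |∑ n ∈ Icc 1 x, (if n ≡ c [MOD q] then (1:ℝ) else 0) *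
        ∏ p ∈ T, (if ∃ h ∈ H, p ∣ n + h then (1:ℝ) else 0) -
      x / q * ∏ p ∈ T, ((H.card : ℝ) / p)| ≤ (H.card : ℝ) ^ T.card := by
  induction T using Finset.induction_on with
  | empty =>
    intro _ _ q c hq _
    simpa using base_count x q c hq
  | @insert p T hpT ih =>
    intro hT hHT q c hq hco
    have hp : p.Prime := hT p (mem_insert_self _ _)
    have hp0 : (p:ℝ) ≠ 0 := by exact_mod_cast hp.ne_zero
    have hq0 : (q:ℝ) ≠ 0 := by exact_mod_cast hq.ne'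
    have hcop : Nat.Coprime q p := hco p (mem_insert_self _ _)
    choose c' hc' using fun h => crt_two hcop hp.pos c h
    have hih : ∀ h ∈ H, |∑ n ∈ Icc 1 x, (if n ≡ c' h [MOD q * p] then (1:ℝ) else 0) *
        ∏ p ∈ T, (if ∃ h ∈ H, p ∣ n + h then (1:ℝ) else 0) -
      x / ((q * p : ℕ) : ℝ) * ∏ p ∈ T, ((H.card : ℝ) / p)| ≤ (H.card : ℝ) ^ T.card := by
      intro h _
      refine ih (fun r hr => hT r (mem_insert_of_mem hr)) (fun r hr => hHT r (mem_insert_of_mem hr))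
        (q * p) (c' h) (Nat.mul_pos hq hp.pos) ?_
      intro r hr
      refine Nat.Coprime.mul_left (hco r (mem_insert_of_mem hr)) ?_
      refine (Nat.coprime_primes hp (hT r (mem_insert_of_mem hr))).2 ?_
      rintro rfl
      exact hpT hr
    have hsplit : ∑ n ∈ Icc 1 x, (if n ≡ c [MOD q] then (1:ℝ) else 0) *
        ∏ p ∈ insert p T, (if ∃ h ∈ H, p ∣ n + h then (1:ℝ) else 0) =
        ∑ h ∈ H, ∑ n ∈ Icc 1 x, (if n ≡ c' h [MOD q * p] then (1:ℝ) else 0) *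
          ∏ p ∈ T, (if ∃ h ∈ H, p ∣ n + h then (1:ℝ) else 0) := by
      rw [sum_comm]
      refine sum_congr rfl fun n _ => ?_
      rw [prod_insert hpT, ind_eq_sum H (hHT p (mem_insert_self _ _)) n, ← mul_assoc, mul_sum,
        sum_mul]
      refine sum_congr rfl fun h _ => ?_
      congr 1
      have h5 := hc' h n
      by_cases h6 : n ≡ c [MOD q]
      · by_cases h7 : p ∣ n + h
        · rw [if_pos h6, if_pos h7, if_pos (h5.1 ⟨h6, h7⟩), one_mul]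
        · rw [if_neg h7, if_neg (fun h8 => h7 (h5.2 h8).2), mul_zero]
      · rw [if_neg h6, if_neg (fun h8 => h6 (h5.2 h8).1), zero_mul]
    have hmain : (x:ℝ) / q * ∏ p ∈ insert p T, ((H.card : ℝ) / p) =
        ∑ h ∈ H, x / ((q * p : ℕ) : ℝ) * ∏ p ∈ T, ((H.card : ℝ) / p) := by
      rw [prod_insert hpT, sum_const, nsmul_eq_mul]
      push_cast
      field_simp
    rw [hsplit, hmain, ← sum_sub_distrib, card_insert_of_notMem hpT]
    calc |∑ h ∈ H, (∑ n ∈ Icc 1 x, (if n ≡ c' h [MOD q * p] then (1:ℝ) else 0) *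
          ∏ p ∈ T, (if ∃ h ∈ H, p ∣ n + h then (1:ℝ) else 0) -
          x / ((q * p : ℕ) : ℝ) * ∏ p ∈ T, ((H.card : ℝ) / p))|
        ≤ ∑ h ∈ H, |∑ n ∈ Icc 1 x, (if n ≡ c' h [MOD q * p] then (1:ℝ) else 0) *
          ∏ p ∈ T, (if ∃ h ∈ H, p ∣ n + h then (1:ℝ) else 0) -
          x / ((q * p : ℕ) : ℝ) * ∏ p ∈ T, ((H.card : ℝ) / p)| := abs_sum_le_sum_abs _ _
      _ ≤ ∑ _h ∈ H, (H.card : ℝ) ^ T.card := sum_le_sum hih
      _ = (H.card : ℝ) ^ (T.card + 1) := by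
          rw [sum_const, nsmul_eq_mul, pow_succ]
          ring

theorem crt_count (H T : Finset ℕ) (hT : ∀ p ∈ T, p.Prime) (hHT : ∀ p ∈ T, ∀ h ∈ H, h < p)
    (x : ℕ) :
    |∑ n ∈ Icc 1 x, ∏ p ∈ T, (if ∃ h ∈ H, p ∣ n + h then (1:ℝ) else 0) -
      x * ∏ p ∈ T, ((H.card : ℝ) / p)| ≤ (H.card : ℝ) ^ T.card := by
  have h := gen_count H x T hT hHT 1 0 one_pos (fun p _ => Nat.coprime_one_left p)
  have h1 : ∀ n : ℕ, n ≡ 0 [MOD 1] := fun n => Nat.modEq_one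
  simp only [h1, if_true, one_mul, Nat.cast_one, div_one] at h
  exact h

end Pool.Agent.Lib.P4a7640D
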