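import Mathlib
import Pool.Agent.Lib.P4a7640D.Base

/-!
# The number of subsets below the level

Module P4a7640D.Level.

`be p = Nat.log 2 (Nat.log 2 p)`, so `p < 2 ^ (2 ^ (be p + 1))`.  Let `T` be one of the sets in the
sum and `Q = ∏ p ∈ T, p`.  Grouping the primes of `T` by the value `j` of `be`,
`Q ≤ ∏ j < J, (2 ^ 2 ^ (j+1)) ^ (R + (J-1-j) + 1) = 2 ^ (∑ j < J, 2^(j+1) * (R + (J-1-j) + 1))
  ≤ 2 ^ (2 ^ (J+1) * (R+2))`
(indeed `∑ j < J, 2^(j+1) * (R + (J-1-j) + 1) ≤ 2^(J+1) * (R+2)`: by induction on `J`, or more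
precisely it equals `2^(J+1)*(R+2) - 2*(R+2) - 2*J`; prove the bound with the extra terms moved to
the left).  Hence `Q ^ 2 ≤ x`.  Since `(2m)^2 ≤ p` for `p ∈ T`, `(2m)^|T| ≤ Q^(1/2)`.
The map `T ↦ ∏ p ∈ T, p` is injective on sets of primes (`Nat.primeFactors` recovers `T`:
`Nat.primeFactors_prod`), and its values lie in `Icc 1 L` with `L ^ 2 ≤ x`; the sum is at most
`L * L^(1/2) = L^(3/2) ≤ x^(3/4)`.
-/

open Finset

namespace Pool.Agent.Lib.P4a7640D
namespace LevelAux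

theorem geom2 (J : ℕ) : ∑ j ∈ range J, 2 ^ (j + 1) + 2 = 2 ^ (J + 1) := by
  induction J with
  | zero => simp
  | succ J ih =>
    rw [Finset.sum_range_succ, pow_succ 2 (J + 1)]
    omega

theorem expo_eq (R J : ℕ) :
    ∑ j ∈ range J, 2 ^ (j + 1) * (R + (J - 1 - j) + 1) + (2 * (R + 2) + 2 * J)
      = 2 ^ (J + 1) * (R + 2) := by
  induction J with
  | zero => simp
  | succ J ih =>
    rw [Finset.sum_range_succ]
    have h1 : ∑ j ∈ range J, 2 ^ (j + 1) * (R + (J + 1 - 1 - j) + 1)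
        = ∑ j ∈ range J, 2 ^ (j + 1) * (R + (J - 1 - j) + 1) + ∑ j ∈ range J, 2 ^ (j + 1) := by
      rw [← Finset.sum_add_distrib]
      refine Finset.sum_congr rfl fun j hj => ?_
      have hj' := Finset.mem_range.1 hj
      have : J + 1 - 1 - j = (J - 1 - j) + 1 := by omega
      rw [this]
      ring
    rw [h1]
    have h2 := geom2 J
    have h3 : J + 1 - 1 - J = 0 := by omega
    rw [h3, pow_succ 2 (J + 1)]
    generalize ∑ j ∈ range J, 2 ^ (j + 1) = a at *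
    generalize ∑ j ∈ range J, 2 ^ (j + 1) * (R + (J - 1 - j) + 1) = b at *
    nlinarith

theorem expo_le (R J : ℕ) :
    ∑ j ∈ range J, 2 ^ (j + 1) * (R + (J - 1 - j) + 1) ≤ 2 ^ (J + 1) * (R + 2) := by
  have := expo_eq R J
  omega

theorem lt_be (p : ℕ) : p < 2 ^ (2 ^ (be p + 1)) := by
  have h1 : p < 2 ^ (Nat.log 2 p + 1) := Nat.lt_pow_succ_log_self (by norm_num) p
  have h2 : Nat.log 2 p < 2 ^ (Nat.log 2 (Nat.log 2 p) + 1) :=
    Nat.lt_pow_succ_log_self (by norm_num) _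
  exact lt_of_lt_of_le h1 (Nat.pow_le_pow_right (by norm_num) h2)

theorem prod_bound {T : Finset ℕ} {R J : ℕ} (hJ : ∀ p ∈ T, be p < J)
    (hT : ∀ j < J, (T.filter fun p => be p = j).card ≤ R + (J - 1 - j) + 1) :
    ∏ p ∈ T, p ≤ 2 ^ (2 ^ (J + 1) * (R + 2)) := by
  have h1 : ∏ p ∈ T, p = ∏ j ∈ range J, ∏ p ∈ T with be p = j, p :=
    (Finset.prod_fiberwise_of_maps_to (fun p hp => Finset.mem_range.2 (hJ p hp)) _).symm
  rw [h1]
  calc ∏ j ∈ range J, ∏ p ∈ T with be p = j, p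
      ≤ ∏ j ∈ range J, 2 ^ (2 ^ (j + 1) * (R + (J - 1 - j) + 1)) := by
        refine Finset.prod_le_prod' fun j hj => ?_
        calc ∏ p ∈ T with be p = j, p
            ≤ ∏ p ∈ T with be p = j, 2 ^ (2 ^ (j + 1)) := by
              refine Finset.prod_le_prod' fun p hp => ?_
              have := lt_be p
              rw [(Finset.mem_filter.1 hp).2] at this
              exact this.le
          _ = (2 ^ (2 ^ (j + 1))) ^ (T.filter fun p => be p = j).card := by
              rw [Finset.prod_const]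
          _ ≤ (2 ^ (2 ^ (j + 1))) ^ (R + (J - 1 - j) + 1) :=
              Nat.pow_le_pow_right (by positivity) (hT j (Finset.mem_range.1 hj))
          _ = 2 ^ (2 ^ (j + 1) * (R + (J - 1 - j) + 1)) := by rw [← pow_mul]
    _ = 2 ^ (∑ j ∈ range J, 2 ^ (j + 1) * (R + (J - 1 - j) + 1)) := by
        rw [Finset.prod_pow_eq_pow_sum]
    _ ≤ 2 ^ (2 ^ (J + 1) * (R + 2)) := Nat.pow_le_pow_right (by norm_num) (expo_le R J)

end LevelAux

open LevelAux in
theorem level (m : ℕ) (D : Finset ℕ) (J R x : ℕ) (hp : ∀ p ∈ D, p.Prime)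
    (hm : ∀ p ∈ D, (2 * m) ^ 2 ≤ p) (hJ : ∀ p ∈ D, be p < J)
    (hx : 2 ^ (2 ^ (J + 2) * (R + 2)) ≤ x) :
    ∑ T ∈ D.powerset.filter
        (fun T => ∀ j < J, (T.filter fun p => be p = j).card ≤ R + (J - 1 - j) + 1),
      (2 * (m : ℝ)) ^ T.card ≤ (x : ℝ) ^ ((3:ℝ) / 4) := by
  set F := D.powerset.filter
        (fun T => ∀ j < J, (T.filter fun p => be p = j).card ≤ R + (J - 1 - j) + 1) with hF
  set L : ℕ := 2 ^ (2 ^ (J + 1) * (R + 2)) with hL
  have hLx : L ^ 2 ≤ x := by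
    refine le_trans (le_of_eq ?_) hx
    rw [hL, ← pow_mul, pow_succ 2 (J + 1)]
    congr 1
    ring
  have hFT : ∀ T ∈ F, T ⊆ D ∧ ∏ p ∈ T, p ≤ L := by
    intro T hT
    obtain ⟨h1, h2⟩ := Finset.mem_filter.1 hT
    have h3 := Finset.mem_powerset.1 h1
    exact ⟨h3, prod_bound (fun p hp' => hJ p (h3 hp')) h2⟩
  have hcard : F.card ≤ L := by
    have : F.card ≤ (Finset.Icc 1 L).card := by
      refine Finset.card_le_card_of_injOn (fun T => ∏ p ∈ T, p) ?_ ?_
      · intro T hT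
        obtain ⟨h1, h2⟩ := hFT T hT
        simp only [Finset.coe_Icc, Set.mem_Icc]
        refine ⟨?_, h2⟩
        exact Nat.one_le_iff_ne_zero.2 (Finset.prod_ne_zero_iff.2 fun p hp' =>
          (hp p (h1 hp')).ne_zero)
      · intro T hT T' hT' h
        have h1 := (hFT T hT).1
        have h2 := (hFT T' hT').1
        have e1 := Nat.primeFactors_prod (s := T) (fun p hp' => hp p (h1 hp'))
        have e2 := Nat.primeFactors_prod (s := T') (fun p hp' => hp p (h2 hp'))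
        rw [← e1, ← e2]
        exact congrArg Nat.primeFactors h
    simpa using this
  have hL0 : (0:ℝ) < L := by
    rw [hL]; positivity
  have hterm : ∀ T ∈ F, (2 * (m : ℝ)) ^ T.card ≤ Real.sqrt L := by
    intro T hT
    obtain ⟨h1, h2⟩ := hFT T hT
    apply Real.le_sqrt_of_sq_le
    have h3 : ((2 * m) ^ T.card) ^ 2 ≤ ∏ p ∈ T, p := by
      rw [← pow_mul, mul_comm T.card 2, pow_mul, ← Finset.prod_const]
      exact Finset.prod_le_prod' fun p hp' => hm p (h1 hp')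
    have h4 : ((2 * m) ^ T.card) ^ 2 ≤ L := h3.trans h2
    exact_mod_cast h4
  calc ∑ T ∈ F, (2 * (m : ℝ)) ^ T.card ≤ ∑ T ∈ F, Real.sqrt L := Finset.sum_le_sum hterm
    _ = F.card * Real.sqrt L := by rw [Finset.sum_const, nsmul_eq_mul]
    _ ≤ L * Real.sqrt L := by
        apply mul_le_mul_of_nonneg_right _ (Real.sqrt_nonneg _)
        exact_mod_cast hcard
    _ = ((L : ℝ) ^ (2:ℕ)) ^ ((3:ℝ) / 4) := by
        rw [Real.sqrt_eq_rpow, ← Real.rpow_natCast (L : ℝ) 2, ← Real.rpow_mul hL0.le]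
        conv_lhs => rw [← Real.rpow_one (L:ℝ)]
        rw [← Real.rpow_mul hL0.le, ← Real.rpow_add hL0]
        norm_num
    _ ≤ (x : ℝ) ^ ((3:ℝ) / 4) := by
        apply Real.rpow_le_rpow (by positivity) _ (by norm_num)
        exact_mod_cast hLx

end Pool.Agent.Lib.P4a7640D
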