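import Mathlib
import Pool.Agent.Lib.P4a7640D.Expand
import Pool.Agent.Lib.P4a7640D.Crt
import Pool.Agent.Lib.P4a7640D.Level

/-!
# Mean values of products of block polynomials

Module P4a7640D.MeanBlocks.  (`esy_ind`, `prod_blocks`, `crt_count`, `level` are black boxes.)

Let `R_j = R + (J-1-j) + 1` and `φ' j r = if r ≤ R_j then φ j r else 0`; replacing `φ` by `φ'` does
not change either side of the claim (the sums run over `r < R_j + 1`), and `φ' j r = 0` for
`R_j < r`.  For fixed `n` let `w p = if ∃ h ∈ H, p ∣ n + h then 1 else 0`.  By `esy_ind`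
(with `KK` unfolded) and `prod_blocks` the integrand equals
`∑ T ∈ D.powerset, c T * ∏ p ∈ T, w p`, with `c T = ∏ j ∈ range J, φ' j (T.filter (be · = j)).card`.
The second product equals `∑ T ∈ D.powerset, c T * ∏ p ∈ T, (H.card / p)` by `prod_blocks`.
Exchange the sums over `n` and `T`; by `crt_count` the difference is at most
`∑ T ∈ D.powerset, |c T| * H.card ^ T.card`.  Now `c T = 0` unless all
`(T.filter (be · = j)).card ≤ R_j`, and otherwise `|c T| ≤ ∏ j 2 ^ (T.filter ..).card = 2 ^ T.card`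
(`Finset.card_eq_sum_card_fiberwise`, `Finset.prod_pow_eq_pow_sum`).  Finish with `level`.
-/

open Finset

namespace Pool.Agent.Lib.P4a7640D

theorem mean_blocks (H D : Finset ℕ) (J R x : ℕ)
    (hD : ∀ p ∈ D, p.Prime ∧ (∀ h ∈ H, h < p) ∧ (2 * H.card) ^ 2 ≤ p ∧ be p < J)
    (hx : 2 ^ (2 ^ (J + 2) * (R + 2)) ≤ x) (φ : ℕ → ℕ → ℝ) (hφ : ∀ j r, |φ j r| ≤ 2 ^ r) :
    |∑ n ∈ Icc 1 x, ∏ j ∈ range J, (∑ r ∈ range (R + (J - 1 - j) + 2),
        φ j r * ((KK H (D.filter fun p => be p = j) n).choose r : ℝ)) -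
      x * ∏ j ∈ range J, (∑ r ∈ range (R + (J - 1 - j) + 2),
        φ j r * esy (fun p => (H.card : ℝ) / p) (D.filter fun p => be p = j) r)| ≤
      (x : ℝ) ^ ((3:ℝ) / 4) := by
  classical
  set m := H.card with hm
  set Rj : ℕ → ℕ := fun j => R + (J - 1 - j) + 1 with hRj
  set φ' : ℕ → ℕ → ℝ := fun j r => if r ≤ Rj j then φ j r else 0 with hφ'def
  have hφ' : ∀ j r, Rj j < r → φ' j r = 0 := by
    intro j r hr
    show (if r ≤ Rj j then φ j r else 0) = 0
    rw [if_neg (by omega)]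
  set c : Finset ℕ → ℝ := fun T => ∏ j ∈ range J, φ' j (T.filter fun p => be p = j).card with hc
  have e1 : ∀ w : ℕ → ℝ, ∏ j ∈ range J, (∑ r ∈ range (R + (J - 1 - j) + 2),
      φ j r * esy w (D.filter fun p => be p = j) r) =
      ∑ T ∈ D.powerset, c T * ∏ p ∈ T, w p := by
    intro w
    rw [← prod_blocks w be D J (fun p hp => (hD p hp).2.2.2) Rj φ' hφ']
    refine prod_congr rfl fun j _ => ?_
    have h1 : R + (J - 1 - j) + 2 = Rj j + 1 := rfl
    rw [h1]
    refine sum_congr rfl fun r hr => ?_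
    have h2 : r ≤ Rj j := by
      have := mem_range.1 hr
      omega
    show φ j r * _ = (if r ≤ Rj j then φ j r else 0) * _
    rw [if_pos h2]
  have e2 : ∀ n : ℕ, ∏ j ∈ range J, (∑ r ∈ range (R + (J - 1 - j) + 2),
      φ j r * ((KK H (D.filter fun p => be p = j) n).choose r : ℝ)) =
      ∑ T ∈ D.powerset, c T * ∏ p ∈ T, (if ∃ h ∈ H, p ∣ n + h then (1:ℝ) else 0) := by
    intro n
    rw [← e1]
    refine prod_congr rfl fun j _ => sum_congr rfl fun r _ => ?_
    rw [esy_ind]
    rfl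
  have e3 : ∑ n ∈ Icc 1 x, ∏ j ∈ range J, (∑ r ∈ range (R + (J - 1 - j) + 2),
        φ j r * ((KK H (D.filter fun p => be p = j) n).choose r : ℝ)) -
      x * ∏ j ∈ range J, (∑ r ∈ range (R + (J - 1 - j) + 2),
        φ j r * esy (fun p => (m : ℝ) / p) (D.filter fun p => be p = j) r) =
      ∑ T ∈ D.powerset, c T * (∑ n ∈ Icc 1 x,
        ∏ p ∈ T, (if ∃ h ∈ H, p ∣ n + h then (1:ℝ) else 0) - x * ∏ p ∈ T, ((m : ℝ) / p)) := by
    rw [e1, sum_congr rfl fun n _ => e2 n, sum_comm, mul_sum, ← sum_sub_distrib]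
    refine sum_congr rfl fun T _ => ?_
    rw [← mul_sum]
    ring
  rw [e3]
  have hb : ∀ T ∈ D.powerset, |c T * (∑ n ∈ Icc 1 x,
        ∏ p ∈ T, (if ∃ h ∈ H, p ∣ n + h then (1:ℝ) else 0) - x * ∏ p ∈ T, ((m : ℝ) / p))| ≤
      |c T| * (m : ℝ) ^ T.card := by
    intro T hT
    rw [mem_powerset] at hT
    rw [abs_mul]
    refine mul_le_mul_of_nonneg_left ?_ (abs_nonneg _)
    exact crt_count H T (fun p hp => (hD p (hT hp)).1) (fun p hp => (hD p (hT hp)).2.1) x
  refine (abs_sum_le_sum_abs _ _).trans ((sum_le_sum hb).trans ?_)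
  have hlev := level m D J R x (fun p hp => (hD p hp).1) (fun p hp => (hD p hp).2.2.1)
    (fun p hp => (hD p hp).2.2.2) hx
  refine le_trans ?_ hlev
  rw [sum_filter]
  refine sum_le_sum fun T hT => ?_
  rw [mem_powerset] at hT
  by_cases hc' : ∀ j < J, (T.filter fun p => be p = j).card ≤ R + (J - 1 - j) + 1
  · rw [if_pos hc', mul_pow]
    refine mul_le_mul_of_nonneg_right ?_ (by positivity)
    have h1 : |c T| ≤ ∏ j ∈ range J, (2:ℝ) ^ (T.filter fun p => be p = j).card := by
      show |∏ j ∈ range J, φ' j (T.filter fun p => be p = j).card| ≤ _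
      rw [abs_prod]
      refine prod_le_prod (fun j _ => abs_nonneg _) fun j _ => ?_
      show |(if (T.filter fun p => be p = j).card ≤ Rj j then
        φ j (T.filter fun p => be p = j).card else 0)| ≤ _
      split_ifs
      · exact hφ _ _
      · rw [abs_zero]
        positivity
    refine h1.trans (le_of_eq ?_)
    rw [prod_pow_eq_pow_sum]
    congr 1
    symm
    exact card_eq_sum_card_fiberwise fun p hp => by
      have := (hD p (hT hp)).2.2.2
      simpa using this
  · rw [if_neg hc']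
    push Not at hc'
    obtain ⟨j, hj, hj2⟩ := hc'
    have h0 : c T = 0 := by
      show ∏ j ∈ range J, φ' j (T.filter fun p => be p = j).card = 0
      exact prod_eq_zero (mem_range.2 hj) (hφ' j _ hj2)
    rw [h0, abs_zero, zero_mul]

end Pool.Agent.Lib.P4a7640D
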