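import Mathlib
import Pool.Agent.Lib.P4a7640D.MeanBlocks
import Pool.Agent.Lib.P4a7640D.MainTerm
import Pool.Agent.Lib.P4a7640D.BlockMass

/-!
# The sieve bound (Brun-Hooley)

Module P4a7640D.Sieve.  (`trunc`, `prod_telescope`, `mean_blocks`, `main_term`, `block_mass` are
black boxes.)

Let `m = H.card ≥ 1`, `C₁` the constant of `block_mass`, `C = 2 m C₁`, `R` from
`main_term C (η/4)`, and `z` larger than all elements of `H`, than `(2m)^2`, and so large that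
`2 x^(3/4) ≤ x η/4` for all real `x ≥ z`.  If `D = ∅` the claim is trivial (`|uu| ≤ 1`, `exp 0 = 1`).
Otherwise `x ≥ 2^(2^J) > p ≥ z` for a `p ∈ D` (`be p < J`).
Write `K_j = KK H (D.filter (be · = j)) n`, `R_j = R + (J-1-j)`.  Then `KK H D n = ∑ j < J, K_j`
and `uu H D n = ∏ j < J, (-1)^K_j`.  By `trunc` and `prod_telescope`
`|uu H D n - ∏ j, tr R_j K_j| ≤ ∏ j, (1 + er R_j K_j) - 1`.
Sum over `n ∈ Icc 1 x` and apply `mean_blocks` to `φ j r = if r ≤ R_j then (-2)^r else 0` and to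
`φ j r = if r = 0 then 1 else if r = R_j + 1 then 2^r else 0`; the main terms are bounded by
`main_term` (note `esy w D_j 0 = 1`).  Total:
`|∑ uu| ≤ x (exp(-2m ∑ 1/p) + η/4) + x η/4 + 2 x^(3/4)`.
-/

open Finset

namespace Pool.Agent.Lib.P4a7640D

namespace SieveAux

lemma KK_split (H D : Finset ℕ) (J n : ℕ) (hD : ∀ p ∈ D, be p < J) :
    KK H D n = ∑ j ∈ range J, KK H (D.filter fun p => be p = j) n := by
  unfold KK
  rw [card_eq_sum_card_fiberwise (f := be) (t := range J)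
    (fun p hp => by
      have := hD p (mem_filter.1 hp).1
      simpa using this)]
  refine sum_congr rfl fun j _ => ?_
  rw [filter_comm]

lemma uu_split (H D : Finset ℕ) (J n : ℕ) (hD : ∀ p ∈ D, be p < J) :
    uu H D n = ∏ j ∈ range J, (-1:ℝ) ^ KK H (D.filter fun p => be p = j) n := by
  unfold uu
  rw [KK_split H D J n hD, prod_pow_eq_pow_sum]

lemma esy_zero (w : ℕ → ℝ) (D : Finset ℕ) : esy w D 0 = 1 := by
  unfold esy
  simp

/-- the coefficients of the truncation -/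
noncomputable def ph (N : ℕ) (r : ℕ) : ℝ := if r ≤ N then (-2:ℝ) ^ r else 0

/-- the coefficients of the error term -/
noncomputable def ps (N : ℕ) (r : ℕ) : ℝ := if r = 0 then 1 else if r = N + 1 then (2:ℝ) ^ r else 0

lemma abs_ph (N r : ℕ) : |ph N r| ≤ 2 ^ r := by
  unfold ph
  split_ifs
  · rw [abs_pow, abs_neg, abs_two]
  · rw [abs_zero]; positivity

lemma abs_ps (N r : ℕ) : |ps N r| ≤ 2 ^ r := by
  unfold ps
  split_ifs with h1 h2
  · rw [h1]; simp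
  · rw [abs_of_nonneg (by positivity)]
  · rw [abs_zero]; positivity

lemma sum_ph (N : ℕ) (f : ℕ → ℝ) :
    ∑ r ∈ range (N + 2), ph N r * f r = ∑ r ∈ range (N + 1), (-2:ℝ) ^ r * f r := by
  rw [sum_range_succ]
  have h1 : ph N (N + 1) = 0 := by
    unfold ph
    rw [if_neg (by omega)]
  rw [h1, zero_mul, add_zero]
  refine sum_congr rfl fun r hr => ?_
  have : r ≤ N := by
    have := mem_range.1 hr
    omega
  unfold ph
  rw [if_pos this]

lemma sum_ps (N : ℕ) (f : ℕ → ℝ) :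
    ∑ r ∈ range (N + 2), ps N r * f r = f 0 + 2 ^ (N + 1) * f (N + 1) := by
  rw [sum_range_succ, sum_range_succ']
  have h1 : ∑ k ∈ range N, ps N (k + 1) * f (k + 1) = 0 := by
    refine sum_eq_zero fun k hk => ?_
    have : k < N := mem_range.1 hk
    unfold ps
    rw [if_neg (by omega), if_neg (by omega), zero_mul]
  have h2 : ps N 0 = 1 := by
    unfold ps
    rw [if_pos rfl]
  have h3 : ps N (N + 1) = 2 ^ (N + 1) := by
    unfold ps
    rw [if_neg (by omega), if_pos rfl]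
  rw [h1, h2, h3, zero_add, one_mul]

lemma er_nonneg (N K : ℕ) : 0 ≤ er N K := by
  unfold er
  positivity

lemma rpow_small {η x : ℝ} (hη : 0 < η) (hx : (8 / η) ^ 4 ≤ x) :
    2 * x ^ ((3:ℝ) / 4) ≤ x * (η / 4) := by
  have h0 : 0 < 8 / η := by positivity
  have hx0 : 0 < x := lt_of_lt_of_le (by positivity) hx
  have h1 : 8 / η ≤ x ^ ((1:ℝ) / 4) := by
    have h2 : ((8 / η) ^ 4) ^ ((1:ℝ) / 4) = 8 / η := by
      rw [← Real.rpow_natCast, ← Real.rpow_mul h0.le]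
      norm_num
    rw [← h2]
    exact Real.rpow_le_rpow (by positivity) hx (by norm_num)
  have h3 : x ^ ((3:ℝ) / 4) * x ^ ((1:ℝ) / 4) = x := by
    rw [← Real.rpow_add hx0]
    norm_num
  have h4 : x ^ ((3:ℝ) / 4) * (8 / η) ≤ x := by
    calc x ^ ((3:ℝ) / 4) * (8 / η) ≤ x ^ ((3:ℝ) / 4) * x ^ ((1:ℝ) / 4) :=
          mul_le_mul_of_nonneg_left h1 (by positivity)
      _ = x := h3
  rw [mul_div_assoc', div_le_iff₀ hη] at h4
  linarith

end SieveAux

open SieveAux in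
theorem sieve (H : Finset ℕ) (hne : H.Nonempty) (η : ℝ) (hη : 0 < η) :
    ∃ z R : ℕ, ∀ (D : Finset ℕ) (J x : ℕ), (∀ p ∈ D, p.Prime ∧ z ≤ p ∧ be p < J) →
      2 ^ (2 ^ (J + 2) * (R + 2)) ≤ x →
      |∑ n ∈ Icc 1 x, uu H D n| ≤
        x * (Real.exp (-(2 * H.card * ∑ p ∈ D, (1:ℝ) / p)) + η) := by
  classical
  obtain ⟨C₁, hC₁, hmass⟩ := block_mass
  set m := H.card with hm
  have hm1 : 1 ≤ m := Finset.card_pos.2 hne
  have hmR : (1:ℝ) ≤ m := by exact_mod_cast hm1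
  obtain ⟨R, hR⟩ := main_term (2 * m * C₁) (η / 4) (by positivity) (by positivity)
  refine ⟨H.sup id + 1 + (2 * m) ^ 2 + ⌈(8 / η) ^ 4⌉₊, R, fun D J x hD hx => ?_⟩
  have hsumexp : 2 * (m:ℝ) * ∑ p ∈ D, (1:ℝ) / p = 2 * ∑ p ∈ D, (m:ℝ) / p := by
    rw [mul_assoc, mul_sum]
    congr 1
    refine sum_congr rfl fun p _ => ?_
    ring
  rcases D.eq_empty_or_nonempty with rfl | ⟨p₀, hp₀⟩
  · have h1 : ∀ n, uu H ∅ n = 1 := by
      intro n
      unfold uu KK
      simp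
    have h2 : ∑ n ∈ Icc 1 x, uu H ∅ n = x := by
      rw [sum_congr rfl fun n _ => h1 n]
      simp
    rw [h2, sum_empty, mul_zero, neg_zero, Real.exp_zero, abs_of_nonneg (Nat.cast_nonneg x)]
    have : (0:ℝ) ≤ x * η := by positivity
    linarith
  have hbe : ∀ p ∈ D, be p < J := fun p hp => (hD p hp).2.2
  have hzx : H.sup id + 1 + (2 * m) ^ 2 + ⌈(8 / η) ^ 4⌉₊ ≤ x := by
    obtain ⟨hp1, hp2, hp3⟩ := hD p₀ hp₀
    refine hp2.trans ?_
    have h1 : Nat.log 2 p₀ < 2 ^ J := by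
      have h2 : Nat.log 2 (Nat.log 2 p₀) < J := hp3
      exact Nat.lt_pow_of_log_lt (by norm_num) h2
    have h2 : p₀ < 2 ^ (2 ^ J) := Nat.lt_pow_of_log_lt (by norm_num) h1
    refine (h2.le.trans ?_).trans hx
    refine Nat.pow_le_pow_right (by norm_num) ?_
    calc 2 ^ J = 2 ^ J * 1 := (mul_one _).symm
      _ ≤ 2 ^ (J + 2) * (R + 2) :=
          Nat.mul_le_mul (Nat.pow_le_pow_right (by norm_num) (by omega)) (by omega)
  have hx4 : (8 / η) ^ 4 ≤ (x:ℝ) := by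
    refine (Nat.le_ceil _).trans ?_
    have h1 : ⌈(8 / η) ^ 4⌉₊ ≤ x := by omega
    exact_mod_cast h1
  have hsmall := rpow_small hη hx4
  have hDm : ∀ p ∈ D, p.Prime ∧ (∀ h ∈ H, h < p) ∧ (2 * H.card) ^ 2 ≤ p ∧ be p < J := by
    intro p hp
    obtain ⟨hp1, hp2, hp3⟩ := hD p hp
    refine ⟨hp1, fun h hh => ?_, ?_, hp3⟩
    · have h1 : h ≤ H.sup id := Finset.le_sup (f := id) hh
      omega
    · rw [← hm]
      omega
  have hmain := hR m D be J (fun p hp => by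
      obtain ⟨hp1, _, hp3, _⟩ := hDm p hp
      rw [← hm] at hp3
      refine ⟨hp1.pos, ?_⟩
      nlinarith) hbe (fun j _ => by
      have h1 := hmass j (D.filter fun p => be p = j) (fun p hp => by
        rw [mem_filter] at hp
        exact ⟨(hD p hp.1).1, hp.2⟩)
      have h2 : ∑ p ∈ D.filter (fun p => be p = j), (m:ℝ) / p =
          m * ∑ p ∈ D.filter (fun p => be p = j), (1:ℝ) / p := by
        rw [mul_sum]
        refine sum_congr rfl fun p _ => ?_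
        ring
      rw [h2]
      calc 2 * ((m:ℝ) * ∑ p ∈ D.filter (fun p => be p = j), (1:ℝ) / p) ≤ 2 * (m * C₁) := by
            gcongr
        _ = 2 * m * C₁ := by ring)
  obtain ⟨hm1', hm2'⟩ := hmain
  -- the two applications of `mean_blocks`
  have hA := mean_blocks H D J R x hDm hx (fun j r => ph (R + (J - 1 - j)) r)
    (fun j r => abs_ph _ r)
  have hB := mean_blocks H D J R x hDm hx (fun j r => ps (R + (J - 1 - j)) r)
    (fun j r => abs_ps _ r)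
  simp only [sum_ph, sum_ps, Nat.choose_zero_right, Nat.cast_one, esy_zero, ← hm] at hA hB
  set K : ℕ → ℕ → ℕ := fun j n => KK H (D.filter fun p => be p = j) n with hK
  have hA' : |∑ n ∈ Icc 1 x, ∏ j ∈ range J, tr (R + (J - 1 - j)) (K j n) -
      x * ∏ j ∈ range J, (∑ r ∈ range (R + (J - 1 - j) + 1),
        (-2:ℝ) ^ r * esy (fun p => (m : ℝ) / p) (D.filter fun p => be p = j) r)| ≤
      (x:ℝ) ^ ((3:ℝ) / 4) := hA
  have hB' : |∑ n ∈ Icc 1 x, ∏ j ∈ range J, (1 + er (R + (J - 1 - j)) (K j n)) -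
      x * ∏ j ∈ range J, (1 + 2 ^ (R + (J - 1 - j) + 1) *
        esy (fun p => (m : ℝ) / p) (D.filter fun p => be p = j) (R + (J - 1 - j) + 1))| ≤
      (x:ℝ) ^ ((3:ℝ) / 4) := hB
  set T1 := ∏ j ∈ range J, (∑ r ∈ range (R + (J - 1 - j) + 1),
        (-2:ℝ) ^ r * esy (fun p => (m : ℝ) / p) (D.filter fun p => be p = j) r) with hT1
  set T2 := ∏ j ∈ range J, (1 + 2 ^ (R + (J - 1 - j) + 1) *
        esy (fun p => (m : ℝ) / p) (D.filter fun p => be p = j) (R + (J - 1 - j) + 1)) with hT2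
  have htel : |∑ n ∈ Icc 1 x, uu H D n -
      ∑ n ∈ Icc 1 x, ∏ j ∈ range J, tr (R + (J - 1 - j)) (K j n)| ≤
      ∑ n ∈ Icc 1 x, ∏ j ∈ range J, (1 + er (R + (J - 1 - j)) (K j n)) - x := by
    rw [← sum_sub_distrib]
    refine (abs_sum_le_sum_abs _ _).trans ?_
    have h1 : ∑ n ∈ Icc 1 x, ∏ j ∈ range J, (1 + er (R + (J - 1 - j)) (K j n)) - x =
        ∑ n ∈ Icc 1 x, (∏ j ∈ range J, (1 + er (R + (J - 1 - j)) (K j n)) - 1) := by
      rw [sum_sub_distrib]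
      simp
    rw [h1]
    refine sum_le_sum fun n _ => ?_
    rw [uu_split H D J n hbe]
    exact prod_telescope (range J) (fun j => (-1:ℝ) ^ K j n)
      (fun j => tr (R + (J - 1 - j)) (K j n)) (fun j => er (R + (J - 1 - j)) (K j n))
      (fun j _ => by rw [abs_pow, abs_neg, abs_one, one_pow])
      (fun j _ => trunc _ _)
  have hxR : (0:ℝ) ≤ x := Nat.cast_nonneg x
  have k1 : |∑ n ∈ Icc 1 x, ∏ j ∈ range J, tr (R + (J - 1 - j)) (K j n)| ≤
      x * |T1| + (x:ℝ) ^ ((3:ℝ) / 4) := by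
    have h1 := abs_sub_abs_le_abs_sub (∑ n ∈ Icc 1 x, ∏ j ∈ range J,
      tr (R + (J - 1 - j)) (K j n)) (x * T1)
    rw [abs_mul, abs_of_nonneg hxR] at h1
    linarith
  have k2 : ∑ n ∈ Icc 1 x, ∏ j ∈ range J, (1 + er (R + (J - 1 - j)) (K j n)) ≤
      x * T2 + (x:ℝ) ^ ((3:ℝ) / 4) := by
    have h1 := (abs_le.1 hB').2
    linarith
  have k3 : x * |T1| ≤ x * (Real.exp (-(2 * ∑ p ∈ D, (m : ℝ) / p)) + η / 4) :=
    mul_le_mul_of_nonneg_left hm1' hxR
  have k4 : x * T2 - x ≤ x * (η / 4) := by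
    have h1 : x * T2 - x = x * (T2 - 1) := by ring
    rw [h1]
    exact mul_le_mul_of_nonneg_left hm2' hxR
  have k5 := abs_sub_abs_le_abs_sub (∑ n ∈ Icc 1 x, uu H D n)
    (∑ n ∈ Icc 1 x, ∏ j ∈ range J, tr (R + (J - 1 - j)) (K j n))
  rw [hsumexp]
  have k6 : x * (Real.exp (-(2 * ∑ p ∈ D, (m : ℝ) / p)) + η / 4) + x * (η / 4) + x * (η / 4) ≤
      x * (Real.exp (-(2 * ∑ p ∈ D, (m : ℝ) / p)) + η) := by
    have h1 : 0 ≤ x * (η / 4) := by positivity
    have h2 : x * (Real.exp (-(2 * ∑ p ∈ D, (m : ℝ) / p)) + η / 4) + x * (η / 4) + x * (η / 4) +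
        x * (η / 4) = x * (Real.exp (-(2 * ∑ p ∈ D, (m : ℝ) / p)) + η) := by ring
    linarith
  linarith

end Pool.Agent.Lib.P4a7640D
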