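import Mathlib
import Pool.Agent.Lib.P4a7640D.Sieve

/-!
# The sieve bound for logarithmic averages

Module P4a7640D.LogSieve.  (`sieve` is a black box.)

Take `sieve H hne (η/8)`: constants `z, R`.  Let `θ = η/8`, choose `c` with `8 (R+2) / 2^c ≤ θ`
and `A` with `0 < A`, `exp(-2 A) ≤ η/8`.  Given `N` large and `D`; put `l = Nat.log 2 N`,
`b = Nat.log 2 l`.  `D` is nonempty since `A > 0`, and for `p ∈ D`, with `a = Nat.log 2 p ≥ 1`,
`2^(a 2^c) ≤ p^(2^c) ≤ N` gives `a 2^c ≤ l < 2^(b+1)`; so `c ≤ b` and `be p = Nat.log 2 a < J`,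
`J := b + 1 - c`.  Moreover `2^(J+2) (R+2) 2^c = 2^(b+3) (R+2) ≤ 8 (R+2) l ≤ θ l 2^c`, so
`2^(2^(J+2)(R+2)) ≤ 2^(θ l) ≤ N^θ`.  Hence for every `x` with `N^θ ≤ x ≤ N` the sieve bound gives
`|S(x)| ≤ x η/4`, where `S(x) = ∑ n ∈ Icc 1 x, uu H D n`, and `|S(x)| ≤ x` always.
Abel summation: `∑ n ∈ Icc 1 N, uu n / n = S(N)/N + ∑ n ∈ Ico 1 N, S(n) (1/n - 1/(n+1))`, so
`|∑ uu n / n| ≤ 1 + ∑ n ≤ N^θ, 1/(n+1) + (η/4) ∑ n ≤ N, 1/(n+1) ≤ 2 + θ log N + (η/4)(1 + log N)`,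
which is `≤ η log N` for `N` large (`log N ≥ 8/η + 8` suffices).  The library has
`Pool.Agent.Lib.P4a7640.sum_inv_le : ∑ k ∈ Icc 1 K, 1/k ≤ 1 + log K`.
`LA a N = (∑ n ∈ Icc 1 N, a n / n) / log N`.
-/

open Finset
open Pool.Agent.Lib.P4a7640

namespace Pool.Agent.Lib.P4a7640D
namespace LogSieveAux

theorem abel (u : ℕ → ℝ) (N : ℕ) :
    ∑ n ∈ Icc 1 N, u n / n = (∑ n ∈ Icc 1 N, u n) / (N + 1) +
      ∑ n ∈ Icc 1 N, (∑ k ∈ Icc 1 n, u k) * (1 / n - 1 / (n + 1)) := by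
  induction N with
  | zero => simp
  | succ N ih =>
    rw [Finset.sum_Icc_succ_top (by omega), Finset.sum_Icc_succ_top (by omega)
      (fun n => (∑ k ∈ Icc 1 n, u k) * (1 / (n : ℝ) - 1 / (n + 1))), ih,
      Finset.sum_Icc_succ_top (by omega) u]
    have h1 : (0:ℝ) < (N:ℝ) + 1 := by positivity
    have h2 : (0:ℝ) < (N:ℝ) + 1 + 1 := by positivity
    push_cast
    field_simp
    ring

theorem abel_le (u : ℕ → ℝ) (N M : ℕ) (e : ℝ) (he : 0 ≤ e)
    (h1 : ∀ n, |∑ k ∈ Icc 1 n, u k| ≤ n)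
    (h2 : ∀ n, M < n → n ≤ N → |∑ k ∈ Icc 1 n, u k| ≤ n * e) :
    |∑ n ∈ Icc 1 N, u n / n| ≤ 1 + (1 + Real.log M) + e * (1 + Real.log N) := by
  rw [abel]
  refine (abs_add_le _ _).trans ?_
  have hA : |(∑ n ∈ Icc 1 N, u n) / (N + 1)| ≤ 1 := by
    rw [abs_div, abs_of_pos (show (0:ℝ) < (N:ℝ) + 1 by positivity), div_le_one (by positivity)]
    have := h1 N
    linarith
  have hB : |∑ n ∈ Icc 1 N, (∑ k ∈ Icc 1 n, u k) * (1 / (n:ℝ) - 1 / (n + 1))| ≤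
      (1 + Real.log M) + e * (1 + Real.log N) := by
    calc |∑ n ∈ Icc 1 N, (∑ k ∈ Icc 1 n, u k) * (1 / (n:ℝ) - 1 / (n + 1))|
        ≤ ∑ n ∈ Icc 1 N, |(∑ k ∈ Icc 1 n, u k) * (1 / (n:ℝ) - 1 / (n + 1))| :=
          Finset.abs_sum_le_sum_abs _ _
      _ ≤ ∑ n ∈ Icc 1 N, ((if n ≤ M then 1 / (n:ℝ) else 0) + e * (1 / (n:ℝ))) := by
          refine Finset.sum_le_sum fun n hn => ?_
          obtain ⟨hn1, hn2⟩ := Finset.mem_Icc.1 hn
          have hn0 : (0:ℝ) < n := by exact_mod_cast hn1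
          have hd : 1 / (n:ℝ) - 1 / (n + 1) = 1 / (n * (n + 1)) := by
            field_simp
            ring
          have hd0 : (0:ℝ) ≤ 1 / (n * (n + 1)) := by positivity
          have hd1 : (n:ℝ) * (1 / (n * (n + 1))) ≤ 1 / n := by
            rw [mul_one_div, div_le_div_iff₀ (by positivity) hn0]
            nlinarith
          rw [hd, abs_mul, abs_of_nonneg hd0]
          by_cases hM : n ≤ M
          · simp only [hM, if_true]
            have h3 : 0 ≤ e * (1 / (n:ℝ)) := by positivity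
            have h4 := mul_le_mul_of_nonneg_right (h1 n) hd0
            linarith
          · simp only [hM, if_false, zero_add]
            have h4 := mul_le_mul_of_nonneg_right (h2 n (by omega) hn2) hd0
            have h5 := mul_le_mul_of_nonneg_left hd1 he
            calc |∑ k ∈ Icc 1 n, u k| * (1 / ((n:ℝ) * (n + 1)))
                ≤ n * e * (1 / (n * (n + 1))) := h4
              _ = e * (n * (1 / (n * (n + 1)))) := by ring
              _ ≤ e * (1 / n) := h5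
      _ = ∑ n ∈ Icc 1 N, (if n ≤ M then 1 / (n:ℝ) else 0) + e * ∑ n ∈ Icc 1 N, 1 / (n:ℝ) := by
          rw [Finset.sum_add_distrib, Finset.mul_sum]
      _ ≤ (1 + Real.log M) + e * (1 + Real.log N) := by
          refine add_le_add ?_ (mul_le_mul_of_nonneg_left (sum_inv_le N) he)
          rw [← Finset.sum_filter]
          refine le_trans (Finset.sum_le_sum_of_subset_of_nonneg (t := Icc 1 M) ?_ ?_) (sum_inv_le M)
          · intro n hn
            obtain ⟨h3, h4⟩ := Finset.mem_filter.1 hn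
            exact Finset.mem_Icc.2 ⟨(Finset.mem_Icc.1 h3).1, h4⟩
          · intro n _ _
            positivity
  linarith

theorem abs_uu (H D : Finset ℕ) (n : ℕ) : |uu H D n| = 1 := by
  unfold uu
  rw [abs_pow, abs_neg, abs_one, one_pow]

end LogSieveAux

open LogSieveAux in
theorem log_sieve (H : Finset ℕ) (hne : H.Nonempty) (η : ℝ) (hη : 0 < η) :
    ∃ (z c N₀ : ℕ) (A : ℝ), 0 < A ∧ ∀ N ≥ N₀, ∀ D : Finset ℕ,
      (∀ p ∈ D, p.Prime ∧ z ≤ p ∧ p ^ (2 ^ c) ≤ N) → A ≤ ∑ p ∈ D, (1:ℝ) / p →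
      |LA (uu H D) N| ≤ η := by
  obtain ⟨z, R, hS⟩ := sieve H hne (η / 8) (by positivity)
  set θ : ℝ := η / 8 with hθ
  have hθ0 : 0 < θ := by positivity
  obtain ⟨c, hc⟩ : ∃ c : ℕ, 8 * ((R:ℝ) + 2) ≤ θ * 2 ^ c := by
    obtain ⟨c, hc⟩ := pow_unbounded_of_one_lt (8 * ((R:ℝ) + 2) / θ) (show (1:ℝ) < 2 by norm_num)
    refine ⟨c, ?_⟩
    rw [div_lt_iff₀ hθ0] at hc
    linarith
  set A : ℝ := 1 + |Real.log (η / 8)| with hA
  have hA0 : 0 < A := by
    have := abs_nonneg (Real.log (η / 8))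
    linarith
  have hexp : Real.exp (-(2 * A)) ≤ η / 8 := by
    calc Real.exp (-(2 * A)) ≤ Real.exp (Real.log (η / 8)) := by
          apply Real.exp_le_exp.2
          have h1 := neg_abs_le (Real.log (η / 8))
          have h2 := abs_nonneg (Real.log (η / 8))
          rw [hA]
          linarith
      _ = η / 8 := Real.exp_log (by positivity)
  obtain ⟨N₀, hN₀⟩ : ∃ N₀ : ℕ, ∀ N ≥ N₀, 4 / η + 1 ≤ Real.log N := by
    have := (Real.tendsto_log_atTop.comp tendsto_natCast_atTop_atTop).eventually_ge_atTop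
      (4 / η + 1)
    exact Filter.eventually_atTop.1 this
  refine ⟨z, c, N₀ + 1, A, hA0, fun N hN D hD hDA => ?_⟩
  have hlog := hN₀ N (by omega)
  have hη4 : 0 < 4 / η := by positivity
  have hlog0 : 0 < Real.log N := by linarith
  have hN1 : 1 ≤ N := by omega
  have hNr : (0:ℝ) < N := by exact_mod_cast hN1
  have hDne : D.Nonempty := by
    rw [Finset.nonempty_iff_ne_empty]
    rintro rfl
    simp at hDA
    linarith
  set l := Nat.log 2 N with hl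
  set b := Nat.log 2 l with hb
  have hpl : ∀ p ∈ D, 1 ≤ Nat.log 2 p ∧ Nat.log 2 p * 2 ^ c ≤ l := by
    intro p hp
    obtain ⟨h1, _, h3⟩ := hD p hp
    refine ⟨Nat.log_pos (by norm_num) h1.two_le, ?_⟩
    rw [hl]
    apply Nat.le_log_of_pow_le (by norm_num)
    refine le_trans ?_ h3
    rw [pow_mul]
    exact Nat.pow_le_pow_left (Nat.pow_log_le_self 2 h1.ne_zero) _
  have hlb : l < 2 ^ (b + 1) := Nat.lt_pow_succ_log_self (by norm_num) l
  have hcb : c ≤ b := by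
    obtain ⟨p, hp⟩ := hDne
    obtain ⟨h1, h2⟩ := hpl p hp
    have h3 : 2 ^ c < 2 ^ (b + 1) := by
      refine lt_of_le_of_lt ?_ hlb
      calc 2 ^ c = 1 * 2 ^ c := by ring
        _ ≤ Nat.log 2 p * 2 ^ c := Nat.mul_le_mul_right _ h1
        _ ≤ l := h2
    have := (Nat.pow_lt_pow_iff_right (by norm_num : 1 < 2)).1 h3
    omega
  have hl0 : l ≠ 0 := by
    obtain ⟨p, hp⟩ := hDne
    obtain ⟨h1, h2⟩ := hpl p hp
    have : 0 < Nat.log 2 p * 2 ^ c := by positivity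
    omega
  obtain ⟨J, hJ⟩ : ∃ J, b + 1 = J + c := ⟨b + 1 - c, by omega⟩
  have hbe : ∀ p ∈ D, be p < J := by
    intro p hp
    obtain ⟨h1, h2⟩ := hpl p hp
    unfold be
    apply Nat.log_lt_of_lt_pow (by omega)
    have h3 : Nat.log 2 p * 2 ^ c < 2 ^ J * 2 ^ c := by
      rw [← pow_add, ← hJ]
      exact lt_of_le_of_lt h2 hlb
    exact Nat.lt_of_mul_lt_mul_right h3
  have hlev : (2 ^ (J + 2) * (R + 2) : ℝ) ≤ θ * l := by
    have h1 : ((2:ℝ) ^ b) ≤ l := by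
      exact_mod_cast Nat.pow_log_le_self 2 hl0
    have h2 : ((2:ℝ) ^ (J + 2) * (R + 2)) * 2 ^ c = 8 * (R + 2) * 2 ^ b := by
      have : (2:ℝ) ^ (J + 2) * 2 ^ c = 8 * 2 ^ b := by
        rw [← pow_add, show J + 2 + c = b + 3 by omega, pow_add]
        norm_num
        ring
      calc ((2:ℝ) ^ (J + 2) * (R + 2)) * 2 ^ c = ((2:ℝ) ^ (J + 2) * 2 ^ c) * (R + 2) := by ring
        _ = 8 * (R + 2) * 2 ^ b := by rw [this]; ring
    have h3 : ((2:ℝ) ^ (J + 2) * (R + 2)) * 2 ^ c ≤ (θ * l) * 2 ^ c := by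
      rw [h2]
      calc 8 * ((R:ℝ) + 2) * 2 ^ b ≤ (θ * 2 ^ c) * l :=
            mul_le_mul hc h1 (by positivity) (by positivity)
        _ = (θ * l) * 2 ^ c := by ring
    exact le_of_mul_le_mul_right h3 (by positivity)
  have hNθ : (2:ℝ) ^ (2 ^ (J + 2) * (R + 2)) ≤ (N:ℝ) ^ θ := by
    have h1 : ((2:ℝ) ^ l) ≤ N := by
      exact_mod_cast Nat.pow_log_le_self 2 (by omega : N ≠ 0)
    calc (2:ℝ) ^ (2 ^ (J + 2) * (R + 2)) = (2:ℝ) ^ (((2 ^ (J + 2) * (R + 2) : ℕ)) : ℝ) := by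
          rw [Real.rpow_natCast]
      _ ≤ (2:ℝ) ^ (θ * l) := by
          apply Real.rpow_le_rpow_of_exponent_le (by norm_num)
          push_cast
          exact hlev
      _ = ((2:ℝ) ^ l) ^ θ := by
          rw [mul_comm, Real.rpow_mul (by norm_num), Real.rpow_natCast]
      _ ≤ (N:ℝ) ^ θ := Real.rpow_le_rpow (by positivity) h1 hθ0.le
  have hle1 : ∀ n, |∑ k ∈ Icc 1 n, uu H D k| ≤ n := by
    intro n
    calc |∑ k ∈ Icc 1 n, uu H D k| ≤ ∑ k ∈ Icc 1 n, |uu H D k| := Finset.abs_sum_le_sum_abs _ _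
      _ = n := by simp [abs_uu]
  have hcard : (1:ℝ) ≤ H.card := by
    exact_mod_cast Finset.card_pos.2 hne
  have hle2 : ∀ n, ⌊(N:ℝ) ^ θ⌋₊ < n → n ≤ N → |∑ k ∈ Icc 1 n, uu H D k| ≤ n * (η / 4) := by
    intro n hn _
    have h1 : (N:ℝ) ^ θ < n := (Nat.floor_lt (by positivity)).1 hn
    have h2 : 2 ^ (2 ^ (J + 2) * (R + 2)) ≤ n := by
      have : (2:ℝ) ^ (2 ^ (J + 2) * (R + 2)) ≤ n := hNθ.trans h1.le
      exact_mod_cast this
    have h3 := hS D J n (fun p hp => ⟨(hD p hp).1, (hD p hp).2.1, hbe p hp⟩) h2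
    refine h3.trans ?_
    apply mul_le_mul_of_nonneg_left _ (Nat.cast_nonneg n)
    have h4 : Real.exp (-(2 * H.card * ∑ p ∈ D, (1:ℝ) / p)) ≤ Real.exp (-(2 * A)) := by
      apply Real.exp_le_exp.2
      have h5 : (1:ℝ) * A ≤ H.card * ∑ p ∈ D, (1:ℝ) / p :=
        mul_le_mul hcard hDA hA0.le (by positivity)
      nlinarith
    linarith
  have hmain := abel_le (uu H D) N ⌊(N:ℝ) ^ θ⌋₊ (η / 4) (by positivity) hle1 hle2
  have hfl : Real.log (⌊(N:ℝ) ^ θ⌋₊ : ℝ) ≤ θ * Real.log N := by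
    have h1 : (1:ℝ) ≤ (N:ℝ) ^ θ := Real.one_le_rpow (by exact_mod_cast hN1) hθ0.le
    have h2 : 1 ≤ ⌊(N:ℝ) ^ θ⌋₊ := (Nat.one_le_floor_iff _).2 h1
    rw [← Real.log_rpow hNr]
    apply Real.log_le_log (by exact_mod_cast h2)
    exact Nat.floor_le (by positivity)
  unfold LA
  rw [abs_div, abs_of_pos hlog0, div_le_iff₀ hlog0]
  refine hmain.trans ?_
  have h6 : η * (4 / η + 1) ≤ η * Real.log N := mul_le_mul_of_nonneg_left hlog hη.le
  have h7 : η * (4 / η + 1) = 4 + η := by field_simp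
  rw [hθ] at hfl
  nlinarith

end Pool.Agent.Lib.P4a7640D
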