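import Mathlib
import Pool.Agent.Lib.P4a7640D.Base

/-!
# Binary digits

Module P4a7640D.Digits.

`dig α = {k | Odd ⌊2^k * α⌋}` (definition in `Base`).
* `dig_add`: `2^k (α + 2 l) = 2^k α + 2 (2^k l)`, `Int.floor_add_intCast`, parity.
* `dig_iff`: for `0 ≤ α` and `k ≤ K`, `⌊2^k α⌋₊ = ⌊2^K α⌋₊ / 2^(K-k)` (`Nat.floor_div_natCast`,
  `2^k α = 2^K α / 2^(K-k)`), and `⌊x⌋` is the cast of `⌊x⌋₊` for `x ≥ 0`.
* `floor_lt`: `⌊2^K α⌋₊ < 2^(K+1)` for `α ∈ [0,2)`.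
* `card_le`: the map `a ↦ {k ∈ range (K+1) : Odd (a / 2^(K-k))}` is injective on `a < 2^(K+1)`
  (binary digits, `Nat.testBit`, `Nat.eq_of_testBit_eq`), so the number of `a < 2^(K+1)` whose digit
  set lies in `B` is at most `B.card`.
* `dig_injOn`: for `α, β ∈ [0,2)` with `dig α = dig β`: all `⌊2^K α⌋₊ = ⌊2^K β⌋₊`, so
  `|α - β| ≤ 2^(-K)` for all `K`.
* `countable_class`: for fixed `α` the set of all real `β` such that `dig α` and `dig β` differ in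
  finitely many places is countable: countably many finite sets `F` and integers `l`, and for given
  `F`, `l` at most one `β ∈ [2l, 2l+2)` with `symmDiff (dig α) (dig β) = F`.
-/

open Finset

namespace Pool.Agent.Lib.P4a7640D

theorem dig_add (α : ℝ) (l : ℤ) : dig (α + 2 * l) = dig α := by
  ext k
  show Odd ⌊(2:ℝ) ^ k * (α + 2 * l)⌋ ↔ Odd ⌊(2:ℝ) ^ k * α⌋
  have e : (2:ℝ) ^ k * (α + 2 * l) = (2:ℝ) ^ k * α + ((2 * (2 ^ k * l) : ℤ) : ℝ) := by
    push_cast; ring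
  rw [e, Int.floor_add_intCast, Int.odd_add]
  simp

theorem dig_iff {α : ℝ} (hα : 0 ≤ α) {k K : ℕ} (hk : k ≤ K) :
    k ∈ dig α ↔ Odd (⌊(2:ℝ) ^ K * α⌋₊ / 2 ^ (K - k)) := by
  show Odd ⌊(2:ℝ) ^ k * α⌋ ↔ _
  have h0 : (0:ℝ) ≤ 2 ^ k * α := by positivity
  have e : (2:ℝ) ^ k * α = (2:ℝ) ^ K * α / ((2 ^ (K - k) : ℕ) : ℝ) := by
    push_cast
    have : (2:ℝ) ^ K = 2 ^ k * 2 ^ (K - k) := by rw [← pow_add]; congr 1; omega
    rw [this]
    field_simp
  have h1 : ⌊(2:ℝ) ^ k * α⌋₊ = ⌊(2:ℝ) ^ K * α⌋₊ / 2 ^ (K - k) := by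
    rw [e, Nat.floor_div_natCast]
  rw [← h1, ← Int.natCast_floor_eq_floor h0, Int.odd_coe_nat]

theorem floor_lt {α : ℝ} (hα : α ∈ Set.Ico (0:ℝ) 2) (K : ℕ) : ⌊(2:ℝ) ^ K * α⌋₊ < 2 ^ (K + 1) := by
  have h0 : (0:ℝ) ≤ 2 ^ K * α := mul_nonneg (by positivity) hα.1
  rw [Nat.floor_lt h0]
  push_cast
  rw [pow_succ]
  exact mul_lt_mul_of_pos_left hα.2 (by positivity)

/-- a number below `2^(K+1)` is determined by its digits -/
theorem digits_inj {K a b : ℕ} (ha : a < 2 ^ (K + 1)) (hb : b < 2 ^ (K + 1))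
    (h : ∀ k ≤ K, (Odd (a / 2 ^ (K - k)) ↔ Odd (b / 2 ^ (K - k)))) : a = b := by
  apply Nat.eq_of_testBit_eq
  intro i
  by_cases hi : i ≤ K
  · have := h (K - i) (by omega)
    have e : K - (K - i) = i := by omega
    rw [e, Nat.odd_iff, Nat.odd_iff] at this
    rw [Nat.testBit_eq_decide_div_mod_eq, Nat.testBit_eq_decide_div_mod_eq]
    exact decide_eq_decide.2 this
  · have h1 : 2 ^ (K + 1) ≤ 2 ^ i := Nat.pow_le_pow_right (by norm_num) (by omega)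
    rw [Nat.testBit_lt_two_pow (lt_of_lt_of_le ha h1),
      Nat.testBit_lt_two_pow (lt_of_lt_of_le hb h1)]

theorem card_le (K : ℕ) (B : Finset (Finset ℕ)) :
    ((range (2 ^ (K + 1))).filter fun a =>
      (range (K + 1)).filter (fun k => Odd (a / 2 ^ (K - k))) ∈ B).card ≤ B.card := by
  refine Finset.card_le_card_of_injOn
    (fun a => (range (K + 1)).filter (fun k => Odd (a / 2 ^ (K - k)))) ?_ ?_
  · intro a ha
    exact (Finset.mem_filter.1 (Finset.mem_coe.1 ha)).2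
  · intro a ha b hb h
    have ha' := Finset.mem_range.1 (Finset.mem_filter.1 (Finset.mem_coe.1 ha)).1
    have hb' := Finset.mem_range.1 (Finset.mem_filter.1 (Finset.mem_coe.1 hb)).1
    refine digits_inj ha' hb' fun k hk => ?_
    have h1 := Finset.ext_iff.1 h k
    simp only [Finset.mem_filter, Finset.mem_range] at h1
    have h2 : k < K + 1 := by omega
    simpa [h2] using h1

theorem dig_injOn {α β : ℝ} (hα : α ∈ Set.Ico (0:ℝ) 2) (hβ : β ∈ Set.Ico (0:ℝ) 2)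
    (h : dig α = dig β) : α = β := by
  have h1 : ∀ K : ℕ, ⌊(2:ℝ) ^ K * α⌋₊ = ⌊(2:ℝ) ^ K * β⌋₊ := by
    intro K
    refine digits_inj (floor_lt hα K) (floor_lt hβ K) fun k hk => ?_
    rw [← dig_iff hα.1 hk, ← dig_iff hβ.1 hk, h]
  have h2 : ∀ K : ℕ, |α - β| ≤ (1 / 2) ^ K := by
    intro K
    have h2 : (0:ℝ) < 2 ^ K := by positivity
    have hx0 : (0:ℝ) ≤ 2 ^ K * α := mul_nonneg h2.le hα.1
    have hy0 : (0:ℝ) ≤ 2 ^ K * β := mul_nonneg h2.le hβ.1
    have hx1 := (Nat.floor_eq_iff hx0).1 (h1 K)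
    have hy1 := (Nat.floor_eq_iff hy0).1 rfl
    have h4 : (2:ℝ) ^ K * |α - β| ≤ 1 := by
      have e : (2:ℝ) ^ K * |α - β| = |2 ^ K * (α - β)| := by rw [abs_mul, abs_of_pos h2]
      rw [e, mul_sub, abs_le]
      constructor <;> linarith [hx1.1, hx1.2, hy1.1, hy1.2]
    rw [div_pow, one_pow, le_div_iff₀ h2, mul_comm]
    exact h4
  have h3 : Filter.Tendsto (fun K : ℕ => ((1:ℝ) / 2) ^ K) Filter.atTop (nhds 0) :=
    tendsto_pow_atTop_nhds_zero_of_lt_one (by norm_num) (by norm_num)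
  have h4 : |α - β| ≤ 0 := ge_of_tendsto' h3 h2
  have h5 : α - β = 0 := abs_eq_zero.1 (le_antisymm h4 (abs_nonneg _))
  linarith

open Classical in
theorem countable_class (α : ℝ) : {β : ℝ | (symmDiff (dig α) (dig β)).Finite}.Countable := by
  let f : ℝ → Finset ℕ × ℤ := fun β =>
    (if h : (symmDiff (dig α) (dig β)).Finite then h.toFinset else ∅, ⌊β / 2⌋)
  refine Set.countable_of_injective_of_countable_image (f := f) ?_ (Set.to_countable _)
  intro β hβ γ hγ h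
  have hβ' : (symmDiff (dig α) (dig β)).Finite := hβ
  have hγ' : (symmDiff (dig α) (dig γ)).Finite := hγ
  simp only [f, Prod.mk.injEq, dif_pos hβ', dif_pos hγ'] at h
  obtain ⟨h1, h2⟩ := h
  have h3 : symmDiff (dig α) (dig β) = symmDiff (dig α) (dig γ) := by
    rw [← hβ'.coe_toFinset, ← hγ'.coe_toFinset, h1]
  have h4 : dig β = dig γ := symmDiff_right_injective (dig α) h3
  have hr : ∀ x : ℝ, x + 2 * ((-⌊x / 2⌋ : ℤ) : ℝ) ∈ Set.Ico (0:ℝ) 2 := by
    intro x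
    have a := Int.floor_le (x / 2)
    have b := Int.lt_floor_add_one (x / 2)
    push_cast
    constructor <;> linarith
  have h5 := dig_injOn (hr β) (hr γ) (by rw [dig_add, dig_add, h4])
  rw [h2] at h5
  linarith

end Pool.Agent.Lib.P4a7640D
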