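import Mathlib
import Pool.Agent.Lib.P4a7640D.Base

/-!
# Elementary properties of the block families

Module P4a7640D.Fam.

`rnd x n = n.factorization.prod fun p k => x p ^ k` depends only on the values `x p` at the primes
`p ∣ n`.
* `fam_multS`: `MultS.mul` and `rnd_mul`.
* `fam_congr`: only primes `p ≤ N + h ≤ N + hm` divide `n + h` for `n ∈ Icc 1 N`, and
  `κ p ≤ κ (N + hm)` by monotonicity; `LA` only sees `n ∈ Icc 1 N`.
* `fam_prime`: values at prime powers; `rnd x (p^e) = x p ^ e`.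
* `mass_eq`: if the block `κ p = k` is contained in `[0, n]` then `mass κ P k` is the finite sum
  (`tsum_fintype`, `tsum_eq_sum`, `Finset.tsum_subtype`).
* `mass_nonneg`.
* `unbounded_of_mass`: if `mass κ P k > 0` then there is `p` with `κ p = k`.
-/

open Finset
open Pool.Agent.Lib.P4a7640

namespace Pool.Agent.Lib.P4a7640D

theorem fam_multS {g : ℕ → ℤˣ} (hg : MultS g) (x : SS) : MultS fun n => g n * rnd x n := by
  apply hg.mul
  intro m n hm hn _
  exact rnd_mul x hm.ne' hn.ne'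

theorem rnd_prime_pow (x : SS) {p : ℕ} (hp : p.Prime) (e : ℕ) : rnd x (p ^ e) = x p ^ e := by
  unfold rnd
  rw [hp.factorization_pow]
  exact Finsupp.prod_single_index (pow_zero _)

theorem fam_congr {κ : ℕ → ℕ} (hκ : Monotone κ) (P : Set ℕ) (g : ℕ → ℤˣ) {H : Finset ℕ}
    {hm N : ℕ} (hH : ∀ h ∈ H, h ≤ hm) {S S' : Set ℕ}
    (hS : ∀ k ≤ κ (N + hm), (k ∈ S ↔ k ∈ S')) :
    LA (prodSeq (fun n => g n * rnd (bs κ P S) n) H) N =
      LA (prodSeq (fun n => g n * rnd (bs κ P S') n) H) N := by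
  unfold LA
  congr 1
  refine Finset.sum_congr rfl fun n hn => ?_
  congr 1
  unfold prodSeq
  refine Finset.prod_congr rfl fun h hh => ?_
  have hr : rnd (bs κ P S) (n + h) = rnd (bs κ P S') (n + h) := by
    unfold rnd
    refine Finset.prod_congr rfl fun p hp => ?_
    have hp1 : p ∣ n + h := Nat.dvd_of_mem_primeFactors (by simpa using hp)
    have hn1 := (Finset.mem_Icc.mp hn)
    have hp2 : p ≤ N + hm := (Nat.le_of_dvd (by omega) hp1).trans (by have := hH h hh; omega)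
    have h1 := hS (κ p) (hκ hp2)
    have h2 : bs κ P S p = bs κ P S' p := by
      unfold bs
      by_cases hP : p ∈ P <;> by_cases hk : κ p ∈ S'
      · rw [if_pos ⟨hP, h1.mpr hk⟩, if_pos ⟨hP, hk⟩]
      · rw [if_neg (fun h => hk (h1.mp h.2)), if_neg (fun h => hk h.2)]
      · rw [if_neg (fun h => hP h.1), if_neg (fun h => hP h.1)]
      · rw [if_neg (fun h => hP h.1), if_neg (fun h => hP h.1)]
    show bs κ P S p ^ _ = bs κ P S' p ^ _
    rw [h2]
  show sg (g (n + h) * rnd (bs κ P S) (n + h)) = sg (g (n + h) * rnd (bs κ P S') (n + h))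
  rw [hr]

open Classical in
theorem bs_ne_iff (κ : ℕ → ℕ) (P S S' : Set ℕ) (p : ℕ) :
    bs κ P S p ≠ bs κ P S' p ↔ p ∈ P ∧ κ p ∈ symmDiff S S' := by
  have h1 : (-1 : ℤˣ) ≠ 1 := by decide
  have h2 : (1 : ℤˣ) ≠ -1 := by decide
  unfold bs
  rw [Set.mem_symmDiff]
  by_cases hP : p ∈ P <;> by_cases hS : κ p ∈ S <;> by_cases hS' : κ p ∈ S' <;>
    simp [hP, hS, hS', h1, h2]

theorem mass_nonneg (κ : ℕ → ℕ) (P : Set ℕ) (k : ℕ) : 0 ≤ mass κ P k := by
  unfold mass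
  exact tsum_nonneg fun p => by positivity

open Classical in
theorem mass_eq {κ : ℕ → ℕ} {P : Set ℕ} {k n : ℕ} (h : ∀ p : ℕ, κ p = k → p ≤ n) :
    mass κ P k = ∑ p ∈ (Icc 1 n).filter (fun p => p.Prime ∧ p ∈ P ∧ κ p = k), (1:ℝ) / p := by
  have hset : {p : ℕ | p.Prime ∧ p ∈ P ∧ κ p = k} =
      (((Icc 1 n).filter (fun p => p.Prime ∧ p ∈ P ∧ κ p = k) : Finset ℕ) : Set ℕ) := by
    ext p
    simp only [Set.mem_ofPred_eq, Finset.coe_filter, Finset.mem_Icc]
    constructor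
    · rintro ⟨h1, h2, h3⟩
      exact ⟨⟨h1.one_le, h p h3⟩, h1, h2, h3⟩
    · rintro ⟨_, h1⟩
      exact h1
  unfold mass
  have h1 := tsum_congr_set_coe (fun p : ℕ => (1:ℝ) / p) hset
  have h2 := Finset.tsum_subtype' ((Icc 1 n).filter (fun p => p.Prime ∧ p ∈ P ∧ κ p = k))
    (fun p : ℕ => (1:ℝ) / p)
  exact h1.trans h2

theorem exists_of_mass_pos {κ : ℕ → ℕ} {P : Set ℕ} {k : ℕ} (h : 0 < mass κ P k) :
    ∃ p : ℕ, p.Prime ∧ p ∈ P ∧ κ p = k := by
  by_contra hne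
  push Not at hne
  have : IsEmpty {p : ℕ // p.Prime ∧ p ∈ P ∧ κ p = k} :=
    ⟨fun p => hne p.1 p.2.1 p.2.2.1 p.2.2.2⟩
  unfold mass at h
  rw [tsum_empty] at h
  exact lt_irrefl _ h

end Pool.Agent.Lib.P4a7640D
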