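import Mathlib
import Pool.Agent.Lib.P4a7640D.Base

/-!
# Bessel inequality

Module P4a7640D.Bessel.

Let `M = s.card`, `σ i = 1` if `0 ≤ LA (F i) N` and `-1` otherwise, `G n = ∑ i ∈ s, σ i * F i n`.
Then `M δ ≤ LA G N` and, by `LA_sq_le`, `(LA G N)^2 ≤ LA 1 N * LA (G^2) N`, while
`LA (G^2) N = ∑ i j, σ i σ j LA (F i * F j) N ≤ M * LA 1 N + M^2 δ^2/4` (the diagonal terms are at
most `LA 1 N`, because `F i n ^ 2 ≤ 1`).  With `LA 1 N ≤ 3/2`: `M^2 δ^2 ≤ (3/2)(3M/2 + M^2 δ^2/4)`,
so `M ≤ 3.6/δ^2`.  Useful library lemmas (`P4a7640.Twist`): `LA_sum`, `LA_const_mul`, `LA_mono`,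
`LA_sq_le`.

`pack`: let `s ⊆ B` be a subset that is pairwise `far`, of maximal cardinality (`Finset.exists_max_image`
over `B.powerset.filter ..`).  Every `y ∈ B` is in `s`, or not far from some `x ∈ s`.  So `B` is
covered by the sets `B.filter (fun y => y = x ∨ ¬ far x y)`, `x ∈ s`, and `B.card ≤ s.card * L`.
-/

open Finset
open Pool.Agent.Lib.P4a7640

namespace Pool.Agent.Lib.P4a7640D

theorem bessel {ι : Type*} (s : Finset ι) (F : ι → ℕ → ℝ) (hF : ∀ i ∈ s, ∀ n, |F i n| ≤ 1)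
    (N : ℕ) (hN : LA (fun _ => 1) N ≤ 3 / 2) (δ : ℝ) (hδ : 0 < δ)
    (h1 : ∀ i ∈ s, δ ≤ |LA (F i) N|)
    (h2 : ∀ i ∈ s, ∀ j ∈ s, i ≠ j → |LA (fun n => F i n * F j n) N| ≤ δ ^ 2 / 4) :
    (s.card : ℝ) ≤ 8 / δ ^ 2 := by
  classical
  set σ : ι → ℝ := fun i => if 0 ≤ LA (F i) N then 1 else -1 with hσ
  have hσ2 : ∀ i, |σ i| = 1 := by
    intro i
    simp only [hσ]
    split_ifs <;> simp
  have hσa : ∀ i, σ i * LA (F i) N = |LA (F i) N| := by
    intro i
    simp only [hσ]
    split_ifs with h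
    · rw [one_mul, abs_of_nonneg h]
    · rw [abs_of_neg (not_le.1 h)]; ring
  set M : ℝ := (s.card : ℝ) with hM
  have hM0 : 0 ≤ M := by positivity
  set G : ℕ → ℝ := fun n => ∑ i ∈ s, σ i * F i n with hG
  have hG1 : M * δ ≤ LA G N := by
    have e : LA G N = ∑ i ∈ s, |LA (F i) N| := by
      rw [hG, LA_sum]
      refine Finset.sum_congr rfl fun i _ => ?_
      rw [LA_const_mul, hσa]
    rw [e, hM, ← nsmul_eq_mul]
    exact Finset.card_nsmul_le_sum _ _ _ h1
  have hG2 : LA (fun n => G n ^ 2) N ≤ M * (3 / 2 + M * (δ ^ 2 / 4)) := by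
    have e : (fun n => G n ^ 2) =
        fun n => ∑ i ∈ s, ∑ j ∈ s, (σ i * σ j) * (F i n * F j n) := by
      funext n
      rw [hG]
      simp only
      rw [sq, Finset.sum_mul_sum]
      refine Finset.sum_congr rfl fun i _ => Finset.sum_congr rfl fun j _ => ?_
      ring
    rw [e, LA_sum, hM, ← nsmul_eq_mul]
    refine Finset.sum_le_card_nsmul _ _ _ fun i hi => ?_
    rw [LA_sum]
    have hb : ∀ j ∈ s, LA (fun n => (σ i * σ j) * (F i n * F j n)) N ≤
        (if j = i then 3 / 2 else 0) + δ ^ 2 / 4 := by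
      intro j hj
      rw [LA_const_mul]
      have hss : |σ i * σ j| = 1 := by rw [abs_mul, hσ2, hσ2, one_mul]
      have h3 : σ i * σ j * LA (fun n => F i n * F j n) N ≤ |LA (fun n => F i n * F j n) N| := by
        refine (le_abs_self _).trans ?_
        rw [abs_mul, hss, one_mul]
      refine h3.trans ?_
      split_ifs with hji
      · subst hji
        have h4 : |LA (fun n => F j n * F j n) N| ≤ LA (fun _ => 1) N := by
          refine (abs_LA_le _ _).trans (LA_mono ?_ N)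
          intro n
          rw [abs_mul]
          have := hF j hj n
          nlinarith [abs_nonneg (F j n)]
        have : 0 ≤ δ ^ 2 / 4 := by positivity
        linarith
      · rw [zero_add]
        exact h2 i hi j hj (fun h => hji h.symm)
    refine (Finset.sum_le_sum hb).trans ?_
    rw [Finset.sum_add_distrib, Finset.sum_ite_eq' s i, if_pos hi, Finset.sum_const,
      nsmul_eq_mul]
  have h5 := LA_sq_le G N
  have h6 : (M * δ) ^ 2 ≤ LA G N ^ 2 := pow_le_pow_left₀ (by positivity) hG1 2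
  have h7 : LA (fun _ => 1) N * LA (fun n => G n ^ 2) N ≤
      3 / 2 * (M * (3 / 2 + M * (δ ^ 2 / 4))) := by
    have h8 : 0 ≤ LA (fun n => G n ^ 2) N := by
      have := LA_mono (a := fun _ => 0) (b := fun n => G n ^ 2) (fun n => sq_nonneg _) N
      refine le_trans (le_of_eq ?_) this
      simp [LA]
    have h9 : 0 ≤ LA (fun _ => 1) N := by
      have := LA_mono (a := fun _ => 0) (b := fun _ => 1) (fun n => zero_le_one) N
      refine le_trans (le_of_eq ?_) this
      simp [LA]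
    exact mul_le_mul hN hG2 h8 (by norm_num)
  have h10 : (M * δ) ^ 2 ≤ 3 / 2 * (M * (3 / 2 + M * (δ ^ 2 / 4))) := h6.trans (h5.trans h7)
  have hδ2 : 0 < δ ^ 2 := by positivity
  rw [le_div_iff₀ hδ2]
  rcases eq_or_lt_of_le hM0 with h | h
  · rw [← h]; norm_num
  · have h11 : M * δ ^ 2 ≤ 3 / 2 * (3 / 2 + M * (δ ^ 2 / 4)) := by
      by_contra hcon
      push Not at hcon
      have := mul_lt_mul_of_pos_left hcon h
      nlinarith
    nlinarith

open Classical in
theorem pack {ι : Type*} (B : Finset ι) (far : ι → ι → Prop)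
    (hsym : ∀ x y, far x y → far y x) (M L : ℝ) (hL0 : 0 ≤ L)
    (hM : ∀ s ⊆ B, (∀ x ∈ s, ∀ y ∈ s, x ≠ y → far x y) → (s.card : ℝ) ≤ M)
    (hL : ∀ x ∈ B, ((B.filter fun y => y = x ∨ ¬ far x y).card : ℝ) ≤ L) :
    (B.card : ℝ) ≤ M * L := by
  obtain ⟨Q, hQ⟩ : ∃ Q : Finset ι → Prop, ∀ s, Q s ↔ ∀ x ∈ s, ∀ y ∈ s, x ≠ y → far x y :=
    ⟨fun s => ∀ x ∈ s, ∀ y ∈ s, x ≠ y → far x y, fun _ => Iff.rfl⟩
  have hne : (B.powerset.filter Q).Nonempty := by
    refine ⟨∅, ?_⟩
    rw [Finset.mem_filter, hQ]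
    simp
  obtain ⟨s, hs, hmax⟩ := Finset.exists_max_image _ (fun s => s.card) hne
  obtain ⟨hsB, hsf⟩ := Finset.mem_filter.1 hs
  rw [Finset.mem_powerset] at hsB
  rw [hQ] at hsf
  have hcov : B ⊆ s.biUnion fun x => B.filter fun y => y = x ∨ ¬ far x y := by
    intro y hy
    rw [Finset.mem_biUnion]
    by_contra hcon
    push Not at hcon
    have hfar : ∀ x ∈ s, y ≠ x ∧ far x y := by
      intro x hx
      have := hcon x hx
      rw [Finset.mem_filter] at this
      push Not at this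
      exact this hy
    have hys : y ∉ s := fun h => (hfar y h).1 rfl
    have hins : insert y s ∈ B.powerset.filter Q := by
      rw [Finset.mem_filter, Finset.mem_powerset, hQ]
      refine ⟨Finset.insert_subset hy hsB, ?_⟩
      intro a ha b hb hab
      rw [Finset.mem_insert] at ha hb
      rcases ha with rfl | ha
      · rcases hb with rfl | hb
        · exact absurd rfl hab
        · exact hsym _ _ (hfar b hb).2
      · rcases hb with rfl | hb
        · exact (hfar a ha).2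
        · exact hsf a ha b hb hab
    have := hmax _ hins
    rw [Finset.card_insert_of_notMem hys] at this
    omega
  have h1 := (Finset.card_le_card hcov).trans Finset.card_biUnion_le
  have h2 : (B.card : ℝ) ≤ ∑ x ∈ s, ((B.filter fun y => y = x ∨ ¬ far x y).card : ℝ) := by
    exact_mod_cast h1
  refine h2.trans ((Finset.sum_le_sum fun x hx => hL x (hsB hx)).trans ?_)
  rw [Finset.sum_const, nsmul_eq_mul]
  exact mul_le_mul_of_nonneg_right (hM s hsB hsf) hL0

end Pool.Agent.Lib.P4a7640D
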