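import Mathlib
import Pool.Agent.Lib.P4a7640D.Base

/-!
# Correlations of a multiplicative function and the sieve sign

Module P4a7640D.Compare.

Let `B p := F p = -1 ∧ p ∉ D`.  `Bad B z m n` (library, `P4a7640.Periodic`) says that `p^(m+1) ∣ n`
for a prime `p ≤ z`, or `p^2 ∣ n` for a prime `p > z`, or `p ∣ n` for a prime `p > z` with `B p`.
1. If `0 < n` and no `n + h`, `h ∈ H`, is `Bad`, then `prodSeq F H n = uu H D n`.
2. So `|prodSeq F H n - uu H D n| ≤ ∑ h ∈ H, 2 * BI B z m (n + h)` for all `n`.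
3. Average as in `LA_diff_le` (`P4a7640.Stable`).
-/

open Finset
open Pool.Agent.Lib.P4a7640

namespace Pool.Agent.Lib.P4a7640D

namespace Cmp

lemma disjoint_filter_coprime {D : Finset ℕ} (hD : ∀ p ∈ D, p.Prime) {a b : ℕ}
    (hc : a.Coprime b) : Disjoint (D.filter fun p => p ∣ a) (D.filter fun p => p ∣ b) := by
  rw [Finset.disjoint_left]
  intro p hpa hpb
  rw [Finset.mem_filter] at hpa hpb
  have h1 : p ∣ Nat.gcd a b := Nat.dvd_gcd hpa.2 hpb.2
  rw [hc] at h1
  exact (hD p hpa.1).one_lt.ne' (Nat.dvd_one.mp h1)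

lemma filter_mul {D : Finset ℕ} (hD : ∀ p ∈ D, p.Prime) (a b : ℕ) :
    (D.filter fun p => p ∣ a * b) = (D.filter fun p => p ∣ a) ∪ (D.filter fun p => p ∣ b) := by
  ext p
  simp only [Finset.mem_filter, Finset.mem_union]
  constructor
  · rintro ⟨h1, h2⟩
    rcases (hD p h1).dvd_mul.mp h2 with h | h
    · exact Or.inl ⟨h1, h⟩
    · exact Or.inr ⟨h1, h⟩
  · rintro (⟨h1, h2⟩ | ⟨h1, h2⟩)
    · exact ⟨h1, h2.mul_right b⟩
    · exact ⟨h1, h2.mul_left a⟩

lemma sign_eq {F : ℕ → ℤˣ} (hF : MultS F) (z m : ℕ)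
    (hsmall : ∀ p : ℕ, p.Prime → p ≤ z → ∀ e ≤ m, F (p ^ e) = 1)
    (D : Finset ℕ) (hD : ∀ p ∈ D, p.Prime ∧ z < p ∧ F p = -1) :
    ∀ k : ℕ, ¬ Bad (fun p => F p = -1 ∧ p ∉ D) z m k →
      sg (F k) = (-1 : ℝ) ^ (D.filter fun p => p ∣ k).card := by
  intro k
  induction k using Nat.recOnPosPrimePosCoprime with
  | prime_pow p n hp hn =>
    intro hbad
    unfold Bad at hbad
    push Not at hbad
    obtain ⟨g1, g2, g3⟩ := hbad
    by_cases hpz : p ≤ z
    · have hnm : n ≤ m := by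
        by_contra hcon
        exact g1 p hp hpz (pow_dvd_pow p (by omega))
      rw [hsmall p hp hpz n hnm]
      have h1 : (D.filter fun q => q ∣ p ^ n) = ∅ := by
        rw [Finset.filter_eq_empty_iff]
        intro q hq hqp
        have h2 := (hD q hq).1.dvd_of_dvd_pow hqp
        have h3 := (Nat.prime_dvd_prime_iff_eq (hD q hq).1 hp).mp h2
        have h4 := (hD q hq).2.1
        omega
      rw [h1]
      simp [sg]
    · push Not at hpz
      have hn1 : n = 1 := by
        by_contra hcon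
        exact g2 p hp hpz (pow_dvd_pow p (by omega))
      rw [hn1, pow_one]
      by_cases hpD : p ∈ D
      · have h1 : (D.filter fun q => q ∣ p) = {p} := by
          ext q
          rw [Finset.mem_filter, Finset.mem_singleton]
          constructor
          · rintro ⟨hq, hqp⟩
            exact (Nat.prime_dvd_prime_iff_eq (hD q hq).1 hp).mp hqp
          · rintro rfl
            exact ⟨hpD, dvd_rfl⟩
        rw [h1, (hD p hpD).2.2]
        simp [sg]
      · have h1 : (D.filter fun q => q ∣ p) = ∅ := by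
          rw [Finset.filter_eq_empty_iff]
          intro q hq hqp
          rw [(Nat.prime_dvd_prime_iff_eq (hD q hq).1 hp).mp hqp] at hq
          exact hpD hq
        have h2 : F p ≠ -1 := fun h => g3 p hp hpz ⟨h, hpD⟩ (dvd_pow_self p hn.ne')
        have h3 : F p = 1 := by
          rcases Int.units_eq_one_or (F p) with h | h
          · exact h
          · exact absurd h h2
        rw [h1, h3]
        simp [sg]
  | zero =>
    intro hbad
    exfalso
    apply hbad
    obtain ⟨p, hp, hpp⟩ := Nat.exists_infinite_primes (z + 1)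
    exact Or.inr (Or.inl ⟨p, hpp, by omega, dvd_zero _⟩)
  | one =>
    intro _
    rw [hF.map_one]
    have h1 : (D.filter fun q => q ∣ 1) = ∅ := by
      rw [Finset.filter_eq_empty_iff]
      intro q hq hq1
      exact (hD q hq).1.one_lt.ne' (Nat.dvd_one.mp hq1)
    rw [h1]
    simp [sg]
  | coprime a b ha hb hc iha ihb =>
    intro hbad
    have hna : ¬ Bad (fun p => F p = -1 ∧ p ∉ D) z m a := by
      intro h
      apply hbad
      rcases h with ⟨p, hp, h1, h2⟩ | ⟨p, hp, h1, h2⟩ | ⟨p, hp, h1, h2, h3⟩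
      · exact Or.inl ⟨p, hp, h1, h2.mul_right b⟩
      · exact Or.inr (Or.inl ⟨p, hp, h1, h2.mul_right b⟩)
      · exact Or.inr (Or.inr ⟨p, hp, h1, h2, h3.mul_right b⟩)
    have hnb : ¬ Bad (fun p => F p = -1 ∧ p ∉ D) z m b := by
      intro h
      apply hbad
      rcases h with ⟨p, hp, h1, h2⟩ | ⟨p, hp, h1, h2⟩ | ⟨p, hp, h1, h2, h3⟩
      · exact Or.inl ⟨p, hp, h1, h2.mul_left a⟩
      · exact Or.inr (Or.inl ⟨p, hp, h1, h2.mul_left a⟩)
      · exact Or.inr (Or.inr ⟨p, hp, h1, h2, h3.mul_left a⟩)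
    have hDp : ∀ p ∈ D, p.Prime := fun p hp => (hD p hp).1
    rw [hF a b (by omega) (by omega) hc, sg_mul, iha hna, ihb hnb, filter_mul hDp,
      Finset.card_union_of_disjoint (disjoint_filter_coprime hDp hc), pow_add]

lemma prod_eq {F : ℕ → ℤˣ} (hF : MultS F) (H : Finset ℕ) (z m : ℕ)
    (hH : ∀ h ∈ H, h ≤ z) (hsmall : ∀ p : ℕ, p.Prime → p ≤ z → ∀ e ≤ m, F (p ^ e) = 1)
    (D : Finset ℕ) (hD : ∀ p ∈ D, p.Prime ∧ z < p ∧ F p = -1) (n : ℕ)
    (hn : ∀ h ∈ H, ¬ Bad (fun p => F p = -1 ∧ p ∉ D) z m (n + h)) :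
    prodSeq F H n = uu H D n := by
  unfold uu KK prodSeq
  have h1 : (D.filter fun p => ∃ h ∈ H, p ∣ n + h) =
      H.biUnion (fun h => D.filter fun p => p ∣ n + h) := by
    ext p
    simp only [Finset.mem_filter, Finset.mem_biUnion]
    constructor
    · rintro ⟨hp, h, hh, hd⟩
      exact ⟨h, hh, hp, hd⟩
    · rintro ⟨h, hh, hp, hd⟩
      exact ⟨hp, h, hh, hd⟩
  have h2 : (H.biUnion (fun h => D.filter fun p => p ∣ n + h)).card =
      ∑ h ∈ H, (D.filter fun p => p ∣ n + h).card := by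
    apply Finset.card_biUnion
    intro h hh h' hh' hne
    show Disjoint (D.filter fun p => p ∣ n + h) (D.filter fun p => p ∣ n + h')
    rw [Finset.disjoint_left]
    intro p hp hp'
    rw [Finset.mem_filter] at hp hp'
    have hpz := (hD p hp.1).2.1
    have hz := hH h hh
    have hz' := hH h' hh'
    rcases lt_or_gt_of_ne hne with hlt | hlt
    · have h3 : p ∣ (n + h') - (n + h) := Nat.dvd_sub hp'.2 hp.2
      have h4 : (n + h') - (n + h) = h' - h := by omega
      rw [h4] at h3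
      have h5 := Nat.le_of_dvd (by omega) h3
      omega
    · have h3 : p ∣ (n + h) - (n + h') := Nat.dvd_sub hp.2 hp'.2
      have h4 : (n + h) - (n + h') = h - h' := by omega
      rw [h4] at h3
      have h5 := Nat.le_of_dvd (by omega) h3
      omega
  rw [h1, h2, ← Finset.prod_pow_eq_pow_sum]
  exact Finset.prod_congr rfl fun h hh => sign_eq hF z m hsmall D hD (n + h) (hn h hh)

lemma abs_uu (H D : Finset ℕ) (n : ℕ) : |uu H D n| = 1 := by
  unfold uu
  rw [abs_pow]
  simp

end Cmp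

open Cmp in
theorem compare {F : ℕ → ℤˣ} (hF : MultS F) (H : Finset ℕ) (z m N : ℕ) (hN : 2 ≤ N)
    (hH : ∀ h ∈ H, h ≤ z) (hsmall : ∀ p : ℕ, p.Prime → p ≤ z → ∀ e ≤ m, F (p ^ e) = 1)
    (D : Finset ℕ) (hD : ∀ p ∈ D, p.Prime ∧ z < p ∧ F p = -1) :
    |LA (prodSeq F H) N - LA (uu H D) N| ≤ ∑ h ∈ H, 2 * ((1 + 3 / Real.log N) *
      EB (fun p => F p = -1 ∧ p ∉ D) z m N + 3 * h / Real.log N) := by
  set B : ℕ → Prop := fun p => F p = -1 ∧ p ∉ D with hB
  have h1 : LA (prodSeq F H) N - LA (uu H D) N = LA (fun n => prodSeq F H n - uu H D n) N := by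
    have := LA_add (fun n => prodSeq F H n - uu H D n) (fun n => uu H D n) N
    simp only [sub_add_cancel] at this
    have h2 : LA (fun n => prodSeq F H n) N = LA (prodSeq F H) N := rfl
    have h3 : LA (fun n => uu H D n) N = LA (uu H D) N := rfl
    rw [h2, h3] at this
    linarith
  rw [h1]
  refine (abs_LA_le _ N).trans ?_
  have h2 : ∀ n, |prodSeq F H n - uu H D n| ≤ ∑ j ∈ H, 2 * BI B z m (n + j) := by
    intro n
    by_cases hall : ∀ j ∈ H, ¬ Bad B z m (n + j)
    · rw [prod_eq hF H z m hH hsmall D hD n hall, sub_self, abs_zero]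
      exact Finset.sum_nonneg fun j _ => mul_nonneg (by norm_num) (BI_nonneg _ _ _ _)
    · push Not at hall
      obtain ⟨j, hj, hbad⟩ := hall
      have h3 : BI B z m (n + j) = 1 := by
        unfold BI
        rw [if_pos hbad]
      calc |prodSeq F H n - uu H D n| ≤ |prodSeq F H n| + |uu H D n| := abs_sub _ _
        _ ≤ 1 + 1 := add_le_add (abs_prodSeq _ _ _).le (abs_uu _ _ _).le
        _ = 2 * BI B z m (n + j) := by rw [h3]; norm_num
        _ ≤ _ := Finset.single_le_sum (f := fun j => 2 * BI B z m (n + j))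
            (fun i _ => mul_nonneg (by norm_num) (BI_nonneg _ _ _ _)) hj
  refine (LA_mono h2 N).trans ?_
  rw [LA_sum]
  refine Finset.sum_le_sum fun j _ => ?_
  have h4 : LA (fun n => 2 * BI B z m (n + j)) N = 2 * LA (fun n => BI B z m (n + j)) N :=
    LA_const_mul _ _ _
  rw [h4]
  apply mul_le_mul_of_nonneg_left _ (by norm_num)
  have h5 := LA_shift (u := BI B z m) (fun n => by
    rw [abs_of_nonneg (BI_nonneg _ _ _ _)]
    exact BI_le_one _ _ _ _) j N
  have h6 := (abs_le.mp h5).2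
  have h7 := LA_BI_le B z m hN
  linarith

end Pool.Agent.Lib.P4a7640D
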