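import Mathlib
import Pool.Agent.Lib.P4a7640D.LogSieve
import Pool.Agent.Lib.P4a7640D.Compare
import Pool.Agent.Lib.P4a7640D.Bessel

/-!
# Few functions in a far family have a large correlation at a given scale

Module P4a7640D.Repel.  (`log_sieve`, `compare`, `bessel` are black boxes.)

Let `η = δ^2/8`; `z₀, c, N₁, A` from `log_sieve H hne η`.  Choose `z ≥ z₀`, `z ≥` all `h ∈ H`, then
`m`, `ρ > 0`, `N₀` such that `∑ h ∈ H, 2 ((1 + 3/log N)(z 2^(-m-1) + 1/z + ρ) + 3h/log N) ≤ δ^2/8`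
and `LA 1 N ≤ 3/2` (`LA_one_le`) for `N ≥ N₀ ≥ N₁`.
For `i ≠ j` in `s` let `F n = f i n * f j n`, multiplicative (`MultS.mul`), and
`D = {p ∈ (z, N] : p prime, p^(2^c) ≤ N, F p = -1}` (`f i p ≠ f j p` iff `F p = -1`, as the values
are units of `ℤ`).  `hsmall` of `compare` holds by the second hypothesis.  `log_sieve` gives
`|LA (uu H D) N| ≤ δ^2/8`, and `compare` with the bound
`EB B z m N ≤ z * (1/2)^(m+1) + 1/z + ρ` (see `EB_le` in `P4a7640.Stable` for the first two terms; in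
the third `p ∈ (z,N]`, `F p = -1`, `p ∉ D` implies `N < p^(2^c)`) gives
`|LA (prodSeq F H) N| ≤ δ^2/4`.  Finally `prodSeq F H n = prodSeq (f i) H n * prodSeq (f j) H n`
(`prodSeq_mul_fun`), so `bessel` applies to `F i = prodSeq (f i) H`.
-/

open Finset
open Pool.Agent.Lib.P4a7640

namespace Pool.Agent.Lib.P4a7640D

lemma units_mul_of_ne {u v : ℤˣ} (h : u ≠ v) : u * v = -1 := by
  rcases Int.units_eq_one_or u with rfl | rfl <;> rcases Int.units_eq_one_or v with rfl | rfl <;>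
    simp_all

lemma units_ne_of_mul {u v : ℤˣ} (h : u * v = -1) : u ≠ v := by
  rcases Int.units_eq_one_or u with rfl | rfl <;> rcases Int.units_eq_one_or v with rfl | rfl <;>
    simp_all

/-- The bound for `EB` with separate parameters. -/
lemma EB_le' (B : ℕ → Prop) {z m N : ℕ} (hz : 0 < z) (hzN : z ≤ N) {ρ : ℝ}
    (hρ : PS B z N ≤ ρ) :
    EB B z m N ≤ (z:ℝ) * (1 / 2) ^ (m + 1) + 1 / (z:ℝ) + ρ := by
  classical
  have h1 : ∑ p ∈ (Finset.Icc 1 z).filter Nat.Prime, 1 / (p:ℝ) ^ (m + 1) ≤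
      z * (1 / 2) ^ (m + 1) := by
    calc ∑ p ∈ (Finset.Icc 1 z).filter Nat.Prime, 1 / (p:ℝ) ^ (m + 1)
        ≤ ∑ p ∈ (Finset.Icc 1 z).filter Nat.Prime, (1 / 2 : ℝ) ^ (m + 1) := by
          refine Finset.sum_le_sum fun p hp => ?_
          have hpp : p.Prime := (Finset.mem_filter.mp hp).2
          have h2 : (2:ℝ) ≤ p := by exact_mod_cast hpp.two_le
          rw [← one_div_pow]
          exact pow_le_pow_left₀ (by positivity) (one_div_le_one_div_of_le (by norm_num) h2) _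
      _ = ((Finset.Icc 1 z).filter Nat.Prime).card * (1 / 2 : ℝ) ^ (m + 1) := by
          rw [Finset.sum_const, nsmul_eq_mul]
      _ ≤ z * (1 / 2) ^ (m + 1) := by
          apply mul_le_mul_of_nonneg_right _ (by positivity)
          have : ((Finset.Icc 1 z).filter Nat.Prime).card ≤ z := by
            refine (Finset.card_filter_le _ _).trans ?_
            rw [Nat.card_Icc]
            omega
          exact_mod_cast this
  have h2 : ∑ p ∈ (Finset.Ioc z N).filter Nat.Prime, 1 / (p:ℝ) ^ 2 ≤ 1 / (z:ℝ) := by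
    calc ∑ p ∈ (Finset.Ioc z N).filter Nat.Prime, 1 / (p:ℝ) ^ 2
        ≤ ∑ p ∈ Finset.Ioc z N, 1 / (p:ℝ) ^ 2 :=
          Finset.sum_le_sum_of_subset_of_nonneg (Finset.filter_subset _ _)
            fun _ _ _ => by positivity
      _ ≤ (z:ℝ)⁻¹ - (N:ℝ)⁻¹ := by
          have := sum_Ioc_inv_sq_le_sub (α := ℝ) hz.ne' hzN
          simpa [one_div] using this
      _ ≤ 1 / (z:ℝ) := by
          rw [one_div]
          have : 0 ≤ (N:ℝ)⁻¹ := by positivity
          linarith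
  unfold PS at hρ
  unfold EB
  linarith

lemma PS_le_sum (B : ℕ → Prop) (z N : ℕ) (T : Finset ℕ)
    (h : ∀ p, z < p → p ≤ N → p.Prime → B p → p ∈ T) : PS B z N ≤ ∑ p ∈ T, (1:ℝ) / p := by
  classical
  unfold PS
  refine Finset.sum_le_sum_of_subset_of_nonneg ?_ (fun _ _ _ => by positivity)
  intro p hp
  obtain ⟨hp0, hp3, hp4⟩ := Finset.mem_filter.1 hp
  obtain ⟨hp1, hp2⟩ := mem_Ioc.1 hp0
  exact h p hp1 hp2 hp3 hp4

lemma repel_arith1 (δ K : ℝ) (hK : 0 < K) :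
    2 * (2 * (3 * (δ ^ 2 / (192 * K)))) = δ ^ 2 / (16 * K) := by
  field_simp; ring

lemma repel_arith2 (δ K : ℝ) (hK : 0 < K) :
    δ ^ 2 / (16 * K) + 2 * (δ ^ 2 / (32 * K)) = δ ^ 2 / (8 * K) := by
  field_simp; ring

lemma repel_arith3 (δ K : ℝ) (hK : 0 < K) : K * (δ ^ 2 / (8 * K)) = δ ^ 2 / 8 := by
  field_simp

theorem repel {ι : Type*} (H : Finset ℕ) (hne : H.Nonempty) (δ : ℝ) (hδ : 0 < δ) :
    ∃ (z m c N₀ : ℕ) (A ρ : ℝ), 0 < A ∧ 0 < ρ ∧ ∀ N ≥ N₀, ∀ (s : Finset ι) (f : ι → ℕ → ℤˣ),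
      (∀ i ∈ s, MultS (f i)) →
      (∀ i ∈ s, ∀ j ∈ s, ∀ p : ℕ, p.Prime → p ≤ z → ∀ e ≤ m, f i (p ^ e) = f j (p ^ e)) →
      (∀ i ∈ s, ∀ j ∈ s, i ≠ j → A ≤ ∑ p ∈ (Ioc z N).filter
        (fun p => p.Prime ∧ p ^ (2 ^ c) ≤ N ∧ f i p ≠ f j p), (1:ℝ) / p) →
      (∀ i ∈ s, ∀ j ∈ s, ∑ p ∈ (Icc 1 N).filter
        (fun p => p.Prime ∧ N < p ^ (2 ^ c) ∧ f i p ≠ f j p), (1:ℝ) / p ≤ ρ) →
      (∀ i ∈ s, δ ≤ |LA (prodSeq (f i) H) N|) → (s.card : ℝ) ≤ 8 / δ ^ 2 := by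
  classical
  obtain ⟨z₀, c, N₁, A, hA, hsieve⟩ := log_sieve H hne (δ ^ 2 / 8) (by positivity)
  have hK : (1:ℝ) ≤ H.card := by exact_mod_cast hne.card_pos
  have hK0 : (0:ℝ) < H.card := by linarith
  set τ : ℝ := δ ^ 2 / (192 * H.card) with hτ
  have hτ0 : 0 < τ := by positivity
  obtain ⟨z₁, hz₁⟩ := exists_nat_gt (1 / τ)
  set z : ℕ := z₀ + z₁ + ∑ h ∈ H, h + 1 with hz
  have hzH : ∀ h ∈ H, h ≤ z := by
    intro h hh
    have : h ≤ ∑ h ∈ H, h := Finset.single_le_sum (f := fun h : ℕ => h) (fun _ _ => Nat.zero_le _) hh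
    omega
  have hz0 : 0 < z := by omega
  have hz0R : (0:ℝ) < z := by exact_mod_cast hz0
  have hzτ : 1 / (z:ℝ) ≤ τ := by
    have h1 : (z₁:ℝ) ≤ z := by exact_mod_cast (by omega : z₁ ≤ z)
    rw [div_le_iff₀ hz0R]
    have h2 := (div_lt_iff₀ hτ0).1 hz₁
    nlinarith
  obtain ⟨m, hm⟩ : ∃ m : ℕ, (z:ℝ) * (1 / 2) ^ (m + 1) ≤ τ := by
    have h1 : Filter.Tendsto (fun m : ℕ => (z:ℝ) * (1 / 2) ^ (m + 1)) Filter.atTop (nhds 0) := by
      have h2 := (tendsto_pow_atTop_nhds_zero_of_lt_one (r := (1/2:ℝ)) (by norm_num)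
        (by norm_num)).comp (Filter.tendsto_add_atTop_nat 1)
      have h3 := h2.const_mul (z:ℝ)
      simpa using h3
    exact (h1.eventually (eventually_le_nhds hτ0)).exists
  have hlog : ∀ᶠ N : ℕ in Filter.atTop, 3 + 96 * H.card * z / δ ^ 2 ≤ Real.log N :=
    (Real.tendsto_log_atTop.comp tendsto_natCast_atTop_atTop).eventually_ge_atTop _
  obtain ⟨N₂, hN₂⟩ := Filter.eventually_atTop.1 hlog
  refine ⟨z, m, c, N₁ + N₂ + z + 2, A, τ, hA, hτ0, ?_⟩
  intro N hN s f hf hsmall hfar hlarge hbig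
  have hN2 : 2 ≤ N := by omega
  have hL := hN₂ N (by omega)
  have hL0 : 0 ≤ 96 * H.card * z / δ ^ 2 := by positivity
  have hLpos : 0 < Real.log N := by linarith
  have hLA1 : LA (fun _ => 1) N ≤ 3 / 2 := by
    refine (LA_one_le hN2).trans ?_
    have : 1 / Real.log N ≤ 1 / 2 := one_div_le_one_div_of_le (by norm_num) (by linarith)
    linarith
  refine bessel s (fun i => prodSeq (f i) H) (fun i _ n => (abs_prodSeq (f i) H n).le) N hLA1 δ hδ
    hbig ?_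
  intro i hi j hj hij
  set F : ℕ → ℤˣ := fun n => f i n * f j n with hF
  have hFm : MultS F := (hf i hi).mul (hf j hj)
  set D : Finset ℕ := (Ioc z N).filter
    (fun p => p.Prime ∧ p ^ (2 ^ c) ≤ N ∧ f i p ≠ f j p) with hD
  have hDmem : ∀ p ∈ D, p.Prime ∧ z < p ∧ p ^ (2 ^ c) ≤ N ∧ f i p ≠ f j p := by
    intro p hp
    rw [hD, mem_filter, mem_Ioc] at hp
    exact ⟨hp.2.1, hp.1.1, hp.2.2.1, hp.2.2.2⟩
  have hs := hsieve N (by omega) D (fun p hp => ⟨(hDmem p hp).1, by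
    have := (hDmem p hp).2.1
    omega, (hDmem p hp).2.2.1⟩) (hfar i hi j hj hij)
  have hcmp := compare hFm H z m N hN2 hzH (fun p hp hpz e he => by
    show f i (p ^ e) * f j (p ^ e) = 1
    rw [hsmall i hi j hj p hp hpz e he]
    exact Int.units_mul_self _) D (fun p hp =>
    ⟨(hDmem p hp).1, (hDmem p hp).2.1, units_mul_of_ne (hDmem p hp).2.2.2⟩)
  have hPS : PS (fun p => F p = -1 ∧ p ∉ D) z N ≤ τ := by
    refine le_trans (PS_le_sum _ z N _ ?_) (hlarge i hi j hj)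
    rintro p hp1 hp2 hp3 ⟨hp4, hp5⟩
    have hne' : f i p ≠ f j p := units_ne_of_mul hp4
    rw [mem_filter, mem_Icc]
    refine ⟨⟨by omega, hp2⟩, hp3, ?_, hne'⟩
    by_contra hcon
    push Not at hcon
    apply hp5
    rw [hD, mem_filter, mem_Ioc]
    exact ⟨⟨hp1, hp2⟩, hp3, hcon, hne'⟩
  have hEB := EB_le' (m := m) (fun p => F p = -1 ∧ p ∉ D) hz0 (by omega : z ≤ N) hPS
  have hEB0 : 0 ≤ EB (fun p => F p = -1 ∧ p ∉ D) z m N := by
    unfold EB
    positivity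
  have hEB' : EB (fun p => F p = -1 ∧ p ∉ D) z m N ≤ 3 * τ := by linarith
  have hsum : ∑ h ∈ H, 2 * ((1 + 3 / Real.log N) *
      EB (fun p => F p = -1 ∧ p ∉ D) z m N + 3 * h / Real.log N) ≤ δ ^ 2 / 8 := by
    have hterm : ∀ h ∈ H, 2 * ((1 + 3 / Real.log N) *
        EB (fun p => F p = -1 ∧ p ∉ D) z m N + 3 * h / Real.log N) ≤ δ ^ 2 / (8 * H.card) := by
      intro h hh
      have h1 : 3 / Real.log N ≤ 1 := by
        rw [div_le_one hLpos]; linarith
      have h2 : (1 + 3 / Real.log N) * EB (fun p => F p = -1 ∧ p ∉ D) z m N ≤ 2 * (3 * τ) := by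
        apply mul_le_mul (by linarith) hEB' hEB0 (by norm_num)
      have h3 : 3 * (h:ℝ) / Real.log N ≤ δ ^ 2 / (32 * H.card) := by
        have h4 : (h:ℝ) ≤ z := by exact_mod_cast hzH h hh
        rw [div_le_div_iff₀ hLpos (by positivity)]
        have h5 : 96 * H.card * z / δ ^ 2 ≤ Real.log N := by linarith
        rw [div_le_iff₀ (by positivity)] at h5
        calc 3 * (h:ℝ) * (32 * H.card) = 96 * H.card * h := by ring
          _ ≤ 96 * H.card * z := by gcongr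
          _ ≤ Real.log N * δ ^ 2 := h5
          _ = δ ^ 2 * Real.log N := by ring
      have h6 := repel_arith1 δ (H.card : ℝ) hK0
      have h7 := repel_arith2 δ (H.card : ℝ) hK0
      linarith
    have := Finset.sum_le_sum hterm
    rw [Finset.sum_const, nsmul_eq_mul] at this
    have h8 := repel_arith3 δ (H.card : ℝ) hK0
    rw [h8] at this
    exact this
  have hfin : |LA (prodSeq F H) N| ≤ δ ^ 2 / 4 := by
    have h1 : LA (prodSeq F H) N = (LA (prodSeq F H) N - LA (uu H D) N) + LA (uu H D) N := by ring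
    rw [h1]
    refine (abs_add_le _ _).trans ?_
    have h2 := hcmp.trans hsum
    linarith
  have e : (fun n => prodSeq (f i) H n * prodSeq (f j) H n) = prodSeq F H := by
    funext n
    rw [hF, prodSeq_mul_fun]
  show |LA (fun n => prodSeq (f i) H n * prodSeq (f j) H n) N| ≤ δ ^ 2 / 4
  rw [e]
  exact hfin

end Pool.Agent.Lib.P4a7640D
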