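import Mathlib
import Pool.Agent.Lib.P4a7640D.Repel
import Pool.Agent.Lib.P4a7640D.Fam
import Pool.Agent.Lib.P4a7640D.BlockMass

/-!
# A bounded number of bad members of a finite far family at every large scale

Module P4a7640D.FewFixed.  (`repel`, `top_mass`, everything in `Fam` are black boxes.)

Let `f i n = g n * rnd (bs κ P (S i)) n`, let `z, m, c, N₀, A, ρ` be given by `repel`, let `C` be the
constant of `top_mass`, `mass κ P k ≥ c₀` for `k ≥ k₁`.  `κ` is unbounded (the masses are positive).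
Take `M = 2^u * (8/δ^2)`, `u ≥ κ z + 1 + k₁ + 3 + C (c+4)/c₀`.
Fix the finite family `s`.  For `N` large let `hm = H.sup id`, `K = κ (N + hm)`, `q` the least natural
number with `N < q^(2^c)` and `U = range (κ z + 1) ∪ Icc (κ q) K`.  As in module `FewBad`:
`∑ κ q < k < K, mass k ≤ C (c+4)` (the primes `p` of these blocks satisfy `q < p < N + hm ≤ N^2`,
`N < p^(2^c)`), so `|U| ≤ u`.  A place `k ∉ U` with `k ≤ K` satisfies `κ z < k < κ q`; a prime `p` with
`κ p = k` then satisfies `z < p < q`, hence `p^(2^c) ≤ N` and `p ≤ N`.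
For `i ≠ j` in `s` the set `symmDiff (S i) (S j)` is infinite, so for `N` large (`κ q → ∞` as
`N → ∞`) `∑ k ∈ symmDiff (S i) (S j), κ z < k < κ q, mass k ≥ A`; this is at most the far sum in
`repel`.  Partition the bad members at scale `N` according to `S i ∩ U` (at most `2^|U|` classes);
`repel` applies to every class: primes `p ≤ z` and primes `p ≤ N` with `N < p^(2^c)` have
`κ p ∈ U`, so `f i` and `f j` agree at (powers of) `p`.
-/

open Finset Filter Topology
open Pool.Agent.Lib.P4a7640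

namespace Pool.Agent.Lib.P4a7640D

namespace FewFixedAux

open Classical in
/-- the mass of finitely many blocks as a sum over primes -/
theorem sum_mass {κ : ℕ → ℕ} {P : Set ℕ} (T : Finset ℕ) (N : ℕ)
    (h : ∀ p : ℕ, κ p ∈ T → p ≤ N) :
    ∑ k ∈ T, mass κ P k =
      ∑ p ∈ (Icc 1 N).filter (fun p => p.Prime ∧ p ∈ P ∧ κ p ∈ T), (1:ℝ) / p := by
  rw [← Finset.sum_fiberwise_of_maps_to (s := (Icc 1 N).filter
    (fun p => p.Prime ∧ p ∈ P ∧ κ p ∈ T)) (t := T) (g := κ)
    (fun p hp => (Finset.mem_filter.1 hp).2.2.2)]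
  refine Finset.sum_congr rfl fun k hk => ?_
  rw [mass_eq (n := N) (fun p hp => h p (by rw [hp]; exact hk))]
  refine Finset.sum_congr ?_ fun _ _ => rfl
  ext p
  simp only [Finset.mem_filter]
  constructor
  · rintro ⟨h1, h2, h3, h4⟩
    exact ⟨⟨h1, h2, h3, by rw [h4]; exact hk⟩, h4⟩
  · rintro ⟨⟨h1, h2, h3, _⟩, h4⟩
    exact ⟨h1, h2, h3, h4⟩

theorem fam_prime (κ : ℕ → ℕ) (P : Set ℕ) (g : ℕ → ℤˣ) (S : Set ℕ) {p : ℕ} (hp : p.Prime) :
    g p * rnd (bs κ P S) p = g p * bs κ P S p := by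
  have := rnd_prime_pow (bs κ P S) hp 1
  rw [pow_one, pow_one] at this
  rw [this]

theorem fam_ne_iff (κ : ℕ → ℕ) (P : Set ℕ) (g : ℕ → ℤˣ) (S S' : Set ℕ) {p : ℕ}
    (hp : p.Prime) :
    g p * rnd (bs κ P S) p ≠ g p * rnd (bs κ P S') p ↔ p ∈ P ∧ κ p ∈ symmDiff S S' := by
  classical
  rw [fam_prime κ P g S hp, fam_prime κ P g S' hp, ← bs_ne_iff]
  exact not_congr (mul_right_inj _)

end FewFixedAux

open FewFixedAux in
open Classical in
theorem few_fixed {ι : Type*} {κ : ℕ → ℕ} (hκ : Monotone κ) (P : Set ℕ) {g : ℕ → ℤˣ}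
    (hg : MultS g) {c₀ : ℝ} (hc₀ : 0 < c₀) (hmass : ∀ᶠ k in atTop, c₀ ≤ mass κ P k)
    (H : Finset ℕ) (hne : H.Nonempty) (δ : ℝ) (hδ : 0 < δ) :
    ∃ M : ℝ, ∀ (s : Finset ι) (S : ι → Set ℕ),
      (∀ i ∈ s, ∀ j ∈ s, i ≠ j → (symmDiff (S i) (S j)).Infinite) →
      ∀ᶠ N in atTop, ((s.filter fun i =>
        δ ≤ |LA (prodSeq (fun n => g n * rnd (bs κ P (S i)) n) H) N|).card : ℝ) ≤ M := by
  obtain ⟨z, m, c, N₀, A, ρ, hA, hρ, hrep⟩ := repel (ι := ι) H hne δ hδ
  obtain ⟨C, hC, htop⟩ := top_mass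
  obtain ⟨k₁, hk₁⟩ := eventually_atTop.1 hmass
  obtain ⟨u, hu⟩ := exists_nat_ge (C * (c + 4) / c₀)
  refine ⟨2 ^ (κ z + 1 + (2 + k₁ + u)) * (8 / δ ^ 2), ?_⟩
  intro s S hinf
  -- `κ q` is large if `N` is large and `N < q^(2^c)`
  have hbig : ∀ B : ℕ, ∀ᶠ N in atTop, ∀ q : ℕ, N < q ^ (2 ^ c) → B < κ q := by
    intro B
    have h1 : 0 < mass κ P (max (B + 1) k₁) := hc₀.trans_le (hk₁ _ (le_max_right _ _))
    obtain ⟨p₀, _, _, hp₀⟩ := exists_of_mass_pos h1
    filter_upwards [eventually_ge_atTop (p₀ ^ (2 ^ c))] with N hN q hq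
    have h2 : p₀ ^ (2 ^ c) < q ^ (2 ^ c) := lt_of_le_of_lt hN hq
    have h3 : p₀ < q := lt_of_pow_lt_pow_left₀ _ (Nat.zero_le _) h2
    have h4 := hκ h3.le
    have h5 : B + 1 ≤ max (B + 1) k₁ := le_max_left _ _
    omega
  -- different members are far apart at large scales
  have hfar : ∀ i ∈ s, ∀ j ∈ s, i ≠ j → ∀ᶠ N in atTop, A ≤ ∑ p ∈ (Ioc z N).filter
      (fun p => p.Prime ∧ p ^ (2 ^ c) ≤ N ∧
        (fun n => g n * rnd (bs κ P (S i)) n) p ≠ (fun n => g n * rnd (bs κ P (S j)) n) p),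
        (1:ℝ) / p := by
    intro i hi j hj hij
    have hD := (hinf i hi j hj hij).sdiff (Set.finite_Iic (max (κ z) k₁))
    obtain ⟨n, hn⟩ := exists_nat_ge (A / c₀)
    obtain ⟨T, hT, hTc⟩ := hD.exists_subset_card_eq n
    have hTk : ∀ k ∈ T, k ∈ symmDiff (S i) (S j) ∧ κ z < k ∧ k₁ < k := by
      intro k hk
      have h1 := hT (Finset.mem_coe.2 hk)
      have h2 : ¬ k ≤ max (κ z) k₁ := h1.2
      exact ⟨h1.1, lt_of_le_of_lt (le_max_left _ _) (not_le.1 h2),
        lt_of_le_of_lt (le_max_right _ _) (not_le.1 h2)⟩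
    filter_upwards [hbig (T.sup id)] with N hN
    have hpN : ∀ p : ℕ, κ p ∈ T → p ^ (2 ^ c) ≤ N := by
      intro p hp
      by_contra hcon
      have h1 := hN p (not_le.1 hcon)
      have h2 : κ p ≤ T.sup id := Finset.le_sup (f := id) hp
      omega
    have hpN' : ∀ p : ℕ, κ p ∈ T → p ≤ N := fun p hp =>
      (Nat.le_self_pow (by positivity) p).trans (hpN p hp)
    have h1 : A ≤ ∑ k ∈ T, mass κ P k := by
      have h2 : ∑ k ∈ T, c₀ ≤ ∑ k ∈ T, mass κ P k :=
        Finset.sum_le_sum fun k hk => hk₁ k (hTk k hk).2.2.le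
      rw [Finset.sum_const, hTc, nsmul_eq_mul] at h2
      rw [div_le_iff₀ hc₀] at hn
      linarith
    rw [sum_mass T N hpN'] at h1
    refine h1.trans (Finset.sum_le_sum_of_subset_of_nonneg ?_ fun p _ _ => by positivity)
    intro p hp
    simp only [Finset.mem_filter, Finset.mem_Icc, Finset.mem_Ioc] at hp ⊢
    obtain ⟨⟨_, h3⟩, h4, h5, h6⟩ := hp
    refine ⟨⟨?_, h3⟩, h4, hpN p h6, ?_⟩
    · by_contra hcon
      have h7 := hκ (not_lt.1 hcon)
      have h8 := (hTk _ h6).2.1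
      omega
    · exact (fam_ne_iff κ P g (S i) (S j) h4).2 ⟨h5, (hTk _ h6).1⟩
  have hfar' : ∀ᶠ N in atTop, ∀ i ∈ s, ∀ j ∈ s, i ≠ j → A ≤ ∑ p ∈ (Ioc z N).filter
      (fun p => p.Prime ∧ p ^ (2 ^ c) ≤ N ∧
        (fun n => g n * rnd (bs κ P (S i)) n) p ≠ (fun n => g n * rnd (bs κ P (S j)) n) p),
        (1:ℝ) / p := by
    rw [Filter.eventually_all_finset]
    intro i hi
    rw [Filter.eventually_all_finset]
    intro j hj
    by_cases hij : i = j
    · exact Filter.Eventually.of_forall fun N h => absurd hij h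
    · filter_upwards [hfar i hi j hj hij] with N hN _
      exact hN
  filter_upwards [hfar', eventually_ge_atTop N₀] with N hN hN0
  -- the uncontrolled places
  have hex : ∃ q : ℕ, N < q ^ (2 ^ c) :=
    ⟨N + 1, (Nat.lt_succ_self N).trans_le (Nat.le_self_pow (by positivity) _)⟩
  obtain ⟨q, hq1, hq2⟩ : ∃ q : ℕ, N < q ^ (2 ^ c) ∧ ∀ p : ℕ, N < p ^ (2 ^ c) → q ≤ p :=
    ⟨Nat.find hex, Nat.find_spec hex, fun p hp => Nat.find_min' hex hp⟩
  set T : Finset ℕ := (Ioo (κ q) (κ N)).filter fun k => k₁ ≤ k with hT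
  have hTcard : T.card ≤ u := by
    have h1 : ∀ p : ℕ, κ p ∈ T → p ≤ N := by
      intro p hp
      simp only [hT, Finset.mem_filter, Finset.mem_Ioo] at hp
      by_contra hcon
      have := hκ (not_le.1 hcon).le
      omega
    have h2 := sum_mass (κ := κ) (P := P) T N h1
    have h3 : ∑ p ∈ (Icc 1 N).filter (fun p => p.Prime ∧ p ∈ P ∧ κ p ∈ T), (1:ℝ) / p ≤
        C * (c + 4) := by
      apply htop c N
      intro p hp
      simp only [Finset.mem_filter, Finset.mem_Icc, hT, Finset.mem_Ioo] at hp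
      obtain ⟨⟨h4, h5⟩, h6, _, ⟨h7, _⟩, _⟩ := hp
      refine ⟨h6, h5.trans (Nat.le_self_pow (by norm_num) _), ?_⟩
      have h8 : q < p := by
        by_contra hcon
        have := hκ (not_lt.1 hcon)
        omega
      exact hq1.trans_le (Nat.pow_le_pow_left h8.le _)
    have h4 : ∑ k ∈ T, c₀ ≤ ∑ k ∈ T, mass κ P k :=
      Finset.sum_le_sum fun k hk => hk₁ k (Finset.mem_filter.1 hk).2
    rw [Finset.sum_const, nsmul_eq_mul, h2] at h4
    have h5 : (T.card : ℝ) ≤ C * (c + 4) / c₀ := by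
      rw [le_div_iff₀ hc₀]
      linarith
    exact_mod_cast h5.trans hu
  set V : Finset ℕ := range (κ z + 1) ∪ Icc (κ q) (κ N) with hV
  have hVcard : V.card ≤ κ z + 1 + (2 + k₁ + u) := by
    have h1 : Icc (κ q) (κ N) ⊆ ({κ q, κ N} ∪ range k₁) ∪ T := by
      intro k hk
      simp only [hT, Finset.mem_union, Finset.mem_insert, Finset.mem_singleton, Finset.mem_range,
        Finset.mem_filter, Finset.mem_Ioo, Finset.mem_Icc] at hk ⊢
      omega
    have h2 : (Icc (κ q) (κ N)).card ≤ 2 + k₁ + u := by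
      refine (Finset.card_le_card h1).trans ((Finset.card_union_le _ _).trans ?_)
      have h3 : ({κ q, κ N} ∪ range k₁ : Finset ℕ).card ≤ 2 + k₁ := by
        refine (Finset.card_union_le _ _).trans ?_
        rw [Finset.card_range]
        exact Nat.add_le_add_right Finset.card_le_two _
      omega
    refine (Finset.card_union_le _ _).trans ?_
    rw [Finset.card_range]
    omega
  -- classes
  set Bd : Finset ι := s.filter fun i =>
    δ ≤ |LA (prodSeq (fun n => g n * rnd (bs κ P (S i)) n) H) N| with hBd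
  have hmaps : ∀ i ∈ Bd, V.filter (fun k => k ∈ S i) ∈ V.powerset := by
    intro i _
    rw [Finset.mem_powerset]
    exact Finset.filter_subset _ _
  have hclass : ∀ W ∈ V.powerset,
      ((Bd.filter fun i => V.filter (fun k => k ∈ S i) = W).card : ℝ) ≤ 8 / δ ^ 2 := by
    intro W _
    have hsame : ∀ i ∈ Bd.filter (fun i => V.filter (fun k => k ∈ S i) = W),
        ∀ j ∈ Bd.filter (fun i => V.filter (fun k => k ∈ S i) = W), ∀ k ∈ V,
        (k ∈ S i ↔ k ∈ S j) := by
      intro i hi j hj k hk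
      have h1 := (Finset.mem_filter.1 hi).2
      have h2 := (Finset.mem_filter.1 hj).2
      have h3 := h1.trans h2.symm
      have h4 := Finset.ext_iff.1 h3 k
      simpa [hk] using h4
    have hbs : ∀ i ∈ Bd.filter (fun i => V.filter (fun k => k ∈ S i) = W),
        ∀ j ∈ Bd.filter (fun i => V.filter (fun k => k ∈ S i) = W), ∀ p : ℕ, κ p ∈ V →
        bs κ P (S i) p = bs κ P (S j) p := by
      intro i hi j hj p hp
      by_contra hcon
      have h1 := ((bs_ne_iff κ P (S i) (S j) p).1 hcon).2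
      have h2 := hsame i hi j hj _ hp
      rw [Set.mem_symmDiff] at h1
      tauto
    refine hrep N hN0 _ (fun i n => g n * rnd (bs κ P (S i)) n) ?_ ?_ ?_ ?_ ?_
    · intro i _
      exact fam_multS hg _
    · intro i hi j hj p hp hpz e _
      have h1 : κ p ∈ V := by
        rw [hV, Finset.mem_union, Finset.mem_range]
        left
        have := hκ hpz
        omega
      rw [rnd_prime_pow _ hp, rnd_prime_pow _ hp, hbs i hi j hj p h1]
    · intro i hi j hj hij
      have hi' := (Finset.mem_filter.1 (Finset.mem_filter.1 hi).1).1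
      have hj' := (Finset.mem_filter.1 (Finset.mem_filter.1 hj).1).1
      convert hN i hi' j hj' hij using 2
    · intro i hi j hj
      rw [Finset.sum_eq_zero]
      · exact hρ.le
      · intro p hp
        exfalso
        simp only [Finset.mem_filter, Finset.mem_Icc] at hp
        obtain ⟨⟨_, h2⟩, h3, h4, h5⟩ := hp
        have h6 : κ p ∈ V := by
          rw [hV, Finset.mem_union, Finset.mem_Icc]
          right
          exact ⟨hκ (hq2 p h4), hκ h2⟩
        apply h5
        rw [fam_prime κ P g (S i) h3, fam_prime κ P g (S j) h3, hbs i hi j hj p h6]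
    · intro i hi
      exact (Finset.mem_filter.1 (Finset.mem_filter.1 hi).1).2
  have hcard : Bd.card = ∑ W ∈ V.powerset,
      (Bd.filter fun i => V.filter (fun k => k ∈ S i) = W).card :=
    Finset.card_eq_sum_card_fiberwise hmaps
  have h8 : 0 < 8 / δ ^ 2 := by positivity
  calc (Bd.card : ℝ) = ∑ W ∈ V.powerset,
        ((Bd.filter fun i => V.filter (fun k => k ∈ S i) = W).card : ℝ) := by
        rw [hcard]; push_cast; rfl
    _ ≤ ∑ W ∈ V.powerset, 8 / δ ^ 2 := Finset.sum_le_sum hclass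
    _ = 2 ^ V.card * (8 / δ ^ 2) := by
        rw [Finset.sum_const, Finset.card_powerset, nsmul_eq_mul]; push_cast; rfl
    _ ≤ 2 ^ (κ z + 1 + (2 + k₁ + u)) * (8 / δ ^ 2) := by
        apply mul_le_mul_of_nonneg_right _ h8.le
        exact pow_le_pow_right₀ (by norm_num) hVcard

end Pool.Agent.Lib.P4a7640D
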