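import Mathlib
import Pool.Agent.Lib.P4a7640D.Base

/-!
# Upper logarithmic density

Module P4a7640D.UpDens.

`LD S K = (∑ N ∈ S, N ≤ K, 1/N) / log K`.

`diag`: choose `K₀ < K₁ < ...` recursively (all `≥ 3`) with `LD (Bd j) K_j < 1/(j+1)` and
`(1 + log K_{j-1}) / log K_j ≤ 1/(j+1)` (possible by `∃ᶠ`).  Let `S` be the set of all `N` such that
`N ∉ Bd j` for the `j ≥ 1` with `K_{j-1} < N ≤ K_j` (all `N ≤ K₀` may be put in `S`).  Then
`LD S K_j ≥ (∑ N ≤ K_j, 1/N - ∑ N ≤ K_{j-1}, 1/N) / log K_j - LD (Bd j) K_j ≥ 1 - 2/(j+1)`, using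
`log K ≤ ∑ N ≤ K, 1/N ≤ 1 + log K` (`log_le_sum_inv`, `sum_inv_le`).  For `N ∈ S`, `N > K_m`: `N` lies
in some `(K_{j-1}, K_j]` with `j > m`, so `N ∉ Bd j ⊇ Bd m`.
(Similar arguments are in `P4a7640.SubDens`: `dens_SX`, `XK`.)

`finite_net`: let `Y = {x | ∀ᶠ K in atTop, η ≤ LD (bad x) K}`.  If `s ⊆ Y` is finite and pairwise
`far`, then for `K` large `s.card * η ≤ ∑ x ∈ s, LD (bad x) K = (∑ N ≤ K, #{x ∈ s : N ∈ bad x} / N) /
log K ≤ (C_s + M (1 + log K)) / log K`, which tends to `M`; hence `s.card ≤ M / η`.  Take a pairwise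
far finite `s ⊆ Y` of maximal cardinality (`Nat.findGreatest` or well-foundedness).
-/

open Finset Filter Topology
open Pool.Agent.Lib.P4a7640

namespace Pool.Agent.Lib.P4a7640D

open Classical in
/-- the logarithmic density of `S` up to `K` -/
noncomputable def LD (S : Set ℕ) (K : ℕ) : ℝ :=
  (∑ N ∈ (Icc 1 K).filter (fun N => N ∈ S), (1:ℝ) / N) / Real.log K

namespace UpDensAux

lemma sum_eq_harmonic (K : ℕ) : (∑ N ∈ Icc 1 K, (1:ℝ) / N) = (harmonic K : ℝ) := by
  rw [harmonic_eq_sum_Icc]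
  push_cast
  refine Finset.sum_congr rfl fun i _ => ?_
  rw [one_div]

lemma log_le (K : ℕ) (hK : 1 ≤ K) : Real.log K ≤ ∑ N ∈ Icc 1 K, (1:ℝ) / N := by
  rw [sum_eq_harmonic]
  refine le_trans ?_ (log_add_one_le_harmonic K)
  have h1 : (0:ℝ) < K := by exact_mod_cast hK
  exact Real.log_le_log h1 (by push_cast; linarith)

lemma le_log (K : ℕ) : ∑ N ∈ Icc 1 K, (1:ℝ) / N ≤ 1 + Real.log K := by
  rw [sum_eq_harmonic]
  exact harmonic_le_one_add_log K

lemma sum_union_le (A B : Finset ℕ) : ∑ N ∈ A ∪ B, (1:ℝ) / N ≤ ∑ N ∈ A, (1:ℝ) / N +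
    ∑ N ∈ B, (1:ℝ) / N := by
  classical
  rw [← sum_union_inter]
  have : (0:ℝ) ≤ ∑ N ∈ A ∩ B, (1:ℝ) / N := sum_nonneg fun N _ => by positivity
  linarith

lemma exists_step (Bd : ℕ → Set ℕ)
    (h : ∀ m, ∀ η : ℝ, 0 < η → ∃ᶠ K in atTop, LD (Bd m) K < η) (j a : ℕ) :
    ∃ K : ℕ, a < K ∧ 3 ≤ K ∧ LD (Bd j) K < 1 / ((j:ℝ) + 1) ∧
      (1 + Real.log a) * ((j:ℝ) + 1) ≤ Real.log K := by
  have h1 := h j (1 / ((j:ℝ) + 1)) (by positivity)
  have h2 : ∀ᶠ K : ℕ in atTop, (1 + Real.log a) * ((j:ℝ) + 1) ≤ Real.log K :=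
    (Real.tendsto_log_atTop.comp tendsto_natCast_atTop_atTop).eventually_ge_atTop _
  obtain ⟨K, ⟨hK1, hK2⟩, hK3, hK4⟩ := ((h1.and_eventually h2).and_eventually
    ((eventually_gt_atTop a).and (eventually_ge_atTop 3))).exists
  exact ⟨K, hK3, hK4, hK1, hK2⟩

end UpDensAux

theorem diag (Bd : ℕ → Set ℕ) (hmono : Monotone Bd)
    (h : ∀ m, ∀ η : ℝ, 0 < η → ∃ᶠ K in atTop, LD (Bd m) K < η) :
    ∃ S : Set ℕ, (∀ ε : ℝ, 0 < ε → ∃ᶠ K in atTop, 1 - ε ≤ LD S K) ∧
      ∀ m, ∀ᶠ N in atTop, N ∈ S → N ∉ Bd m := by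
  classical
  choose f hf using UpDensAux.exists_step Bd h
  obtain ⟨Ks, hKs0, hKs⟩ : ∃ Ks : ℕ → ℕ, Ks 0 = 3 ∧ ∀ j, Ks (j + 1) = f (j + 1) (Ks j) :=
    ⟨fun n => Nat.rec 3 (fun j a => f (j + 1) a) n, rfl, fun _ => rfl⟩
  have hlt : ∀ j, Ks j < Ks (j + 1) := fun j => by
    rw [hKs]
    exact (hf (j + 1) (Ks j)).1
  have hmonoK : StrictMono Ks := strictMono_nat_of_lt_succ hlt
  have hK3 : ∀ j, 3 ≤ Ks j := fun j => by
    rw [← hKs0]
    exact hmonoK.monotone (Nat.zero_le j)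
  have hLD : ∀ j, LD (Bd (j + 1)) (Ks (j + 1)) < 1 / ((j:ℝ) + 2) := fun j => by
    have := (hf (j + 1) (Ks j)).2.2.1
    rw [← hKs] at this
    push_cast at this
    rw [show (j:ℝ) + 2 = (j:ℝ) + 1 + 1 by ring]
    exact this
  have hlog : ∀ j, (1 + Real.log ((Ks j : ℕ) : ℝ)) * ((j:ℝ) + 2) ≤
      Real.log ((Ks (j + 1) : ℕ) : ℝ) := fun j => by
    have := (hf (j + 1) (Ks j)).2.2.2
    rw [← hKs] at this
    push_cast at this
    rw [show (j:ℝ) + 2 = (j:ℝ) + 1 + 1 by ring]
    exact this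
  have huniq : ∀ i j N, Ks i < N → N ≤ Ks (i + 1) → Ks j < N → N ≤ Ks (j + 1) → i = j := by
    intro i j N h1 h2 h3 h4
    have a1 : i < j + 1 := hmonoK.lt_iff_lt.1 (lt_of_lt_of_le h1 h4)
    have a2 : j < i + 1 := hmonoK.lt_iff_lt.1 (lt_of_lt_of_le h3 h2)
    omega
  refine ⟨{N | ∀ j, Ks j < N → N ≤ Ks (j + 1) → N ∉ Bd (j + 1)}, ?_, ?_⟩
  · intro ε hε
    rw [frequently_atTop]
    intro b
    obtain ⟨j, hj⟩ := exists_nat_gt (2 / ε)
    set i := max j b with hi
    refine ⟨Ks (i + 1), ?_, ?_⟩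
    · have h1 : i + 1 ≤ Ks (i + 1) := hmonoK.id_le (i + 1)
      have h2 : b ≤ i := le_max_right _ _
      exact (h2.trans (Nat.le_succ i)).trans h1
    · set K := Ks (i + 1) with hK
      set K' := Ks i with hK'
      have hKK : K' < K := hlt i
      have hlogK : 0 < Real.log K := Real.log_pos (by
        have : (3:ℝ) ≤ K := by exact_mod_cast hK3 (i + 1)
        linarith)
      have hi2 : 2 / ((i:ℝ) + 2) ≤ ε := by
        have h1 : (j:ℝ) ≤ i := by exact_mod_cast le_max_left j b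
        have h2 : 2 / ε < (i:ℝ) + 2 := by linarith
        rw [div_lt_iff₀ hε] at h2
        rw [div_le_iff₀ (by positivity)]
        linarith
      have hsplit : ∑ N ∈ Icc 1 K, (1:ℝ) / N ≤
          ∑ N ∈ (Icc 1 K).filter (fun N => N ∈ {N | ∀ j, Ks j < N → N ≤ Ks (j + 1) →
            N ∉ Bd (j + 1)}), (1:ℝ) / N +
          (∑ N ∈ Icc 1 K', (1:ℝ) / N +
          ∑ N ∈ (Icc 1 K).filter (fun N => N ∈ Bd (i + 1)), (1:ℝ) / N) := by
        have hsub : Icc 1 K ⊆ (Icc 1 K).filter (fun N => N ∈ {N | ∀ j, Ks j < N →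
            N ≤ Ks (j + 1) → N ∉ Bd (j + 1)}) ∪ (Icc 1 K' ∪
            (Icc 1 K).filter (fun N => N ∈ Bd (i + 1))) := by
          intro N hN
          rw [mem_union, mem_union, mem_filter, mem_filter]
          rw [mem_Icc] at hN
          by_cases h1 : N ≤ K'
          · exact Or.inr (Or.inl (mem_Icc.2 ⟨hN.1, h1⟩))
          · by_cases h2 : N ∈ Bd (i + 1)
            · exact Or.inr (Or.inr ⟨mem_Icc.2 hN, h2⟩)
            · left
              refine ⟨mem_Icc.2 hN, ?_⟩
              intro j' h3 h4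
              have : i = j' := huniq i j' N (not_le.1 h1) hN.2 h3 h4
              rw [← this]
              exact h2
        have hnn : ∀ (A : Finset ℕ), ∀ N ∈ A, (0:ℝ) ≤ 1 / N := fun A N _ => by positivity
        refine (sum_le_sum_of_subset_of_nonneg hsub (fun N _ _ => by positivity)).trans ?_
        refine (UpDensAux.sum_union_le _ _).trans ?_
        gcongr
        exact UpDensAux.sum_union_le _ _
      have h1 := UpDensAux.log_le K (by have := hK3 (i + 1); omega)
      have h2 := UpDensAux.le_log K'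
      have h3 := hLD i
      have h4 := hlog i
      unfold LD at h3 ⊢
      rw [div_lt_iff₀ hlogK] at h3
      rw [le_div_iff₀ hlogK]
      have hi0 : (0:ℝ) < (i:ℝ) + 2 := by positivity
      have h5 : 1 + Real.log K' ≤ Real.log K / ((i:ℝ) + 2) := by
        rw [le_div_iff₀ hi0]
        exact h4
      have h6 : (1 - ε) * Real.log K ≤ (1 - 2 / ((i:ℝ) + 2)) * Real.log K :=
        mul_le_mul_of_nonneg_right (by linarith) hlogK.le
      have h7 : (1 - 2 / ((i:ℝ) + 2)) * Real.log K =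
          Real.log K - Real.log K / ((i:ℝ) + 2) - 1 / ((i:ℝ) + 2) * Real.log K := by
        field_simp
        ring
      linarith
  · intro m
    filter_upwards [eventually_gt_atTop (Ks m)] with N hN hS
    have hex : ∃ j, N ≤ Ks j := ⟨N, hmonoK.id_le N⟩
    have h1 := Nat.find_spec hex
    have h0 : Nat.find hex ≠ 0 := by
      intro h0
      rw [h0] at h1
      have := hmonoK.monotone (Nat.zero_le m)
      omega
    obtain ⟨j, hj⟩ := Nat.exists_eq_succ_of_ne_zero h0
    have h2 : Ks j < N := by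
      have := Nat.find_min hex (m := j) (by omega)
      omega
    rw [hj] at h1
    have h3 := hS j h2 h1
    have h4 : m ≤ j := by
      by_contra hcon
      have h5 : j + 1 ≤ m := by omega
      have h6 := hmonoK.monotone h5
      have : N ≤ Ks m := h1.trans h6
      omega
    exact fun h5 => h3 (hmono (by omega) h5)


open Classical in
theorem finite_net {X : Type*} (bad : X → Set ℕ) (far : X → X → Prop)
    (hsym : ∀ x y, far x y → far y x) (M : ℝ)
    (hM : ∀ s : Finset X, (∀ x ∈ s, ∀ y ∈ s, x ≠ y → far x y) →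
      ∀ᶠ N in atTop, ((s.filter fun x => N ∈ bad x).card : ℝ) ≤ M) (η : ℝ) (hη : 0 < η) :
    ∃ s : Finset X, ∀ x : X, (∀ᶠ K in atTop, η ≤ LD (bad x) K) → ∃ y ∈ s, y = x ∨ ¬ far y x := by
  have key : ∀ s : Finset X, (∀ x ∈ s, ∀ᶠ K in atTop, η ≤ LD (bad x) K) →
      (∀ x ∈ s, ∀ y ∈ s, x ≠ y → far x y) → (s.card : ℝ) * η ≤ M := by
    intro s hs hfar
    obtain ⟨N0, hN0⟩ := eventually_atTop.1 (hM s hfar)
    have hM0 : 0 ≤ M := le_trans (Nat.cast_nonneg _) (hN0 N0 le_rfl)
    set C : ℝ := ∑ N ∈ Icc 1 N0, (s.card : ℝ) / N with hC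
    have hC0 : 0 ≤ C := sum_nonneg fun N _ => by positivity
    have h1 : ∀ᶠ K : ℕ in atTop, (s.card : ℝ) * η ≤ (C + M) / Real.log K + M := by
      have h2 : ∀ᶠ K in atTop, ∀ x ∈ s, η ≤ LD (bad x) K :=
        (eventually_all_finset s).2 hs
      filter_upwards [h2, eventually_ge_atTop 3] with K hK hK3
      have hlogK : 0 < Real.log K := Real.log_pos (by
        have : (3:ℝ) ≤ K := by exact_mod_cast hK3
        linarith)
      have h3 : (s.card : ℝ) * η ≤ ∑ x ∈ s, LD (bad x) K := by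
        rw [← nsmul_eq_mul, ← sum_const]
        exact sum_le_sum hK
      refine h3.trans ?_
      have h4 : ∑ x ∈ s, LD (bad x) K =
          (∑ N ∈ Icc 1 K, ((s.filter fun x => N ∈ bad x).card : ℝ) / N) / Real.log K := by
        unfold LD
        rw [← sum_div]
        congr 1
        simp only [sum_filter]
        rw [sum_comm]
        refine sum_congr rfl fun N _ => ?_
        rw [← sum_filter, sum_const, nsmul_eq_mul]
        ring
      rw [h4]
      have h5 : ∑ N ∈ Icc 1 K, ((s.filter fun x => N ∈ bad x).card : ℝ) / N ≤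
          C + M * (1 + Real.log K) := by
        have h6 : ∀ N ∈ Icc 1 K, ((s.filter fun x => N ∈ bad x).card : ℝ) / N ≤
            (if N ≤ N0 then (s.card : ℝ) / N else 0) + M * (1 / N) := by
          intro N _
          by_cases hN : N ≤ N0
          · rw [if_pos hN]
            have h7 : ((s.filter fun x => N ∈ bad x).card : ℝ) ≤ s.card := by
              exact_mod_cast card_filter_le _ _
            have h8 : ((s.filter fun x => N ∈ bad x).card : ℝ) / N ≤ (s.card : ℝ) / N := by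
              gcongr
            have h9 : 0 ≤ M * (1 / (N:ℝ)) := by positivity
            linarith
          · rw [if_neg hN, zero_add]
            have h7 := hN0 N (by omega)
            rw [mul_one_div]
            gcongr
        refine (sum_le_sum h6).trans ?_
        rw [sum_add_distrib, ← mul_sum, ← sum_filter]
        have h7 : ∑ N ∈ (Icc 1 K).filter (fun N => N ≤ N0), (s.card : ℝ) / N ≤ C := by
          rw [hC]
          refine sum_le_sum_of_subset_of_nonneg ?_ (fun N _ _ => by positivity)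
          intro N hN
          rw [mem_filter, mem_Icc] at hN
          exact mem_Icc.2 ⟨hN.1.1, hN.2⟩
        have h8 := mul_le_mul_of_nonneg_left (UpDensAux.le_log K) hM0
        linarith
      calc (∑ N ∈ Icc 1 K, ((s.filter fun x => N ∈ bad x).card : ℝ) / N) / Real.log K
          ≤ (C + M * (1 + Real.log K)) / Real.log K := by gcongr
        _ = (C + M) / Real.log K + M := by
          field_simp
          ring
    have h2 : Tendsto (fun K : ℕ => (C + M) / Real.log K + M) atTop (𝓝 M) := by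
      have h3 : Tendsto (fun K : ℕ => (C + M) / Real.log K) atTop (𝓝 0) :=
        (Real.tendsto_log_atTop.comp tendsto_natCast_atTop_atTop).const_div_atTop _
      simpa using h3.add_const M
    exact ge_of_tendsto h2 h1
  set P : ℕ → Prop := fun n => ∃ s : Finset X, (∀ x ∈ s, ∀ᶠ K in atTop, η ≤ LD (bad x) K) ∧
    (∀ x ∈ s, ∀ y ∈ s, x ≠ y → far x y) ∧ s.card = n with hP
  have hP0 : P 0 := ⟨∅, by simp, by simp, rfl⟩
  have hb : ∀ n, P n → n ≤ ⌊M / η⌋₊ := by
    rintro n ⟨s, hs, hfar, rfl⟩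
    apply Nat.le_floor
    rw [le_div_iff₀ hη]
    exact key s hs hfar
  obtain ⟨s, hs, hfar, hcard⟩ := Nat.findGreatest_spec (P := P) (Nat.zero_le ⌊M / η⌋₊) hP0
  refine ⟨s, fun x hx => ?_⟩
  by_contra hcon
  push Not at hcon
  have hxs : x ∉ s := fun h => (hcon x h).1 rfl
  have hP1 : P (s.card + 1) := by
    refine ⟨insert x s, ?_, ?_, card_insert_of_notMem hxs⟩
    · intro y hy
      rcases mem_insert.1 hy with rfl | hy
      · exact hx
      · exact hs y hy
    · intro y hy z hz hyz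
      rcases mem_insert.1 hy with hy' | hy' <;> rcases mem_insert.1 hz with hz' | hz'
      · exact absurd (hy'.trans hz'.symm) hyz
      · rw [hy']
        exact hsym _ _ (hcon z hz').2
      · rw [hz']
        exact (hcon y hy').2
      · exact hfar y hy' z hz' hyz
  have h1 := Nat.le_findGreatest (hb _ hP1) hP1
  omega
end Pool.Agent.Lib.P4a7640D
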