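import Mathlib
import Pool.Agent.Lib.P4a7640D.FewFixed
import Pool.Agent.Lib.P4a7640D.UpDens
import Pool.Agent.Lib.P4a7640D.Digits

/-!
# All but countably many members have the Bernoulli system as a Furstenberg system
-/

open Finset Filter Topology
open Pool.Agent.Lib.P4a7640

namespace Pool.Agent.Lib.P4a7640D

theorem good_of_dens (f : ℕ → ℤˣ)
    (h : ∀ m : ℕ, ∀ η : ℝ, 0 < η → ∃ᶠ K in atTop,
      LD {N | ∃ H ∈ (range (m + 1)).powerset, H.Nonempty ∧
        1 / ((m:ℝ) + 1) ≤ |LA (prodSeq f H) N|} K < η) :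
    ∃ S : Set ℕ, (∀ ε : ℝ, 0 < ε → ∃ᶠ K in atTop, 1 - ε ≤ LD S K) ∧
      VanishL (atTop ⊓ 𝓟 S) f := by
  set Bd : ℕ → Set ℕ := fun m => {N | ∃ H ∈ (range (m + 1)).powerset, H.Nonempty ∧
        1 / ((m:ℝ) + 1) ≤ |LA (prodSeq f H) N|} with hBd
  have hmono : Monotone Bd := by
    intro m m' hmm N hN
    obtain ⟨H, hH, hne, hle⟩ := hN
    refine ⟨H, ?_, hne, le_trans ?_ hle⟩
    · rw [Finset.mem_powerset] at hH ⊢
      exact hH.trans (Finset.range_mono (by omega))
    · apply one_div_le_one_div_of_le (by positivity)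
      have : (m:ℝ) ≤ m' := by exact_mod_cast hmm
      linarith
  obtain ⟨S, hS, hev⟩ := diag Bd hmono h
  refine ⟨S, hS, ?_⟩
  intro H hne
  rw [Metric.tendsto_nhds]
  intro ε hε
  obtain ⟨j, hj⟩ := exists_nat_one_div_lt hε
  set m := max j (H.sup id) with hm
  have hHm : H ∈ (range (m + 1)).powerset := by
    rw [Finset.mem_powerset]
    intro h hh
    rw [Finset.mem_range, Nat.lt_succ_iff]
    exact (Finset.le_sup (f := id) hh).trans (le_max_right _ _)
  have hle : 1 / ((m:ℝ) + 1) < ε := by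
    refine lt_of_le_of_lt ?_ hj
    apply one_div_le_one_div_of_le (by positivity)
    have : (j:ℝ) ≤ m := by exact_mod_cast le_max_left _ _
    linarith
  rw [eventually_inf_principal]
  filter_upwards [hev m] with N hN hNS
  have h1 := hN hNS
  rw [dist_zero_right, Real.norm_eq_abs]
  by_contra hcon
  rw [not_lt] at hcon
  exact h1 ⟨H, hHm, hne, hle.le.trans hcon⟩

open Classical in
theorem countable_exceptions {κ : ℕ → ℕ} (hκ : Monotone κ) (P : Set ℕ) {g : ℕ → ℤˣ}
    (hg : MultS g) {c₀ : ℝ} (hc₀ : 0 < c₀) (hmass : ∀ᶠ k in atTop, c₀ ≤ mass κ P k) :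
    {α : ℝ | ¬ ∃ S : Set ℕ, (∀ ε : ℝ, 0 < ε → ∃ᶠ K in atTop, 1 - ε ≤ LD S K) ∧
      VanishL (atTop ⊓ 𝓟 S) fun n => g n * rnd (bs κ P (dig α)) n}.Countable := by
  set f : ℝ → ℕ → ℤˣ := fun α n => g n * rnd (bs κ P (dig α)) n with hf
  set bad : ℕ → ℝ → Set ℕ := fun m α => {N | ∃ H ∈ (range (m + 1)).powerset, H.Nonempty ∧
        1 / ((m:ℝ) + 1) ≤ |LA (prodSeq (f α) H) N|} with hbad
  set far : ℝ → ℝ → Prop := fun α β => (symmDiff (dig α) (dig β)).Infinite with hfar
  have hsym : ∀ x y, far x y → far y x := by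
    intro x y h
    simp only [hfar] at h ⊢
    rwa [symmDiff_comm]
  have hnet : ∀ m l : ℕ, ∃ s : Finset ℝ, ∀ x : ℝ,
      (∀ᶠ K in atTop, 1 / ((l:ℝ) + 1) ≤ LD (bad m x) K) → ∃ y ∈ s, y = x ∨ ¬ far y x := by
    intro m l
    have hδ : (0:ℝ) < 1 / ((m:ℝ) + 1) := by positivity
    have hM : ∀ H : Finset ℕ, ∃ M : ℝ, H.Nonempty → ∀ (s : Finset ℝ),
        (∀ i ∈ s, ∀ j ∈ s, i ≠ j → far i j) →
        ∀ᶠ N in atTop, ((s.filter fun i =>
          1 / ((m:ℝ) + 1) ≤ |LA (prodSeq (f i) H) N|).card : ℝ) ≤ M := by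
      intro H
      by_cases hne : H.Nonempty
      · obtain ⟨M, hM⟩ := few_fixed (ι := ℝ) hκ P hg hc₀ hmass H hne _ hδ
        exact ⟨M, fun _ s hs => hM s dig hs⟩
      · exact ⟨0, fun h => absurd h hne⟩
    choose M hM using hM
    refine finite_net (bad m) far hsym
      (∑ H ∈ (range (m + 1)).powerset.filter (fun H => H.Nonempty), M H) ?_ _ (by positivity)
    intro s hs
    have hall : ∀ᶠ N in atTop, ∀ H ∈ (range (m + 1)).powerset.filter (fun H => H.Nonempty),
        ((s.filter fun i => 1 / ((m:ℝ) + 1) ≤ |LA (prodSeq (f i) H) N|).card : ℝ) ≤ M H := by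
      rw [eventually_all_finset]
      intro H hH
      exact hM H (Finset.mem_filter.mp hH).2 s hs
    filter_upwards [hall] with N hN
    have hsub : (s.filter fun x => N ∈ bad m x) ⊆
        ((range (m + 1)).powerset.filter (fun H => H.Nonempty)).biUnion
          fun H => s.filter fun i => 1 / ((m:ℝ) + 1) ≤ |LA (prodSeq (f i) H) N| := by
      intro x hx
      rw [Finset.mem_filter] at hx
      obtain ⟨hxs, H, hH, hne, hle⟩ := hx
      rw [Finset.mem_biUnion]
      exact ⟨H, Finset.mem_filter.mpr ⟨hH, hne⟩, Finset.mem_filter.mpr ⟨hxs, hle⟩⟩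
    have c1 : ((s.filter fun x => N ∈ bad m x).card : ℝ)
        ≤ ((((range (m + 1)).powerset.filter (fun H => H.Nonempty)).biUnion
          fun H => s.filter fun i => 1 / ((m:ℝ) + 1) ≤ |LA (prodSeq (f i) H) N|).card : ℝ) := by
      exact_mod_cast Finset.card_le_card hsub
    have c2 : ((((range (m + 1)).powerset.filter (fun H => H.Nonempty)).biUnion
          fun H => s.filter fun i => 1 / ((m:ℝ) + 1) ≤ |LA (prodSeq (f i) H) N|).card : ℝ) ≤
        ((∑ H ∈ (range (m + 1)).powerset.filter (fun H => H.Nonempty),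
          (s.filter fun i => 1 / ((m:ℝ) + 1) ≤ |LA (prodSeq (f i) H) N|).card : ℕ) : ℝ) := by
      exact_mod_cast Finset.card_biUnion_le
    have c3 : ((∑ H ∈ (range (m + 1)).powerset.filter (fun H => H.Nonempty),
          (s.filter fun i => 1 / ((m:ℝ) + 1) ≤ |LA (prodSeq (f i) H) N|).card : ℕ) : ℝ) ≤
        ∑ H ∈ (range (m + 1)).powerset.filter (fun H => H.Nonempty), M H := by
      push_cast
      exact Finset.sum_le_sum hN
    have c4 := (c1.trans c2).trans c3
    refine le_trans (le_of_eq ?_) c4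
    congr!
  choose s hs using hnet
  have hcount : (⋃ m : ℕ, ⋃ l : ℕ, ⋃ y ∈ (s m l : Set ℝ), ({y} ∪
      {β : ℝ | (symmDiff (dig y) (dig β)).Finite})).Countable := by
    refine Set.countable_iUnion fun m => Set.countable_iUnion fun l => ?_
    refine Set.Countable.biUnion (Finset.countable_toSet _) fun y _ => ?_
    exact (Set.countable_singleton y).union (countable_class y)
  refine hcount.mono ?_
  intro α hα
  by_contra hcon
  simp only [Set.mem_iUnion, not_exists] at hcon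
  apply hα
  apply good_of_dens
  intro m η hη hnot
  obtain ⟨l, hl⟩ := exists_nat_one_div_lt hη
  have h1 : ∀ᶠ K in atTop, 1 / ((l:ℝ) + 1) ≤ LD (bad m α) K := by
    filter_upwards [hnot] with K hK
    rw [not_lt] at hK
    exact hl.le.trans hK
  obtain ⟨y, hy, hyy⟩ := hs m l α h1
  refine hcon m l y hy ?_
  rcases hyy with h | h
  · left
    exact h.symm
  · right
    simp only [hfar, Set.not_infinite] at h
    exact h

end Pool.Agent.Lib.P4a7640D
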