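import Mathlib
import Pool.Agent.Lib.P4a7640D.Repel
import Pool.Agent.Lib.P4a7640D.BlockMass

/-!
# Repulsion without conditions at the small primes, and its two versions for fixed finite families
-/

open Finset Filter Topology
open Pool.Agent.Lib.P4a7640

namespace Pool.Agent.Lib.P4a7640D

namespace FewCoreAux

open Classical in
/-- mass of the primes `p ≤ N` below the level -/
noncomputable def lowM (B : ℕ → Prop) (c N : ℕ) : ℝ :=
  ∑ p ∈ (Icc 1 N).filter (fun p => p.Prime ∧ p ^ (2 ^ c) ≤ N ∧ B p), (1:ℝ) / p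

open Classical in
/-- mass of the primes `p ≤ N` above the level -/
noncomputable def topM (B : ℕ → Prop) (c N : ℕ) : ℝ :=
  ∑ p ∈ (Icc 1 N).filter (fun p => p.Prime ∧ N < p ^ (2 ^ c) ∧ B p), (1:ℝ) / p

lemma lowM_eq (B : ℕ → Prop) (c N : ℕ)
    [DecidablePred fun p : ℕ => p.Prime ∧ p ^ (2 ^ c) ≤ N ∧ B p] :
    lowM B c N = ∑ p ∈ (Icc 1 N).filter (fun p : ℕ => p.Prime ∧ p ^ (2 ^ c) ≤ N ∧ B p),
      (1:ℝ) / p := by
  unfold lowM
  congr!

lemma topM_eq (B : ℕ → Prop) (c N : ℕ)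
    [DecidablePred fun p : ℕ => p.Prime ∧ N < p ^ (2 ^ c) ∧ B p] :
    topM B c N = ∑ p ∈ (Icc 1 N).filter (fun p : ℕ => p.Prime ∧ N < p ^ (2 ^ c) ∧ B p),
      (1:ℝ) / p := by
  unfold topM
  congr!

lemma PS_split (B : ℕ → Prop) (c N : ℕ) : PS B 0 N = lowM B c N + topM B c N := by
  classical
  rw [lowM_eq, topM_eq]
  unfold PS
  rw [← Finset.sum_filter_add_sum_filter_not _ (fun p => p ^ (2 ^ c) ≤ N)]
  congr 1
  · apply Finset.sum_congr _ (fun _ _ => rfl)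
    ext p
    simp only [Finset.mem_filter, Finset.mem_Ioc, Finset.mem_Icc]
    constructor
    · rintro ⟨⟨⟨h1, h2⟩, h3, h4⟩, h5⟩
      exact ⟨⟨h1, h2⟩, h3, h5, h4⟩
    · rintro ⟨⟨h1, h2⟩, h3, h5, h4⟩
      exact ⟨⟨⟨h1, h2⟩, h3, h4⟩, h5⟩
  · apply Finset.sum_congr _ (fun _ _ => rfl)
    ext p
    simp only [Finset.mem_filter, Finset.mem_Ioc, Finset.mem_Icc, not_le]
    constructor
    · rintro ⟨⟨⟨h1, h2⟩, h3, h4⟩, h5⟩
      exact ⟨⟨h1, h2⟩, h3, h5, h4⟩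
    · rintro ⟨⟨h1, h2⟩, h3, h5, h4⟩
      exact ⟨⟨⟨h1, h2⟩, h3, h4⟩, h5⟩

open Classical in
/-- mass of the primes in `(z, N]` below the level -/
noncomputable def lowZ (B : ℕ → Prop) (c z N : ℕ) : ℝ :=
  ∑ p ∈ (Ioc z N).filter (fun p => p.Prime ∧ p ^ (2 ^ c) ≤ N ∧ B p), (1:ℝ) / p

open Classical in
lemma low_le (B : ℕ → Prop) (c z N : ℕ) : lowM B c N ≤ lowZ B c z N + z := by
  unfold lowM lowZ
  have hsub : (Icc 1 N).filter (fun p => p.Prime ∧ p ^ (2 ^ c) ≤ N ∧ B p) ⊆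
      (Ioc z N).filter (fun p => p.Prime ∧ p ^ (2 ^ c) ≤ N ∧ B p) ∪ Icc 1 z := by
    intro p hp
    simp only [Finset.mem_filter, Finset.mem_Icc, Finset.mem_union, Finset.mem_Ioc] at hp ⊢
    by_cases h : p ≤ z
    · exact Or.inr ⟨hp.1.1, h⟩
    · exact Or.inl ⟨⟨by omega, hp.1.2⟩, hp.2⟩
  refine (Finset.sum_le_sum_of_subset_of_nonneg hsub (fun p _ _ => by positivity)).trans ?_
  have h1 := Finset.sum_union_inter (s₁ := (Ioc z N).filter
    (fun p => p.Prime ∧ p ^ (2 ^ c) ≤ N ∧ B p)) (s₂ := Icc 1 z) (f := fun p : ℕ => (1:ℝ) / p)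
  have h2 : 0 ≤ ∑ p ∈ (Ioc z N).filter (fun p => p.Prime ∧ p ^ (2 ^ c) ≤ N ∧ B p) ∩ Icc 1 z,
      (1:ℝ) / p := Finset.sum_nonneg fun p _ => by positivity
  have h3 : ∑ p ∈ Icc 1 z, (1:ℝ) / p ≤ z := by
    calc ∑ p ∈ Icc 1 z, (1:ℝ) / p ≤ ∑ p ∈ Icc 1 z, (1:ℝ) := by
          refine Finset.sum_le_sum fun p hp => ?_
          rw [Finset.mem_Icc] at hp
          have : (1:ℝ) ≤ p := by exact_mod_cast hp.1
          rw [div_le_one (by linarith)]
          exact this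
      _ = z := by simp
  linarith

lemma PS_mono_right (B : ℕ → Prop) {Y N : ℕ} (h : Y ≤ N) : PS B 0 Y ≤ PS B 0 N := by
  classical
  unfold PS
  apply Finset.sum_le_sum_of_subset_of_nonneg
  · intro p hp
    rw [Finset.mem_filter, Finset.mem_Ioc] at hp ⊢
    exact ⟨⟨hp.1.1, hp.1.2.trans h⟩, hp.2⟩
  · intro p _ _
    positivity

end FewCoreAux

open FewCoreAux

open Classical in
theorem few_core {ι : Type*} (H : Finset ℕ) (hne : H.Nonempty) (δ : ℝ) (hδ : 0 < δ) :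
    ∃ (c N₀ : ℕ) (M A ρ : ℝ), 0 < A ∧ 0 < ρ ∧ ∀ N ≥ N₀, ∀ (s : Finset ι) (f : ι → ℕ → ℤˣ),
      (∀ i ∈ s, MultS (f i)) →
      (∀ i ∈ s, ∀ j ∈ s, i ≠ j → A ≤ ∑ p ∈ (Icc 1 N).filter
        (fun p => p.Prime ∧ p ^ (2 ^ c) ≤ N ∧ f i p ≠ f j p), (1:ℝ) / p) →
      (∀ i ∈ s, ∀ j ∈ s, ∑ p ∈ (Icc 1 N).filter
        (fun p => p.Prime ∧ N < p ^ (2 ^ c) ∧ f i p ≠ f j p), (1:ℝ) / p ≤ ρ) →
      ((s.filter fun i => δ ≤ |LA (prodSeq (f i) H) N|).card : ℝ) ≤ M := by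
  obtain ⟨z, m, c, N₀, A', ρ, hA', hρ, hrep⟩ := repel (ι := ι) H hne δ hδ
  refine ⟨c, N₀, (2:ℝ) ^ ((z + 1) * (m + 1)) * (8 / δ ^ 2), A' + z, ρ, by positivity, hρ, ?_⟩
  intro N hN s f hmul hfar htop
  set s' := s.filter fun i => δ ≤ |LA (prodSeq (f i) H) N| with hs'
  set prs := (range (z + 1)) ×ˢ (range (m + 1)) with hprs
  set pat : ι → Finset (ℕ × ℕ) := fun i => prs.filter fun q => f i (q.1 ^ q.2) = 1 with hpat
  have hmaps : ∀ i ∈ s', pat i ∈ prs.powerset := fun i _ =>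
    Finset.mem_powerset.mpr (Finset.filter_subset _ _)
  have hcard := Finset.card_eq_sum_card_fiberwise hmaps
  have hbound : ∀ T ∈ prs.powerset, ((s'.filter fun i => pat i = T).card : ℝ) ≤ 8 / δ ^ 2 := by
    intro T _
    apply hrep N hN (s'.filter fun i => pat i = T) f
    · intro i hi
      exact hmul i (Finset.mem_filter.mp (Finset.mem_filter.mp hi).1).1
    · intro i hi j hj p hp hpz e he
      have h1 : pat i = pat j :=
        (Finset.mem_filter.mp hi).2.trans (Finset.mem_filter.mp hj).2.symm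
      have h2 : f i (p ^ e) = 1 ↔ f j (p ^ e) = 1 := by
        have hmem : (p, e) ∈ prs := by
          rw [hprs, Finset.mem_product, Finset.mem_range, Finset.mem_range]
          exact ⟨by omega, by omega⟩
        have h3 : (p, e) ∈ pat i ↔ (p, e) ∈ pat j := by rw [h1]
        simp only [hpat, Finset.mem_filter, hmem, true_and] at h3
        exact h3
      rcases Int.units_eq_one_or (f i (p ^ e)) with h | h
      · rw [h, h2.mp h]
      · rcases Int.units_eq_one_or (f j (p ^ e)) with h' | h'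
        · rw [h2.mpr h', h']
        · rw [h, h']
    · intro i hi j hj hij
      have h1 := hfar i (Finset.mem_filter.mp (Finset.mem_filter.mp hi).1).1 j
        (Finset.mem_filter.mp (Finset.mem_filter.mp hj).1).1 hij
      have h2 := low_le (fun p => f i p ≠ f j p) c z N
      have h3 : lowM (fun p => f i p ≠ f j p) c N = ∑ p ∈ (Icc 1 N).filter
          (fun p => p.Prime ∧ p ^ (2 ^ c) ≤ N ∧ f i p ≠ f j p), (1:ℝ) / p := by
        unfold lowM
        congr!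
      have h4 : lowZ (fun p => f i p ≠ f j p) c z N = ∑ p ∈ (Ioc z N).filter
          (fun p => p.Prime ∧ p ^ (2 ^ c) ≤ N ∧ f i p ≠ f j p), (1:ℝ) / p := by
        unfold lowZ
        congr!
      rw [← h3] at h1
      rw [← h4]
      linarith
    · intro i hi j hj
      exact htop i (Finset.mem_filter.mp (Finset.mem_filter.mp hi).1).1 j
        (Finset.mem_filter.mp (Finset.mem_filter.mp hj).1).1
    · intro i hi
      exact (Finset.mem_filter.mp (Finset.mem_filter.mp hi).1).2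
  have hcardp : prs.powerset.card = 2 ^ ((z + 1) * (m + 1)) := by
    rw [Finset.card_powerset, hprs, Finset.card_product, Finset.card_range, Finset.card_range]
  calc (s'.card : ℝ) = ((∑ T ∈ prs.powerset, (s'.filter fun i => pat i = T).card : ℕ) : ℝ) := by
        exact_mod_cast hcard
    _ = ∑ T ∈ prs.powerset, ((s'.filter fun i => pat i = T).card : ℝ) := by push_cast; rfl
    _ ≤ ∑ T ∈ prs.powerset, 8 / δ ^ 2 := Finset.sum_le_sum hbound
    _ = (2:ℝ) ^ ((z + 1) * (m + 1)) * (8 / δ ^ 2) := by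
        rw [Finset.sum_const, hcardp, nsmul_eq_mul]
        push_cast
        ring

open Classical in
theorem few_gen {ι : Type*} (H : Finset ℕ) (hne : H.Nonempty) (δ : ℝ) (hδ : 0 < δ) :
    ∃ M : ℝ, ∀ (s : Finset ι) (f : ι → ℕ → ℤˣ), (∀ i ∈ s, MultS (f i)) →
      (∀ i ∈ s, ∀ j ∈ s, i ≠ j →
        Tendsto (fun N => PS (fun p => f i p ≠ f j p) 0 N) atTop atTop) →
      (∀ i ∈ s, ∀ j ∈ s, ∀ c : ℕ, Tendsto (fun N : ℕ => ∑ p ∈ (Icc 1 N).filter
        (fun p => p.Prime ∧ N < p ^ (2 ^ c) ∧ f i p ≠ f j p), (1:ℝ) / p) atTop (𝓝 0)) →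
      ∀ᶠ N in atTop, ((s.filter fun i => δ ≤ |LA (prodSeq (f i) H) N|).card : ℝ) ≤ M := by
  obtain ⟨c, N₀, M, A, ρ, hA, hρ, hcore⟩ := few_core (ι := ι) H hne δ hδ
  refine ⟨M, fun s f hmul hfar htop => ?_⟩
  have h1 : ∀ᶠ N : ℕ in atTop, ∀ i ∈ s, ∀ j ∈ s, ∑ p ∈ (Icc 1 N).filter
        (fun p => p.Prime ∧ N < p ^ (2 ^ c) ∧ f i p ≠ f j p), (1:ℝ) / p ≤ ρ := by
    rw [eventually_all_finset]
    intro i hi
    rw [eventually_all_finset]
    intro j hj
    exact (htop i hi j hj c).eventually_le_const hρ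
  have h2 : ∀ᶠ N : ℕ in atTop, ∀ i ∈ s, ∀ j ∈ s, i ≠ j →
      A + ρ ≤ PS (fun p => f i p ≠ f j p) 0 N := by
    rw [eventually_all_finset]
    intro i hi
    rw [eventually_all_finset]
    intro j hj
    by_cases hij : i = j
    · exact Eventually.of_forall fun N h => absurd hij h
    · filter_upwards [(hfar i hi j hj hij).eventually_ge_atTop (A + ρ)] with N hN _
      exact hN
  filter_upwards [h1, h2, eventually_ge_atTop N₀] with N hN1 hN2 hN3
  refine hcore N hN3 s f hmul ?_ hN1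
  intro i hi j hj hij
  have h3 := hN2 i hi j hj hij
  have h4 := hN1 i hi j hj
  have h5 : topM (fun p => f i p ≠ f j p) c N = ∑ p ∈ (Icc 1 N).filter
        (fun p => p.Prime ∧ N < p ^ (2 ^ c) ∧ f i p ≠ f j p), (1:ℝ) / p := by
    unfold topM
    congr!
  have h6 : lowM (fun p => f i p ≠ f j p) c N = ∑ p ∈ (Icc 1 N).filter
        (fun p => p.Prime ∧ p ^ (2 ^ c) ≤ N ∧ f i p ≠ f j p), (1:ℝ) / p := by
    unfold lowM
    congr!
  rw [← h5] at h4
  rw [← h6]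
  rw [PS_split _ c N] at h3
  linarith

open Classical in
theorem few_patt {ι : Type*} (H : Finset ℕ) (hne : H.Nonempty) (δ : ℝ) (hδ : 0 < δ) :
    ∃ M A : ℝ, ∀ (s : Finset ι) (f : ι → ℕ → ℤˣ) (Y : ℕ), (∀ i ∈ s, MultS (f i)) →
      (∀ i ∈ s, ∀ j ∈ s, ∀ p : ℕ, p.Prime → Y < p → f i p = f j p) →
      (∀ i ∈ s, ∀ j ∈ s, i ≠ j → A ≤ PS (fun p => f i p ≠ f j p) 0 Y) →
      ∀ᶠ N in atTop, ((s.filter fun i => δ ≤ |LA (prodSeq (f i) H) N|).card : ℝ) ≤ M := by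
  obtain ⟨c, N₀, M, A, ρ, hA, hρ, hcore⟩ := few_core (ι := ι) H hne δ hδ
  refine ⟨M, A, fun s f Y hmul hagree hfar => ?_⟩
  filter_upwards [eventually_ge_atTop N₀, eventually_ge_atTop (Y ^ (2 ^ c)),
    eventually_ge_atTop Y] with N hN1 hN2 hN3
  have htop0 : ∀ i ∈ s, ∀ j ∈ s, ∑ p ∈ (Icc 1 N).filter
        (fun p => p.Prime ∧ N < p ^ (2 ^ c) ∧ f i p ≠ f j p), (1:ℝ) / p = 0 := by
    intro i hi j hj
    apply Finset.sum_eq_zero
    intro p hp
    rw [Finset.mem_filter] at hp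
    exfalso
    apply hp.2.2.2
    apply hagree i hi j hj p hp.2.1
    by_contra hcon
    rw [not_lt] at hcon
    have := Nat.pow_le_pow_left hcon (2 ^ c)
    have h3 := hp.2.2.1
    omega
  refine hcore N hN1 s f hmul ?_ (fun i hi j hj => by rw [htop0 i hi j hj]; exact hρ.le)
  intro i hi j hj hij
  have h3 := hfar i hi j hj hij
  have h5 : topM (fun p => f i p ≠ f j p) c N = ∑ p ∈ (Icc 1 N).filter
        (fun p => p.Prime ∧ N < p ^ (2 ^ c) ∧ f i p ≠ f j p), (1:ℝ) / p := by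
    unfold topM
    congr!
  have h6 : lowM (fun p => f i p ≠ f j p) c N = ∑ p ∈ (Icc 1 N).filter
        (fun p => p.Prime ∧ p ^ (2 ^ c) ≤ N ∧ f i p ≠ f j p), (1:ℝ) / p := by
    unfold lowM
    congr!
  have h7 : PS (fun p => f i p ≠ f j p) 0 Y ≤ PS (fun p => f i p ≠ f j p) 0 N :=
    PS_mono_right _ hN3
  rw [PS_split _ c N, h5, htop0 i hi j hj, add_zero, h6] at h7
  exact h3.trans h7

end Pool.Agent.Lib.P4a7640D
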