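import Mathlib
import Pool.Agent.Lib.P4a7640D.Base

/-!
# Truncation of a multiplicative function at `y`

Module P4a7640D.Patt.

`tru u y n = u (gcd n (QQ y y))`, `QQ y y = (y!)^y` (library `P4a7640.Periodic`).
* `tru_multS`: for coprime `a, b`: `gcd (a b) Q = gcd a Q * gcd b Q` (`Nat.Coprime.gcd_mul`) with
  coprime factors.
* `tru_le`: a prime `p ≤ y` divides `y!`, so `p ∣ Q` and `gcd p Q = p` (`y ≥ p ≥ 2`, so `y ≥ 1`).
* `tru_gt`: a prime `p > y` does not divide `Q`, `gcd p Q = 1`, `u 1 = 1` (`MultS.map_one`).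
* `tru_finite`: `tru u y` is determined by the values of `u` at the divisors of `QQ y y`.
* `tru_close`: this is `LA_diff_le` (`P4a7640.Stable`) with `q = 1`, `χ = 1`, `m = y`: `PP (f g) 1 y y k =
  sg (tru (f g) y k)` for `k ≥ 1` (the character mod 1 is identically `1`), `sgC (f p * g p) ≠ 1` iff
  `f p ≠ g p`, and `∏ j ∈ H, sg (tru (f g) y (n + j)) * prodSeq g H n = prodSeq (g * tru (f g) y) H n`
  (`prodSeq_mul_fun`); then `EB_le` bounds `EB`.
-/

open Finset Filter Topology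
open Pool.Agent.Lib.P4a7640

namespace Pool.Agent.Lib.P4a7640D

/-- truncation at `y` -/
def tru (u : ℕ → ℤˣ) (y : ℕ) : ℕ → ℤˣ := fun n => u (Nat.gcd n (QQ y y))

theorem tru_multS {u : ℕ → ℤˣ} (hu : MultS u) (y : ℕ) : MultS (tru u y) := by
  intro m n hm hn hc
  unfold tru
  have h1 : Nat.gcd (m * n) (QQ y y) = Nat.gcd m (QQ y y) * Nat.gcd n (QQ y y) := by
    rw [Nat.gcd_comm, Nat.Coprime.gcd_mul _ hc, Nat.gcd_comm _ m, Nat.gcd_comm _ n]
  rw [h1]
  refine hu _ _ (Nat.gcd_pos_of_pos_left _ hm) (Nat.gcd_pos_of_pos_left _ hn) ?_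
  exact Nat.Coprime.coprime_dvd_left (Nat.gcd_dvd_left _ _)
    (Nat.Coprime.coprime_dvd_right (Nat.gcd_dvd_left _ _) hc)

theorem tru_le (u : ℕ → ℤˣ) {y p : ℕ} (hp : p.Prime) (hpy : p ≤ y) : tru u y p = u p := by
  unfold tru
  have h1 : p ∣ QQ y y := by
    unfold QQ
    have h2 : y ≠ 0 := by
      have := hp.pos
      omega
    exact (hp.dvd_factorial.mpr hpy).trans (dvd_pow_self _ h2)
  rw [Nat.gcd_eq_left h1]

theorem tru_gt {u : ℕ → ℤˣ} (hu : MultS u) {y p : ℕ} (hp : p.Prime) (hpy : y < p) :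
    tru u y p = 1 := by
  unfold tru
  have h1 : ¬ p ∣ QQ y y := by
    intro h
    have h2 := hp.dvd_factorial.mp (hp.dvd_of_dvd_pow h)
    omega
  have h2 : Nat.gcd p (QQ y y) = 1 := (Nat.Prime.coprime_iff_not_dvd hp).mpr h1
  rw [h2, hu.map_one]

theorem tru_finite (y : ℕ) : {v : ℕ → ℤˣ | ∃ u : ℕ → ℤˣ, MultS u ∧ v = tru u y}.Finite := by
  have hfin : (Set.range fun w : ((QQ y y).divisors → ℤˣ) => fun n : ℕ =>
      if h : Nat.gcd n (QQ y y) ∈ (QQ y y).divisors then w ⟨Nat.gcd n (QQ y y), h⟩ else 1).Finite :=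
    Set.finite_range _
  refine hfin.subset ?_
  rintro v ⟨u, -, rfl⟩
  refine ⟨fun d => u d, ?_⟩
  funext n
  have h1 : Nat.gcd n (QQ y y) ∈ (QQ y y).divisors :=
    Nat.mem_divisors.mpr ⟨Nat.gcd_dvd_right _ _, (QQ_pos y y).ne'⟩
  simp only [h1, dif_pos]
  rfl

lemma PP_one_eq (h : ℕ → ℤˣ) (y k : ℕ) :
    PP h (1 : DirichletCharacter ℂ 1) y y k = sg (tru h y k) := by
  unfold PP tru
  have h1 : IsUnit (((k / Nat.gcd k (QQ y y) : ℕ)) : ZMod 1) := by
    rw [Subsingleton.elim (((k / Nat.gcd k (QQ y y) : ℕ)) : ZMod 1) 1]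
    exact isUnit_one
  rw [MulChar.one_apply h1]
  simp

theorem tru_close {f g : ℕ → ℤˣ} (hf : MultS f) (hg : MultS g) (H : Finset ℕ) {y N : ℕ}
    (hy : 0 < y) (hyN : y ≤ N) (hN : 2 ≤ N) :
    |LA (prodSeq f H) N - LA (prodSeq (fun n => g n * tru (fun k => f k * g k) y n) H) N| ≤
      ∑ j ∈ H, 2 * ((1 + 3 / Real.log N) * ((y:ℝ) * (1 / 2) ^ y + 1 / (y:ℝ) +
        PS (fun p => f p ≠ g p) y N) + 3 * j / Real.log N) := by
  have h1 := LA_diff_le (hf.mul hg) (1 : DirichletCharacter ℂ 1) y y H hN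
  have h2 : (fun n => (∏ j ∈ H, PP (fun n => f n * g n) (1 : DirichletCharacter ℂ 1) y y (n + j)) *
      prodSeq g H n) = prodSeq (fun n => g n * tru (fun k => f k * g k) y n) H := by
    funext n
    rw [prodSeq_mul_fun, mul_comm]
    congr 1
    unfold prodSeq
    exact Finset.prod_congr rfl fun j _ => PP_one_eq _ _ _
  rw [h2] at h1
  refine h1.trans (Finset.sum_le_sum fun j _ => ?_)
  have hl : 0 < Real.log N := Real.log_pos (by exact_mod_cast hN)
  have h3 : (fun p : ℕ => sgC (f p * g p) ≠ (1 : DirichletCharacter ℂ 1) (p : ZMod 1)) =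
      fun p => f p ≠ g p := by
    funext p
    have h4 : IsUnit ((p : ℕ) : ZMod 1) := by
      rw [Subsingleton.elim ((p : ℕ) : ZMod 1) 1]
      exact isUnit_one
    rw [MulChar.one_apply h4]
    rcases Int.units_eq_one_or (f p) with h5 | h5 <;> rcases Int.units_eq_one_or (g p) with h6 | h6 <;>
      rw [h5, h6] <;> norm_num [sgC]
  rw [h3]
  have h4 := EB_le (fun p => f p ≠ g p) hy hyN
  have h5 : 0 < 1 + 3 / Real.log N := by positivity
  have h6 := mul_le_mul_of_nonneg_left h4 h5.le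
  linarith

end Pool.Agent.Lib.P4a7640D
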