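import Mathlib
import Pool.Agent.Lib.P4a7640D.FewCore
import Pool.Agent.Lib.P4a7640D.Patt
import Pool.Agent.Lib.P4a7640D.UpDens

/-!
# Bad patterns stay in a bounded region, for most scales

Module P4a7640D.Annuli.  (`few_patt`, `Patt`, `UpDens` are black boxes.)

`GG g m ρ y` is the set of the scales `N` at which some function `g * v`, `v = tru u y` with `u`
multiplicative and `∑ p ≤ y, u p = -1, 1/p > ρ`, has a correlation with shifts in `range (m+1)` of
absolute value at least `1/(m+1)`.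

`annuli`: let `𝒰` be an ultrafilter on `ℕ` with `𝒰 ≤ atTop`.  Fix `m` and `η > 0`.  Claim: there is `ρ`
such that for all `y`, `∀ᶠ K in 𝒰, LD (GG g m ρ y) K < η`.  Suppose not; since `𝒰` is an ultrafilter
(`Ultrafilter.eventually_not`), for every `ρ` there is `y` with `∀ᶠ K in 𝒰, η ≤ LD (GG g m ρ y) K`.
For each of the finitely many nonempty `H ⊆ range (m+1)` let `M_H, A_H` be given by `few_patt`
(`δ = 1/(m+1)`, index type `ℕ`); let `M = ∑ M_H` (each `M_H ≥ 0`), `A ≥` all `A_H`, `A > 0`.  Choose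
recursively `ρ 0 = 0`, `y i` for `ρ i`, and `ρ (i+1) = ρ i + ∑ p ≤ y i, 1/p + A`.  Let `L > (M+1)/η`.
For `N` large and `i < L` with `N ∈ GG g m (ρ i) (y i)` choose a witness `v_i = tru u_i (y i)`, so
`ρ i < d(v_i) ≤ ∑ p ≤ y i, 1/p ≤ ρ (i+1) - A`, where `d(v) = ∑ {p : v p = -1} 1/p`; hence for `i < j`
(both occurring at `N`) `∑ {p : v_i p ≠ v_j p} 1/p ≥ d(v_j) - d(v_i) ≥ A`, and `v_i p = v_j p = 1`
for `p > Y := max y_i`.
The `v_i` are from a fixed finite set (`tru_finite`), so `few_patt` applied to each of the finitely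
many choices of finite families `(v_i)_{i ∈ s}`, `s ⊆ range L`, holds for all `N ≥` one `N₁`: for
`N ≥ N₁` at most `M` of the indices `i < L` satisfy `N ∈ GG g m (ρ i) (y i)` (each bad index is bad for
some `H`).
So `∑ i < L, LD (GG g m (ρ i) (y i)) K ≤ (C + M (1 + log K))/log K < M + 1` for `K` large, but it is
`≥ L η` for `𝒰`-many `K`; contradiction.
(The multiplicativity of `g * v_i`: `MultS.mul`, `tru_multS`.)
-/

open Finset Filter Topology
open Pool.Agent.Lib.P4a7640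

namespace Pool.Agent.Lib.P4a7640D

/-- scales at which a pattern on the primes `≤ y` of weight `> ρ` is bad -/
def GG (g : ℕ → ℤˣ) (m : ℕ) (ρ : ℝ) (y : ℕ) : Set ℕ :=
  {N | ∃ u : ℕ → ℤˣ, MultS u ∧ ρ < PS (fun p => u p ≠ 1) 0 y ∧
    ∃ H ∈ (range (m + 1)).powerset, H.Nonempty ∧
      1 / ((m:ℝ) + 1) ≤ |LA (prodSeq (fun n => g n * tru u y n) H) N|}

namespace AnnuliAux

lemma PS_nonneg (B : ℕ → Prop) (y N : ℕ) : 0 ≤ PS B y N := by
  unfold PS
  exact Finset.sum_nonneg fun p _ => by positivity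

lemma PS_mono {B B' : ℕ → Prop} {N N' : ℕ} (hN : N ≤ N')
    (h : ∀ p : ℕ, p.Prime → p ≤ N → B p → B' p) : PS B 0 N ≤ PS B' 0 N' := by
  classical
  unfold PS
  refine Finset.sum_le_sum_of_subset_of_nonneg ?_ (fun p _ _ => by positivity)
  intro p hp
  simp only [mem_filter, mem_Ioc] at hp ⊢
  exact ⟨⟨hp.1.1, hp.1.2.trans hN⟩, hp.2.1, h p hp.2.1 hp.1.2 hp.2.2⟩

lemma PS_le_add {B B1 B2 : ℕ → Prop} {N : ℕ} (h : ∀ p : ℕ, p.Prime → p ≤ N → B p → B1 p ∨ B2 p) :
    PS B 0 N ≤ PS B1 0 N + PS B2 0 N := by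
  classical
  unfold PS
  rw [← Finset.sum_union_inter]
  have h0 : (0:ℝ) ≤ ∑ p ∈ (Ioc 0 N).filter (fun p => p.Prime ∧ B1 p) ∩
      (Ioc 0 N).filter (fun p => p.Prime ∧ B2 p), 1 / (p:ℝ) :=
    Finset.sum_nonneg fun p _ => by positivity
  refine le_trans ?_ (le_add_of_nonneg_right h0)
  refine Finset.sum_le_sum_of_subset_of_nonneg ?_ (fun p _ _ => by positivity)
  intro p hp
  simp only [mem_union, mem_filter, mem_Ioc] at hp ⊢
  rcases h p hp.2.1 hp.1.2 hp.2.2 with h1 | h1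
  · exact Or.inl ⟨hp.1, hp.2.1, h1⟩
  · exact Or.inr ⟨hp.1, hp.2.1, h1⟩

open Classical in
lemma sum_LD_le {X : Type*} (s : Finset X) (bad : X → Set ℕ) (M : ℝ)
    (hM : ∀ᶠ N in atTop, ((s.filter fun x => N ∈ bad x).card : ℝ) ≤ M) (ε : ℝ) (hε : 0 < ε) :
    ∀ᶠ K in atTop, ∑ x ∈ s, LD (bad x) K ≤ M + ε := by
  obtain ⟨N0, hN0⟩ := eventually_atTop.1 hM
  have hM0 : 0 ≤ M := le_trans (Nat.cast_nonneg _) (hN0 N0 le_rfl)
  set C : ℝ := ∑ N ∈ Icc 1 N0, (s.card : ℝ) / N with hC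
  have hC0 : 0 ≤ C := sum_nonneg fun N _ => by positivity
  have h2 : Tendsto (fun K : ℕ => (C + M) / Real.log K) atTop (𝓝 0) :=
    (Real.tendsto_log_atTop.comp tendsto_natCast_atTop_atTop).const_div_atTop _
  filter_upwards [h2.eventually_lt_const hε, eventually_ge_atTop 3] with K hK hK3
  have hlogK : 0 < Real.log K := Real.log_pos (by
    have : (3:ℝ) ≤ K := by exact_mod_cast hK3
    linarith)
  have h4 : ∑ x ∈ s, LD (bad x) K =
      (∑ N ∈ Icc 1 K, ((s.filter fun x => N ∈ bad x).card : ℝ) / N) / Real.log K := by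
    unfold LD
    rw [← sum_div]
    congr 1
    simp only [sum_filter]
    rw [sum_comm]
    refine sum_congr rfl fun N _ => ?_
    rw [← sum_filter, sum_const, nsmul_eq_mul]
    ring
  rw [h4]
  have h5 : ∑ N ∈ Icc 1 K, ((s.filter fun x => N ∈ bad x).card : ℝ) / N ≤
      C + M * (1 + Real.log K) := by
    have h6 : ∀ N ∈ Icc 1 K, ((s.filter fun x => N ∈ bad x).card : ℝ) / N ≤
        (if N ≤ N0 then (s.card : ℝ) / N else 0) + M * (1 / N) := by
      intro N _
      by_cases hN : N ≤ N0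
      · rw [if_pos hN]
        have h7 : ((s.filter fun x => N ∈ bad x).card : ℝ) ≤ s.card := by
          exact_mod_cast card_filter_le _ _
        have h8 : ((s.filter fun x => N ∈ bad x).card : ℝ) / N ≤ (s.card : ℝ) / N := by
          gcongr
        have h9 : 0 ≤ M * (1 / (N:ℝ)) := by positivity
        linarith
      · rw [if_neg hN, zero_add]
        have h7 := hN0 N (by omega)
        rw [mul_one_div]
        gcongr
    refine (sum_le_sum h6).trans ?_
    rw [sum_add_distrib, ← mul_sum, ← sum_filter]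
    have h7 : ∑ N ∈ (Icc 1 K).filter (fun N => N ≤ N0), (s.card : ℝ) / N ≤ C := by
      rw [hC]
      refine sum_le_sum_of_subset_of_nonneg ?_ (fun N _ _ => by positivity)
      intro N hN
      rw [mem_filter, mem_Icc] at hN
      exact mem_Icc.2 ⟨hN.1.1, hN.2⟩
    have h8 := mul_le_mul_of_nonneg_left (UpDensAux.le_log K) hM0
    linarith
  calc (∑ N ∈ Icc 1 K, ((s.filter fun x => N ∈ bad x).card : ℝ) / N) / Real.log K
      ≤ (C + M * (1 + Real.log K)) / Real.log K := by gcongr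
    _ = (C + M) / Real.log K + M := by
      field_simp
      ring
    _ ≤ M + ε := by linarith

lemma multS_one : MultS (fun _ => (1 : ℤˣ)) := by
  intro m n _ _ _
  simp

/-- the bound for the number of bad indices at one scale -/
lemma few_bad {g : ℕ → ℤˣ} (hg : MultS g) (m : ℕ) :
    ∃ M A : ℝ, 0 ≤ M ∧ 0 < A ∧ ∀ (L : ℕ) (ρs : ℕ → ℝ) (ys : ℕ → ℕ), ρs 0 = 0 →
      (∀ i, ρs (i + 1) = ρs i + PS (fun _ => True) 0 (ys i) + A) →
      ∀ᶠ N in atTop, (Set.ncard {i | i < L ∧ N ∈ GG g m (ρs i) (ys i)} : ℝ) ≤ M := by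
  classical
  set δ : ℝ := 1 / ((m:ℝ) + 1) with hδdef
  have hδ : 0 < δ := by positivity
  have hex : ∀ H : Finset ℕ, ∃ M A : ℝ, H.Nonempty → ∀ (s : Finset ℕ) (f : ℕ → ℕ → ℤˣ) (Y : ℕ),
      (∀ i ∈ s, MultS (f i)) →
      (∀ i ∈ s, ∀ j ∈ s, ∀ p : ℕ, p.Prime → Y < p → f i p = f j p) →
      (∀ i ∈ s, ∀ j ∈ s, i ≠ j → A ≤ PS (fun p => f i p ≠ f j p) 0 Y) →
      ∀ᶠ N in atTop, ((s.filter fun i => δ ≤ |LA (prodSeq (f i) H) N|).card : ℝ) ≤ M := by
    intro H
    by_cases hne : H.Nonempty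
    · obtain ⟨M, A, h⟩ := few_patt (ι := ℕ) H hne δ hδ
      exact ⟨M, A, fun _ => h⟩
    · exact ⟨0, 0, fun h => absurd h hne⟩
  choose MH AH hMA using hex
  set HH := (range (m + 1)).powerset with hHH
  refine ⟨∑ H ∈ HH, |MH H|, 1 + ∑ H ∈ HH, |AH H|, Finset.sum_nonneg fun _ _ => abs_nonneg _, ?_, ?_⟩
  · have : 0 ≤ ∑ H ∈ HH, |AH H| := Finset.sum_nonneg fun _ _ => abs_nonneg _
    linarith
  set M : ℝ := ∑ H ∈ HH, |MH H| with hM
  set A : ℝ := 1 + ∑ H ∈ HH, |AH H| with hA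
  intro L ρs ys hρ0 hρs
  have hApos : 0 < A := by
    have : 0 ≤ ∑ H ∈ HH, |AH H| := Finset.sum_nonneg fun _ _ => abs_nonneg _
    linarith
  have hAH : ∀ H ∈ HH, AH H ≤ A := by
    intro H hH
    have h1 : |AH H| ≤ ∑ H ∈ HH, |AH H| :=
      Finset.single_le_sum (f := fun H => |AH H|) (fun _ _ => abs_nonneg _) hH
    have h2 := le_abs_self (AH H)
    linarith
  have hstep : ∀ i, ρs i ≤ ρs (i + 1) := by
    intro i
    rw [hρs]
    have := PS_nonneg (fun _ => True) 0 (ys i)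
    linarith
  have hmono : Monotone ρs := monotone_nat_of_le_succ hstep
  have hρnn : ∀ i, 0 ≤ ρs i := fun i => by
    rw [← hρ0]
    exact hmono (Nat.zero_le i)
  set Y : ℕ := ∑ i ∈ range L, ys i with hY
  have hysY : ∀ i ∈ range L, ys i ≤ Y := fun i hi =>
    Finset.single_le_sum (f := ys) (fun _ _ => Nat.zero_le _) hi
  -- the finite set of families
  set T : Fin L → Set (ℕ → ℤˣ) := fun i => {v | ∃ u : ℕ → ℤˣ, MultS u ∧ v = tru u (ys i)} with hT
  have hfin : (Set.pi Set.univ T).Finite := Set.Finite.pi fun i => tru_finite (ys i)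
  let ext : (Fin L → ℕ → ℤˣ) → ℕ → ℕ → ℤˣ := fun F i => if h : i < L then F ⟨i, h⟩ else fun _ => 1
  have hext : ∀ F ∈ Set.pi Set.univ T, ∀ i ∈ range L, ∃ u : ℕ → ℤˣ, MultS u ∧
      ext F i = tru u (ys i) := by
    intro F hF i hi
    have hi' : i < L := mem_range.1 hi
    obtain ⟨u, hu, huF⟩ := hF ⟨i, hi'⟩ (Set.mem_univ _)
    refine ⟨u, hu, ?_⟩
    change (if h : i < L then F ⟨i, h⟩ else fun _ => 1) = _
    rw [dif_pos hi', huF]
  have hev : ∀ᶠ N in atTop, ∀ F ∈ Set.pi Set.univ T, ∀ s ∈ (range L).powerset, ∀ H ∈ HH,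
      H.Nonempty → (∀ i ∈ s, ρs i < PS (fun p => ext F i p ≠ 1) 0 (ys i)) →
      ((s.filter fun i => δ ≤ |LA (prodSeq (fun n => g n * ext F i n) H) N|).card : ℝ) ≤ MH H := by
    rw [Filter.eventually_all_finite hfin]
    intro F hF
    rw [Filter.eventually_all_finset]
    intro s hs
    rw [mem_powerset] at hs
    rw [Filter.eventually_all_finset]
    intro H hH
    by_cases hne : H.Nonempty
    swap
    · exact Eventually.of_forall fun N h => absurd h hne
    by_cases hw : ∀ i ∈ s, ρs i < PS (fun p => ext F i p ≠ 1) 0 (ys i)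
    swap
    · exact Eventually.of_forall fun N _ h => absurd h hw
    have hmult : ∀ i ∈ s, MultS (ext F i) := by
      intro i hi
      obtain ⟨u, hu, huF⟩ := hext F hF i (hs hi)
      rw [huF]
      exact tru_multS hu _
    have hbig : ∀ i ∈ s, ∀ p : ℕ, p.Prime → ys i < p → ext F i p = 1 := by
      intro i hi p hp hyp
      obtain ⟨u, hu, huF⟩ := hext F hF i (hs hi)
      rw [huF]
      exact tru_gt hu hp hyp
    -- the distance of two members
    have hdist : ∀ i ∈ s, ∀ j ∈ s, i < j →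
        A ≤ PS (fun p => ext F i p ≠ ext F j p) 0 Y := by
      intro i hi j hj hij
      have h1 : PS (fun p => ext F j p ≠ 1) 0 (ys j) ≤ PS (fun p => ext F j p ≠ 1) 0 Y :=
        PS_mono (hysY j (hs hj)) fun p _ _ h => h
      have h2 : PS (fun p => ext F j p ≠ 1) 0 Y ≤ PS (fun p => ext F i p ≠ ext F j p) 0 Y +
          PS (fun p => ext F i p ≠ 1) 0 Y := by
        apply PS_le_add
        intro p _ _ h
        by_cases h3 : ext F i p = 1
        · left
          rw [h3]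
          exact fun h4 => h h4.symm
        · exact Or.inr h3
      have h3 : PS (fun p => ext F i p ≠ 1) 0 Y ≤ PS (fun _ => True) 0 (ys i) := by
        unfold PS
        refine Finset.sum_le_sum_of_subset_of_nonneg ?_ (fun p _ _ => by positivity)
        intro p hp
        simp only [mem_filter, mem_Ioc] at hp ⊢
        refine ⟨⟨hp.1.1, ?_⟩, hp.2.1, trivial⟩
        by_contra hcon
        exact hp.2.2 (hbig i hi p hp.2.1 (not_le.1 hcon))
      have h4 := hw j hj
      have h5 : ρs (i + 1) ≤ ρs j := hmono hij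
      rw [hρs] at h5
      have h6 := hρnn i
      linarith
    refine (hMA H hne s (fun i n => g n * ext F i n) Y ?_ ?_ ?_).mono fun N hN _ _ => hN
    · intro i hi
      exact MultS.mul hg (hmult i hi)
    · intro i hi j hj p hp hYp
      rw [hbig i hi p hp (lt_of_le_of_lt (hysY i (hs hi)) hYp),
        hbig j hj p hp (lt_of_le_of_lt (hysY j (hs hj)) hYp)]
    · intro i hi j hj hij
      refine (hAH H hH).trans ?_
      have hcong : PS (fun p => g p * ext F i p ≠ g p * ext F j p) 0 Y =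
          PS (fun p => ext F i p ≠ ext F j p) 0 Y := by
        congr 1
        funext p
        rw [Ne, Ne, mul_right_inj]
      rw [hcong]
      rcases lt_or_gt_of_ne hij with h | h
      · exact hdist i hi j hj h
      · have h1 := hdist j hj i hi h
        have h2 : PS (fun p => ext F j p ≠ ext F i p) 0 Y =
            PS (fun p => ext F i p ≠ ext F j p) 0 Y := by
          congr 1
          funext p
          exact propext ne_comm
        rwa [h2] at h1
  filter_upwards [hev] with N hN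
  -- witnesses
  have hwit : ∀ i : ℕ, ∃ u : ℕ → ℤˣ, MultS u ∧ (N ∈ GG g m (ρs i) (ys i) →
      ρs i < PS (fun p => u p ≠ 1) 0 (ys i) ∧
      ∃ H ∈ HH, H.Nonempty ∧ δ ≤ |LA (prodSeq (fun n => g n * tru u (ys i) n) H) N|) := by
    intro i
    by_cases h : N ∈ GG g m (ρs i) (ys i)
    · obtain ⟨u, hu, h1, h2⟩ := h
      exact ⟨u, hu, fun _ => ⟨h1, h2⟩⟩
    · exact ⟨fun _ => 1, multS_one, fun h' => absurd h' h⟩
  choose u hu hu2 using hwit
  set F : Fin L → ℕ → ℤˣ := fun i => tru (u i) (ys i) with hF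
  have hFmem : F ∈ Set.pi Set.univ T := fun i _ => ⟨u i, hu i, rfl⟩
  have hextF : ∀ i ∈ range L, ext F i = tru (u i) (ys i) := by
    intro i hi
    change (if h : i < L then F ⟨i, h⟩ else fun _ => 1) = _
    rw [dif_pos (mem_range.1 hi)]
  set b : Finset ℕ := (range L).filter fun i => N ∈ GG g m (ρs i) (ys i) with hb
  have hset : {i | i < L ∧ N ∈ GG g m (ρs i) (ys i)} = (b : Set ℕ) := by
    ext i
    simp only [hb, coe_filter, mem_range, Set.mem_ofPred_eq]
  rw [hset, Set.ncard_coe_finset]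
  have hbL : b ⊆ range L := filter_subset _ _
  have hwb : ∀ i ∈ b, ρs i < PS (fun p => ext F i p ≠ 1) 0 (ys i) := by
    intro i hi
    have h1 := (hu2 i (mem_filter.1 hi).2).1
    refine lt_of_lt_of_le h1 (PS_mono le_rfl ?_)
    intro p hp hpy h
    rw [hextF i (hbL hi), tru_le _ hp hpy]
    exact h
  have hcover : b ⊆ HH.biUnion fun H => if H.Nonempty then
      b.filter (fun i => δ ≤ |LA (prodSeq (fun n => g n * ext F i n) H) N|) else ∅ := by
    intro i hi
    obtain ⟨H, hH, hne, h3⟩ := (hu2 i (mem_filter.1 hi).2).2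
    rw [mem_biUnion]
    refine ⟨H, hH, ?_⟩
    rw [if_pos hne, mem_filter]
    refine ⟨hi, ?_⟩
    rw [hextF i (hbL hi)]
    exact h3
  calc (b.card : ℝ) ≤ ((HH.biUnion fun H => if H.Nonempty then
      b.filter (fun i => δ ≤ |LA (prodSeq (fun n => g n * ext F i n) H) N|) else ∅).card : ℝ) := by
        exact_mod_cast card_le_card hcover
    _ ≤ ∑ H ∈ HH, ((if H.Nonempty then
      b.filter (fun i => δ ≤ |LA (prodSeq (fun n => g n * ext F i n) H) N|) else ∅).card : ℝ) := by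
        exact_mod_cast card_biUnion_le
    _ ≤ ∑ H ∈ HH, |MH H| := by
        refine sum_le_sum fun H hH => ?_
        by_cases hne : H.Nonempty
        · rw [if_pos hne]
          exact (hN F hFmem b (mem_powerset.2 hbL) H hH hne hwb).trans (le_abs_self _)
        · rw [if_neg hne]
          simp

end AnnuliAux

theorem annuli {g : ℕ → ℤˣ} (hg : MultS g) (𝒰 : Ultrafilter ℕ) (h𝒰 : (𝒰 : Filter ℕ) ≤ atTop)
    (m : ℕ) (η : ℝ) (hη : 0 < η) :
    ∃ ρ : ℝ, ∀ y : ℕ, ∀ᶠ K in (𝒰 : Filter ℕ), LD (GG g m ρ y) K < η := by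
  classical
  by_contra hcon
  push Not at hcon
  choose Yc hYc using hcon
  obtain ⟨M, A, hM0, hA, hfew⟩ := AnnuliAux.few_bad hg m
  obtain ⟨ρs, hρ0, hρs⟩ : ∃ ρs : ℕ → ℝ, ρs 0 = 0 ∧
      ∀ i, ρs (i + 1) = ρs i + PS (fun _ => True) 0 (Yc (ρs i)) + A :=
    ⟨fun n => Nat.rec 0 (fun _ r => r + PS (fun _ => True) 0 (Yc r) + A) n, rfl, fun _ => rfl⟩
  obtain ⟨L, hL⟩ := exists_nat_gt ((M + 1) / η)
  have h1 := hfew L ρs (fun i => Yc (ρs i)) hρ0 hρs
  have h2 : ∀ᶠ K in atTop, ∑ i ∈ range L, LD (GG g m (ρs i) (Yc (ρs i))) K ≤ M + 1 := by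
    refine AnnuliAux.sum_LD_le (range L) (fun i => GG g m (ρs i) (Yc (ρs i))) M ?_ 1 one_pos
    refine h1.mono fun N hN => ?_
    have hset : {i | i < L ∧ N ∈ GG g m (ρs i) (Yc (ρs i))} =
        (((range L).filter fun i => N ∈ GG g m (ρs i) (Yc (ρs i))) : Set ℕ) := by
      ext i
      simp only [coe_filter, mem_range, Set.mem_ofPred_eq]
    rw [hset, Set.ncard_coe_finset] at hN
    exact hN
  have h3 : ∀ᶠ K in (𝒰 : Filter ℕ), ∀ i ∈ range L,
      η ≤ LD (GG g m (ρs i) (Yc (ρs i))) K :=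
    (eventually_all_finset _).2 fun i _ => hYc (ρs i)
  obtain ⟨K, hK1, hK2⟩ := ((h2.filter_mono h𝒰).and h3).exists
  have h4 : (L : ℝ) * η ≤ ∑ i ∈ range L, LD (GG g m (ρs i) (Yc (ρs i))) K := by
    have := Finset.card_nsmul_le_sum (range L) _ η hK2
    rwa [card_range, nsmul_eq_mul] at this
  rw [div_lt_iff₀ hη] at hL
  linarith

end Pool.Agent.Lib.P4a7640D
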