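import Mathlib

/-!
# Counting sparse subsets

Module P4a7640D.BallCount.  (Self-contained.)

Fix `t ∈ (0, 1)` with `log (1 + t) ≤ t ≤ (s/2) log 2`.  Choose `L > 0` with
`(A/L) log (1/t) ≤ (s/2) log 2`, and `k₁ ≥ 1` with `k * d k ≥ L` for `k ≥ k₁`.  If `T ⊆ range K` and
`∑ j ∈ T, d j < A`, then `U = T.filter (k₁ ≤ ·)` satisfies `|U| L / K ≤ ∑ j ∈ U, d j ≤ A`
(as `d j ≥ L / j ≥ L / K`), so `|U| ≤ A K / L`.  The pair `(T.filter (· < k₁), U)` determines `T`, so
the number of `T` is at most `2^k₁ * #{U ⊆ range K : |U| ≤ A K / L}` and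
`#{U ⊆ range K : |U| ≤ v} ≤ ∑ U ⊆ range K, t^(|U| - v) = t^(-v) (1 + t)^K` (real power),
where `v = A K / L`; this is at most `2^((s/2) K) * 2^((s/2) K)`.
-/

open Finset Filter Topology

namespace Pool.Agent.Lib.P4a7640D

namespace BallCountAux

/-- few small subsets -/
theorem small_count (K : ℕ) (v t : ℝ) (ht0 : 0 < t) (ht1 : t < 1) :
    (((range K).powerset.filter fun U : Finset ℕ => (U.card : ℝ) ≤ v).card : ℝ) ≤
      t ^ (-v) * (1 + t) ^ K := by
  classical
  have h1 : (((range K).powerset.filter fun U : Finset ℕ => (U.card : ℝ) ≤ v).card : ℝ) ≤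
      ∑ U ∈ (range K).powerset, t ^ (-v) * t ^ U.card := by
    rw [Finset.card_eq_sum_ones]
    push_cast
    refine (Finset.sum_le_sum (f := fun _ => (1:ℝ)) (g := fun U => t ^ (-v) * t ^ U.card)
      ?_).trans (Finset.sum_le_sum_of_subset_of_nonneg (Finset.filter_subset _ _)
        (fun U _ _ => by positivity))
    intro U hU
    have hU2 := (Finset.mem_filter.1 hU).2
    have e : t ^ (-v) * t ^ U.card = t ^ (-v + U.card) := by
      rw [Real.rpow_add ht0, Real.rpow_natCast]
    rw [e]
    exact Real.one_le_rpow_of_pos_of_le_one_of_nonpos ht0 ht1.le (by linarith)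
  refine h1.trans (le_of_eq ?_)
  rw [← Finset.mul_sum]
  congr 1
  have h2 := Finset.sum_pow_mul_eq_add_pow t 1 (range K)
  simp only [one_pow, mul_one, card_range] at h2
  rw [h2, add_comm]

end BallCountAux

open Classical in
theorem ball_count (d : ℕ → ℝ) (hd : ∀ k, 0 ≤ d k)
    (hlim : Tendsto (fun k : ℕ => (k : ℝ) * d k) atTop atTop) (A s : ℝ) (hs : 0 < s) :
    ∃ C : ℝ, 0 < C ∧ ∀ K : ℕ,
      (((range K).powerset.filter fun T => ∑ j ∈ T, d j < A).card : ℝ) ≤
        C * (2:ℝ) ^ (s * K) := by
  have hlog2 : 0 < Real.log 2 := Real.log_pos (by norm_num)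
  set b : ℝ := s / 2 * Real.log 2 with hb
  have hb0 : 0 < b := by positivity
  set t : ℝ := min (1 / 2) b with ht
  have ht0 : 0 < t := lt_min (by norm_num) hb0
  have ht1 : t < 1 := lt_of_le_of_lt (min_le_left _ _) (by norm_num)
  have htb : t ≤ b := min_le_right _ _
  set L : ℝ := max 1 (A * Real.log (1 / t) / b) with hL
  have hL1 : 1 ≤ L := le_max_left _ _
  have hL0 : 0 < L := by linarith
  have hLA : A / L * Real.log (1 / t) ≤ b := by
    have h1 : A * Real.log (1 / t) / b ≤ L := le_max_right _ _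
    rw [div_le_iff₀ hb0] at h1
    rw [div_mul_eq_mul_div, div_le_iff₀ hL0]
    linarith
  obtain ⟨k₁, hk₁⟩ := Filter.eventually_atTop.1 (hlim.eventually_ge_atTop L)
  refine ⟨2 ^ (k₁ + 1), by positivity, fun K => ?_⟩
  set v : ℝ := A * K / L with hv
  have hcard : ((range K).powerset.filter fun T => ∑ j ∈ T, d j < A).card ≤
      ((range (k₁ + 1)).powerset ×ˢ
        ((range K).powerset.filter fun U : Finset ℕ => (U.card : ℝ) ≤ v)).card := by
    refine Finset.card_le_card_of_injOn (fun T => (T.filter (· < k₁ + 1), T.filter (k₁ + 1 ≤ ·)))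
      ?_ ?_
    · intro T hT
      have hT' := Finset.mem_filter.1 (Finset.mem_coe.1 hT)
      have hT1 := Finset.mem_powerset.1 hT'.1
      rw [Finset.mem_coe, Finset.mem_product]
      refine ⟨?_, ?_⟩
      · rw [Finset.mem_powerset]
        intro j hj
        exact Finset.mem_range.2 (Finset.mem_filter.1 hj).2
      · rw [Finset.mem_filter, Finset.mem_powerset]
        refine ⟨(Finset.filter_subset _ _).trans hT1, ?_⟩
        rcases Nat.eq_zero_or_pos K with hK | hK
        · have : T = ∅ := by
            rw [hK, Finset.range_zero] at hT1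
            exact Finset.subset_empty.1 hT1
          simp [this, hv, hK]
        · have hK' : (0:ℝ) < K := by exact_mod_cast hK
          have h1 : ∀ j ∈ T.filter (k₁ + 1 ≤ ·), L / K ≤ d j := by
            intro j hj
            obtain ⟨hj1, hj2⟩ := Finset.mem_filter.1 hj
            have hjK := Finset.mem_range.1 (hT1 hj1)
            have h2 := hk₁ j (by omega)
            have h3 : (j:ℝ) ≤ K := by exact_mod_cast hjK.le
            rw [div_le_iff₀ hK']
            calc L ≤ j * d j := h2
              _ ≤ K * d j := mul_le_mul_of_nonneg_right h3 (hd j)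
              _ = d j * K := mul_comm _ _
          have h4 := Finset.card_nsmul_le_sum _ _ _ h1
          have h5 : ∑ j ∈ T.filter (k₁ + 1 ≤ ·), d j ≤ ∑ j ∈ T, d j :=
            Finset.sum_le_sum_of_subset_of_nonneg (Finset.filter_subset _ _)
              (fun j _ _ => hd j)
          rw [nsmul_eq_mul] at h4
          have h6 : ((T.filter (k₁ + 1 ≤ ·)).card : ℝ) * (L / K) ≤ A :=
            h4.trans (h5.trans hT'.2.le)
          rw [hv, le_div_iff₀ hL0]
          have h7 : ((T.filter (k₁ + 1 ≤ ·)).card : ℝ) * (L / K) * K =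
              ((T.filter (k₁ + 1 ≤ ·)).card : ℝ) * L := by field_simp
          rw [← h7]
          exact mul_le_mul_of_nonneg_right h6 hK'.le
    · intro T _ T' _ h
      simp only [Prod.mk.injEq] at h
      rw [← Finset.filter_union_filter_not_eq (· < k₁ + 1) T,
        ← Finset.filter_union_filter_not_eq (· < k₁ + 1) T']
      have e1 : T.filter (fun a => ¬ a < k₁ + 1) = T.filter (k₁ + 1 ≤ ·) := by
        simp only [not_lt]
      have e2 : T'.filter (fun a => ¬ a < k₁ + 1) = T'.filter (k₁ + 1 ≤ ·) := by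
        simp only [not_lt]
      rw [e1, e2, h.1, h.2]
  have hcard' : (((range K).powerset.filter fun T => ∑ j ∈ T, d j < A).card : ℝ) ≤
      2 ^ (k₁ + 1) *
        (((range K).powerset.filter fun U : Finset ℕ => (U.card : ℝ) ≤ v).card : ℝ) := by
    have h := hcard
    rw [Finset.card_product, Finset.card_powerset, Finset.card_range] at h
    exact_mod_cast h
  refine hcard'.trans (mul_le_mul_of_nonneg_left ?_ (by positivity))
  refine (BallCountAux.small_count K v t ht0 ht1).trans ?_
  have h1 : t ^ (-v) ≤ Real.exp (b * K) := by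
    rw [Real.rpow_def_of_pos ht0]
    apply Real.exp_le_exp.2
    have e : Real.log t * -v = A / L * Real.log (1 / t) * K := by
      rw [hv, one_div, Real.log_inv]; ring
    rw [e]
    exact mul_le_mul_of_nonneg_right hLA (by positivity)
  have h2 : (1 + t) ^ K ≤ Real.exp (b * K) := by
    have h3 : 1 + t ≤ Real.exp b := by
      have := Real.add_one_le_exp t
      have h4 : Real.exp t ≤ Real.exp b := Real.exp_le_exp.2 htb
      linarith
    calc (1 + t) ^ K ≤ (Real.exp b) ^ K := pow_le_pow_left₀ (by positivity) h3 K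
      _ = Real.exp (b * K) := by rw [← Real.exp_nat_mul, mul_comm]
  calc t ^ (-v) * (1 + t) ^ K ≤ Real.exp (b * K) * Real.exp (b * K) :=
        mul_le_mul h1 h2 (by positivity) (Real.exp_pos _).le
    _ = (2:ℝ) ^ (s * K) := by
        rw [← Real.exp_add, Real.rpow_def_of_pos (by norm_num)]
        congr 1
        rw [hb]; ring

end Pool.Agent.Lib.P4a7640D
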