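import Mathlib
import Pool.Agent.Lib.P4a7640D.FewCore
import Pool.Agent.Lib.P4a7640D.CountMain

/-!
# Isolation in the neighbourhood `∑ {x < p ≤ x^2, f p ≠ g p} 1/p → 0`
-/

open Finset Filter Topology
open Pool.Agent.Lib.P4a7640

namespace Pool.Agent.Lib.P4a7640D

namespace IsoFastAux

/-- monotonicity of `PS` in the interval and the predicate -/
lemma PS_le_add {B B₁ B₂ : ℕ → Prop} {y N y₁ N₁ y₂ N₂ : ℕ}
    (h : ∀ p : ℕ, p.Prime → B p → y < p → p ≤ N →
      (y₁ < p ∧ p ≤ N₁ ∧ B₁ p) ∨ (y₂ < p ∧ p ≤ N₂ ∧ B₂ p)) :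
    PS B y N ≤ PS B₁ y₁ N₁ + PS B₂ y₂ N₂ := by
  classical
  unfold PS
  have hsub : (Finset.Ioc y N).filter (fun p => p.Prime ∧ B p) ⊆
      (Finset.Ioc y₁ N₁).filter (fun p => p.Prime ∧ B₁ p) ∪
        (Finset.Ioc y₂ N₂).filter (fun p => p.Prime ∧ B₂ p) := by
    intro p hp
    rw [mem_filter, mem_Ioc] at hp
    rw [mem_union, mem_filter, mem_filter, mem_Ioc, mem_Ioc]
    rcases h p hp.2.1 hp.2.2 hp.1.1 hp.1.2 with h1 | h1
    · exact Or.inl ⟨⟨h1.1, h1.2.1⟩, hp.2.1, h1.2.2⟩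
    · exact Or.inr ⟨⟨h1.1, h1.2.1⟩, hp.2.1, h1.2.2⟩
  have h1 : ∑ p ∈ (Finset.Ioc y N).filter (fun p => p.Prime ∧ B p), 1 / (p:ℝ) ≤
      ∑ p ∈ (Finset.Ioc y₁ N₁).filter (fun p => p.Prime ∧ B₁ p) ∪
        (Finset.Ioc y₂ N₂).filter (fun p => p.Prime ∧ B₂ p), 1 / (p:ℝ) :=
    sum_le_sum_of_subset_of_nonneg hsub fun p _ _ => by positivity
  refine h1.trans ?_
  rw [← sum_union_inter]
  have : (0:ℝ) ≤ ∑ p ∈ (Finset.Ioc y₁ N₁).filter (fun p => p.Prime ∧ B₁ p) ∩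
        (Finset.Ioc y₂ N₂).filter (fun p => p.Prime ∧ B₂ p), 1 / (p:ℝ) :=
    sum_nonneg fun p _ => by positivity
  linarith

lemma tendsto_sqrt : Tendsto Nat.sqrt atTop atTop := by
  rw [tendsto_atTop]
  intro b
  filter_upwards [eventually_ge_atTop (b * b)] with N hN
  exact Nat.le_sqrt.mpr hN

open Classical in
/-- the mass of `B` on the primes `p ≤ N` with `N < p ^ (2 ^ c)` -/
lemma tendsto_top {B : ℕ → Prop} (hB : Tendsto (fun x : ℕ => PS B x (x ^ 2)) atTop (𝓝 0)) (c : ℕ) :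
    Tendsto (fun N : ℕ => ∑ p ∈ (Icc 1 N).filter
        (fun p => p.Prime ∧ N < p ^ (2 ^ c) ∧ B p), (1:ℝ) / p) atTop (𝓝 0) := by
  induction c with
  | zero =>
    have h0 : (fun N : ℕ => ∑ p ∈ (Icc 1 N).filter
        (fun p => p.Prime ∧ N < p ^ (2 ^ 0) ∧ B p), (1:ℝ) / p) = fun _ => 0 := by
      funext N
      rw [filter_false_of_mem, sum_empty]
      intro p hp hcon
      rw [mem_Icc] at hp
      have := hcon.2.1
      simp at this
      omega
    rw [h0]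
    exact tendsto_const_nhds
  | succ c ih =>
    have hlim : Tendsto (fun N : ℕ => ∑ p ∈ (Icc 1 (Nat.sqrt N)).filter
        (fun p => p.Prime ∧ Nat.sqrt N < p ^ (2 ^ c) ∧ B p), (1:ℝ) / p +
        (PS B (Nat.sqrt N) (Nat.sqrt N ^ 2) + PS B (Nat.sqrt N + 1) ((Nat.sqrt N + 1) ^ 2)))
        atTop (𝓝 0) := by
      have h1 := ih.comp tendsto_sqrt
      have h2 := hB.comp tendsto_sqrt
      have h3 := hB.comp ((tendsto_add_atTop_nat 1).comp tendsto_sqrt)
      have h4 := h1.add (h2.add h3)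
      simpa using h4
    refine squeeze_zero' (Eventually.of_forall fun N => sum_nonneg fun p _ => by positivity) ?_ hlim
    filter_upwards [eventually_ge_atTop 4] with N hN
    have hM2 : 2 ≤ Nat.sqrt N := Nat.le_sqrt.mpr (by omega)
    have hsqN : N < (Nat.sqrt N + 1) ^ 2 := by
      rw [sq]
      exact Nat.lt_succ_sqrt N
    have hsub : (Icc 1 N).filter (fun p => p.Prime ∧ N < p ^ (2 ^ (c + 1)) ∧ B p) ⊆
        (Icc 1 (Nat.sqrt N)).filter (fun p => p.Prime ∧ Nat.sqrt N < p ^ (2 ^ c) ∧ B p) ∪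
        (Finset.Ioc (Nat.sqrt N) N).filter (fun p => p.Prime ∧ B p) := by
      intro p hp
      rw [mem_filter, mem_Icc] at hp
      rw [mem_union, mem_filter, mem_filter, mem_Icc, mem_Ioc]
      obtain ⟨⟨h1, h2⟩, h3, h4, h5⟩ := hp
      by_cases hpM : p ≤ Nat.sqrt N
      · left
        refine ⟨⟨h1, hpM⟩, h3, ?_, h5⟩
        rw [Nat.sqrt_lt', ← pow_mul, ← pow_succ]
        exact h4
      · right
        exact ⟨⟨not_le.mp hpM, h2⟩, h3, h5⟩
    have h1 : ∑ p ∈ (Icc 1 N).filter (fun p => p.Prime ∧ N < p ^ (2 ^ (c + 1)) ∧ B p), (1:ℝ) / p ≤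
        ∑ p ∈ (Icc 1 (Nat.sqrt N)).filter (fun p => p.Prime ∧ Nat.sqrt N < p ^ (2 ^ c) ∧ B p) ∪
        (Finset.Ioc (Nat.sqrt N) N).filter (fun p => p.Prime ∧ B p), (1:ℝ) / p :=
      sum_le_sum_of_subset_of_nonneg hsub fun p _ _ => by positivity
    have h2 : ∑ p ∈ (Icc 1 (Nat.sqrt N)).filter (fun p => p.Prime ∧ Nat.sqrt N < p ^ (2 ^ c) ∧ B p) ∪
        (Finset.Ioc (Nat.sqrt N) N).filter (fun p => p.Prime ∧ B p), (1:ℝ) / p ≤
        ∑ p ∈ (Icc 1 (Nat.sqrt N)).filter (fun p => p.Prime ∧ Nat.sqrt N < p ^ (2 ^ c) ∧ B p),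
          (1:ℝ) / p +
        ∑ p ∈ (Finset.Ioc (Nat.sqrt N) N).filter (fun p => p.Prime ∧ B p), (1:ℝ) / p := by
      rw [← sum_union_inter]
      have : (0:ℝ) ≤ ∑ p ∈ (Icc 1 (Nat.sqrt N)).filter
          (fun p => p.Prime ∧ Nat.sqrt N < p ^ (2 ^ c) ∧ B p) ∩
        (Finset.Ioc (Nat.sqrt N) N).filter (fun p => p.Prime ∧ B p), (1:ℝ) / p :=
        sum_nonneg fun p _ => by positivity
      linarith
    have h3 : ∑ p ∈ (Finset.Ioc (Nat.sqrt N) N).filter (fun p => p.Prime ∧ B p), (1:ℝ) / p =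
        PS B (Nat.sqrt N) N := rfl
    have h4 : PS B (Nat.sqrt N) N ≤ PS B (Nat.sqrt N) (Nat.sqrt N ^ 2) +
        PS B (Nat.sqrt N + 1) ((Nat.sqrt N + 1) ^ 2) := by
      apply PS_le_add
      intro p hp hBp h5 h6
      by_cases h7 : p ≤ Nat.sqrt N ^ 2
      · exact Or.inl ⟨h5, h7, hBp⟩
      · refine Or.inr ⟨?_, by omega, hBp⟩
        have : Nat.sqrt N + 1 ≤ Nat.sqrt N ^ 2 := by nlinarith
        omega
    linarith

end IsoFastAux

theorem isolation_fast (g : ℕ → ℤˣ) :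
    ∃ C : Set (ℕ → ℤˣ), C.Countable ∧ ∀ f : ℕ → ℤˣ, MultS f →
      Tendsto (fun x : ℕ => PS (fun p => f p ≠ g p) x (x ^ 2)) atTop (𝓝 0) →
      (∀ c ∈ C, Tendsto (fun N => PS (fun p => f p ≠ c p) 0 N) atTop atTop) →
      ∃ S : Set ℕ, (∀ ε : ℝ, 0 < ε → ∃ᶠ K in atTop, 1 - ε ≤ LD S K) ∧
        VanishL (atTop ⊓ 𝓟 S) f := by
  classical
  set X := {f : ℕ → ℤˣ // MultS f ∧
    Tendsto (fun x : ℕ => PS (fun p => f p ≠ g p) x (x ^ 2)) atTop (𝓝 0)} with hX
  set bad : ℕ → X → Set ℕ := fun m f => {N | ∃ H ∈ (range (m + 1)).powerset, H.Nonempty ∧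
        1 / ((m:ℝ) + 1) ≤ |LA (prodSeq f.1 H) N|} with hbad
  set far : X → X → Prop := fun f f' =>
    Tendsto (fun N => PS (fun p => f.1 p ≠ f'.1 p) 0 N) atTop atTop with hfar
  have hsym : ∀ x y, far x y → far y x := by
    intro x y h
    simp only [hfar] at h ⊢
    have h1 : (fun p => y.1 p ≠ x.1 p) = fun p => x.1 p ≠ y.1 p := by
      funext p
      exact propext ne_comm
    rw [h1]
    exact h
  have htop : ∀ (f f' : X) (c : ℕ), Tendsto (fun N : ℕ => ∑ p ∈ (Icc 1 N).filter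
        (fun p => p.Prime ∧ N < p ^ (2 ^ c) ∧ f.1 p ≠ f'.1 p), (1:ℝ) / p) atTop (𝓝 0) := by
    intro f f' c
    have key : Tendsto (fun x : ℕ => PS (fun p => f.1 p ≠ f'.1 p) x (x ^ 2)) atTop (𝓝 0) →
        Tendsto (fun N : ℕ => ∑ p ∈ (Icc 1 N).filter
        (fun p => p.Prime ∧ N < p ^ (2 ^ c) ∧ f.1 p ≠ f'.1 p), (1:ℝ) / p) atTop (𝓝 0) := by
      intro h
      have h0 := IsoFastAux.tendsto_top h c
      refine h0.congr fun N => ?_
      congr!
    apply key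
    have h1 : Tendsto (fun x : ℕ => PS (fun p => f.1 p ≠ g p) x (x ^ 2) +
        PS (fun p => f'.1 p ≠ g p) x (x ^ 2)) atTop (𝓝 0) := by
      simpa using f.2.2.add f'.2.2
    refine squeeze_zero (fun x => PS_nonneg _ _ _) (fun x => ?_) h1
    apply IsoFastAux.PS_le_add
    intro p _ hne h2 h3
    by_cases h4 : f.1 p = g p
    · right
      refine ⟨h2, h3, fun h5 => hne (h4.trans h5.symm)⟩
    · exact Or.inl ⟨h2, h3, h4⟩
  have hnet : ∀ m l : ℕ, ∃ s : Finset X, ∀ x : X,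
      (∀ᶠ K in atTop, 1 / ((l:ℝ) + 1) ≤ LD (bad m x) K) → ∃ y ∈ s, y = x ∨ ¬ far y x := by
    intro m l
    have hδ : (0:ℝ) < 1 / ((m:ℝ) + 1) := by positivity
    have hM : ∀ H : Finset ℕ, ∃ M : ℝ, H.Nonempty → ∀ (s : Finset X),
        (∀ i ∈ s, ∀ j ∈ s, i ≠ j → far i j) →
        ∀ᶠ N in atTop, ((s.filter fun i =>
          1 / ((m:ℝ) + 1) ≤ |LA (prodSeq i.1 H) N|).card : ℝ) ≤ M := by
      intro H
      by_cases hne : H.Nonempty
      · obtain ⟨M, hM⟩ := few_gen (ι := X) H hne _ hδ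
        refine ⟨M, fun _ s hs => ?_⟩
        have h1 := hM s (fun i => i.1) (fun i _ => i.2.1) hs (fun i _ j _ c => htop i j c)
        filter_upwards [h1] with N hN
        refine le_trans (le_of_eq ?_) hN
        congr!
      · exact ⟨0, fun h => absurd h hne⟩
    choose M hM using hM
    refine finite_net (bad m) far hsym
      (∑ H ∈ (range (m + 1)).powerset.filter (fun H => H.Nonempty), M H) ?_ _ (by positivity)
    intro s hs
    have hall : ∀ᶠ N in atTop, ∀ H ∈ (range (m + 1)).powerset.filter (fun H => H.Nonempty),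
        ((s.filter fun i => 1 / ((m:ℝ) + 1) ≤ |LA (prodSeq i.1 H) N|).card : ℝ) ≤ M H := by
      rw [eventually_all_finset]
      intro H hH
      exact hM H (Finset.mem_filter.mp hH).2 s hs
    filter_upwards [hall] with N hN
    have hsub : (s.filter fun x => N ∈ bad m x) ⊆
        ((range (m + 1)).powerset.filter (fun H => H.Nonempty)).biUnion
          fun H => s.filter fun i => 1 / ((m:ℝ) + 1) ≤ |LA (prodSeq i.1 H) N| := by
      intro x hx
      rw [Finset.mem_filter] at hx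
      obtain ⟨hxs, H, hH, hne, hle⟩ := hx
      rw [Finset.mem_biUnion]
      exact ⟨H, Finset.mem_filter.mpr ⟨hH, hne⟩, Finset.mem_filter.mpr ⟨hxs, hle⟩⟩
    have c1 : ((s.filter fun x => N ∈ bad m x).card : ℝ)
        ≤ ((((range (m + 1)).powerset.filter (fun H => H.Nonempty)).biUnion
          fun H => s.filter fun i => 1 / ((m:ℝ) + 1) ≤ |LA (prodSeq i.1 H) N|).card : ℝ) := by
      exact_mod_cast Finset.card_le_card hsub
    have c2 : ((((range (m + 1)).powerset.filter (fun H => H.Nonempty)).biUnion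
          fun H => s.filter fun i => 1 / ((m:ℝ) + 1) ≤ |LA (prodSeq i.1 H) N|).card : ℝ) ≤
        ((∑ H ∈ (range (m + 1)).powerset.filter (fun H => H.Nonempty),
          (s.filter fun i => 1 / ((m:ℝ) + 1) ≤ |LA (prodSeq i.1 H) N|).card : ℕ) : ℝ) := by
      exact_mod_cast Finset.card_biUnion_le
    have c3 : ((∑ H ∈ (range (m + 1)).powerset.filter (fun H => H.Nonempty),
          (s.filter fun i => 1 / ((m:ℝ) + 1) ≤ |LA (prodSeq i.1 H) N|).card : ℕ) : ℝ) ≤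
        ∑ H ∈ (range (m + 1)).powerset.filter (fun H => H.Nonempty), M H := by
      push_cast
      exact Finset.sum_le_sum hN
    have c4 := (c1.trans c2).trans c3
    refine le_trans (le_of_eq ?_) c4
    congr!
  choose s hs using hnet
  refine ⟨⋃ m : ℕ, ⋃ l : ℕ, (Subtype.val '' (s m l : Set X)), ?_, ?_⟩
  · refine Set.countable_iUnion fun m => Set.countable_iUnion fun l => ?_
    exact (Finset.countable_toSet _).image _
  · intro f hf hfg hC
    apply good_of_dens f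
    intro m η hη hnot
    obtain ⟨l, hl⟩ := exists_nat_one_div_lt hη
    have h1 : ∀ᶠ K in atTop, 1 / ((l:ℝ) + 1) ≤ LD (bad m ⟨f, hf, hfg⟩) K := by
      filter_upwards [hnot] with K hK
      rw [not_lt] at hK
      exact hl.le.trans hK
    obtain ⟨y, hy, hyy⟩ := hs m l ⟨f, hf, hfg⟩ h1
    have hyC : y.1 ∈ ⋃ m : ℕ, ⋃ l : ℕ, (Subtype.val '' (s m l : Set X)) := by
      simp only [Set.mem_iUnion]
      exact ⟨m, l, y, hy, rfl⟩
    have h2 := hC y.1 hyC
    have h3 : far y ⟨f, hf, hfg⟩ := hsym _ _ h2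
    rcases hyy with h | h
    · rw [h] at h2
      have h4 : (fun N => PS (fun p => f p ≠ f p) 0 N) = fun _ => 0 := by
        funext N
        unfold PS
        refine sum_eq_zero fun p hp => ?_
        simp at hp
      rw [h4] at h2
      exact not_tendsto_const_atTop _ _ h2
    · exact h h3

end Pool.Agent.Lib.P4a7640D
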