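import Mathlib
import Pool.Agent.Lib.P4a7640D.UpDens

/-!
# Sets of upper logarithmic density one are infinite
-/

open Finset Filter Topology
open Pool.Agent.Lib.P4a7640

namespace Pool.Agent.Lib.P4a7640D

open Classical in
theorem neBot_of_dens {S : Set ℕ} (h : ∀ ε : ℝ, 0 < ε → ∃ᶠ K in atTop, 1 - ε ≤ LD S K) :
    (atTop ⊓ 𝓟 S : Filter ℕ).NeBot := by
  rw [← frequently_mem_iff_neBot]
  intro hnot
  rw [eventually_atTop] at hnot
  obtain ⟨N0, hN0⟩ := hnot
  have h1 : ∀ K : ℕ, LD S K ≤ (N0 : ℝ) / Real.log K := by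
    intro K
    unfold LD
    apply div_le_div_of_nonneg_right _ (Real.log_natCast_nonneg K)
    calc ∑ N ∈ (Icc 1 K).filter (fun N => N ∈ S), (1:ℝ) / N
        ≤ ∑ N ∈ Icc 1 N0, (1:ℝ) / N := by
          apply Finset.sum_le_sum_of_subset_of_nonneg
          · intro N hN
            rw [Finset.mem_filter, Finset.mem_Icc] at hN
            rw [Finset.mem_Icc]
            refine ⟨hN.1.1, ?_⟩
            by_contra hcon
            exact hN0 N (by omega) hN.2
          · intro N _ _
            positivity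
      _ ≤ ∑ N ∈ Icc 1 N0, (1:ℝ) := by
          refine Finset.sum_le_sum fun N hN => ?_
          rw [Finset.mem_Icc] at hN
          have : (1:ℝ) ≤ N := by exact_mod_cast hN.1
          rw [div_le_one (by linarith)]
          exact this
      _ = N0 := by simp
  have h2 : Tendsto (fun K : ℕ => (N0 : ℝ) / Real.log K) atTop (𝓝 0) :=
    tendsto_logN.const_div_atTop _
  have h3 : ∀ᶠ K : ℕ in atTop, (N0 : ℝ) / Real.log K < 1 / 2 :=
    h2.eventually_lt_const (by norm_num)
  refine h (1 / 2) (by norm_num) ?_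
  filter_upwards [h3] with K hK
  have := h1 K
  linarith

end Pool.Agent.Lib.P4a7640D
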