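import Mathlib
import Pool.Agent.Lib.P4a7640.Furst
import Pool.Agent.Lib.P4a7640D.IsoFast
import Pool.Agent.Lib.P4a7640D.Neb

/-!
# In every neighbourhood at most countably many classes can be exceptional
-/

open MeasureTheory Filter Topology
open Pool.Agent.Lib.P4a7640
open Pool.Agent.Lib.P4a7640D

namespace Pool.Agent.Results.MP_4a7640_nt.CountablyMany

/-- Let `g : ℕ → {-1,1}` be any function. There is a countable set `C` of functions
`ℕ → {-1,1}` such that the following holds for all multiplicative `f : ℕ → {-1,1}` with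
`∑ 1/p → 0` as `x → ∞`, the sum being over the primes `x < p ≤ x^2` with `f(p) ≠ g(p)`. If
`∑ 1/p` over the primes with `f(p) ≠ c(p)` diverges for every `c ∈ C`, then `f` is aperiodic and
there is a set `S` of positive integers of upper logarithmic density `1` such that `μ_N` for `f`
converges weak-* to the `(1/2, 1/2)` Bernoulli measure as `N → ∞` in `S`. -/
theorem result (g : ℕ → ℤˣ) :
    ∃ C : Set (ℕ → ℤˣ), C.Countable ∧ ∀ f : ℕ → ℤˣ, MultS f →
      Tendsto (fun x : ℕ => PS (fun p => f p ≠ g p) x (x ^ 2)) atTop (𝓝 0) →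
      (∀ c ∈ C, Tendsto (fun N => PS (fun p => f p ≠ c p) 0 N) atTop atTop) →
      Aperiodic f ∧ ∃ S : Set ℕ, (∀ ε : ℝ, 0 < ε → ∃ᶠ K in atTop, 1 - ε ≤ LD S K) ∧
        FairAlong f (atTop ⊓ 𝓟 S) := by
  obtain ⟨C, hC, hiso⟩ := isolation_fast g
  refine ⟨C, hC, fun f hf h1 h2 => ?_⟩
  obtain ⟨S, hS, hv⟩ := hiso f hf h1 h2
  have := neBot_of_dens hS
  exact ⟨hv.aperiodic inf_le_left hf, S, hS, fairAlong_of_vanish inf_le_left hv⟩

end Pool.Agent.Results.MP_4a7640_nt.CountablyMany
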