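import Mathlib
import Pool.Agent.Lib.P4a7640D.Repel
import Pool.Agent.Lib.P4a7640D.BallCount
import Pool.Agent.Lib.P4a7640D.Fam
import Pool.Agent.Lib.P4a7640D.BlockMass

/-!
# Few bad digit patterns at every scale

Module P4a7640D.FewBad.  (`repel`, `pack`, `ball_count`, `top_mass` and everything in `Fam` are black
boxes.)

Write `f S n = g n * rnd (bs κ P S) n`, `K = κ (N + hm)`, and let `z, m, c, N₀, A, ρ` be given by
`repel` (index type `Finset ℕ`).  For `N < N₀` use the trivial bound `2^(K+1) ≤ 2^(κ(N₀+hm)+1)`.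
Let `N ≥ N₀`, `N ≥ hm` and `N ≥ 2`.  Since `k * mass k → ∞`, all `mass k` with `k ≥ k₀` are positive,
so `κ` is unbounded and every block `{p : κ p = k}` is finite.
Call `k ∈ range (K+1)` *controlled* if `κ z < k` and every natural number `q` with `κ q ≤ k`
satisfies `q^(2^c) ≤ N`.  (Then a prime `p` with `κ p = k` satisfies `z < p`, `p^(2^c) ≤ N`, `p ≤ N`.)
Let `U` be the set of the uncontrolled `k ≤ K`.
(a) `|U| ≤ κ z + 1 + k₁ + 3 + C(c+4) K / L` whenever `k * mass k ≥ L > 0` for all `k ≥ k₁`: the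
uncontrolled `k > κ z` form an interval: let `q` be the least natural number with `N < q^(2^c)`; `k`
uncontrolled and `k > κ z` implies `k ≥ κ q`; for `κ q < k < K` all primes `p` with `κ p = k` are
`> q` and `< N + hm ≤ N^2`, so these blocks are disjoint subsets of the primes of `top_mass`, and
`∑ κ q < k < K, mass k ≤ C (c+4)`, each term with `k ≥ k₁` being at least `L / K`.
Choose `L` with `C(c+4)/L ≤ s/2`: then `2^|U| ≤ C' 2^((s/2) K)`.
(b) Partition the bad subsets `S ⊆ range (K+1)` according to `S ∩ U`.  In one class `B`, two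
subsets `S ≠ S'` have `symmDiff S S'` contained in the controlled places; say they are `far` if
`A ≤ ∑ k ∈ symmDiff S S', mass k`.  A pairwise far subset of `B` has at most `8/δ^2` elements by
`repel`: prime powers of `p ≤ z` have `κ p ≤ κ z`, uncontrolled, so the values agree; a prime `p ≤ N`
with `N < p^(2^c)` has `κ p` uncontrolled, so the top sum is `0 ≤ ρ`; and the middle sum
is `∑ k ∈ symmDiff S S', mass k ≥ A` by `mass_eq` and `bs_ne_iff`.  A ball
`{S' : S' = S ∨ ¬ far S S'}` has at most `#{T ⊆ range (K+1) : ∑ k ∈ T, mass k < A} ≤ C'' 2^((s/2)(K+1))`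
elements (`S' ↦ symmDiff S S'` is injective; `A > 0`).  `pack` gives `|B| ≤ (8/δ^2) C'' 2^((s/2)(K+1))`.
(c) The number of classes is at most `2^|U|`.
-/

open Finset Filter Topology
open Pool.Agent.Lib.P4a7640

namespace Pool.Agent.Lib.P4a7640D

namespace FewBadAux

/-- controlled places -/
def ctl (κ : ℕ → ℕ) (z c N k : ℕ) : Prop := κ z < k ∧ ∀ q : ℕ, κ q ≤ k → q ^ (2 ^ c) ≤ N

open Classical in
lemma mass_sum {κ : ℕ → ℕ} {P : Set ℕ} (T : Finset ℕ) (n : ℕ)
    (h : ∀ k ∈ T, ∀ p : ℕ, κ p = k → p ≤ n) :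
    ∑ k ∈ T, mass κ P k =
      ∑ p ∈ (Icc 1 n).filter (fun p => p.Prime ∧ p ∈ P ∧ κ p ∈ T), (1:ℝ) / p := by
  have hmaps : ∀ p ∈ (Icc 1 n).filter (fun p => p.Prime ∧ p ∈ P ∧ κ p ∈ T), κ p ∈ T := by
    intro p hp
    exact (Finset.mem_filter.mp hp).2.2.2
  rw [← Finset.sum_fiberwise_of_maps_to hmaps]
  refine Finset.sum_congr rfl fun k hk => ?_
  rw [mass_eq (h k hk), Finset.filter_filter]
  refine Finset.sum_congr ?_ fun _ _ => rfl
  ext p
  simp only [Finset.mem_filter]
  constructor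
  · rintro ⟨h1, h2, h3, h4⟩
    exact ⟨h1, ⟨h2, h3, h4 ▸ hk⟩, h4⟩
  · rintro ⟨h1, ⟨h2, h3, _⟩, h4⟩
    exact ⟨h1, h2, h3, h4⟩

open Classical in
lemma unc_card {κ : ℕ → ℕ} (hκ : Monotone κ) (P : Set ℕ)
    (hmass : Tendsto (fun k : ℕ => (k : ℝ) * mass κ P k) atTop atTop) (hm z c : ℕ) (s : ℝ)
    (hs : 0 < s) : ∃ u₀ : ℕ, ∀ N : ℕ, 2 ≤ N → hm ≤ N →
      (((range (κ (N + hm) + 1)).filter (fun k => ¬ ctl κ z c N k)).card : ℝ) ≤
        u₀ + (s / 2) * (κ (N + hm) : ℝ) := by
  obtain ⟨C₀, hC₀, htop⟩ := top_mass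
  set L : ℝ := 2 * (C₀ * (c + 4)) / s with hL
  have hL0 : 0 < L := by positivity
  obtain ⟨k₁, hk₁⟩ := eventually_atTop.mp (tendsto_atTop.mp hmass L)
  refine ⟨κ z + 3 + k₁, ?_⟩
  intro N hN2 hmN
  set K := κ (N + hm) with hK
  have hex : ∃ q : ℕ, N < q ^ (2 ^ c) := by
    refine ⟨N + 1, ?_⟩
    calc N < N + 1 := Nat.lt_succ_self _
      _ ≤ (N + 1) ^ (2 ^ c) := Nat.le_self_pow (by positivity) _
  set q := Nat.find hex with hq
  have hqs : N < q ^ (2 ^ c) := Nat.find_spec hex
  have hqm : ∀ m : ℕ, N < m ^ (2 ^ c) → q ≤ m := fun m h => Nat.find_min' hex h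
  set V := (Ioo (κ q) K).filter (fun k => k₁ ≤ k) with hV
  have hsub : (range (K + 1)).filter (fun k => ¬ ctl κ z c N k) ⊆
      ((range (κ z + 1) ∪ {κ q, K}) ∪ range k₁) ∪ V := by
    intro k hk
    simp only [Finset.mem_filter, Finset.mem_range] at hk
    obtain ⟨hk1, hk2⟩ := hk
    simp only [Finset.mem_union, Finset.mem_range, Finset.mem_insert, Finset.mem_singleton, hV,
      Finset.mem_filter, Finset.mem_Ioo]
    unfold ctl at hk2
    by_cases h1 : κ z < k
    · have h2 : ∃ q' : ℕ, κ q' ≤ k ∧ N < q' ^ (2 ^ c) := by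
        by_contra hc
        push Not at hc
        exact hk2 ⟨h1, hc⟩
      obtain ⟨q', h3, h4⟩ := h2
      have h5 : κ q ≤ k := (hκ (hqm q' h4)).trans h3
      omega
    · omega
  have hVK : (V.card : ℝ) * L ≤ K * (C₀ * (c + 4)) := by
    have h1 : (V.card : ℝ) * L ≤ K * ∑ k ∈ V, mass κ P k := by
      rw [Finset.mul_sum, ← nsmul_eq_mul, ← Finset.sum_const]
      refine Finset.sum_le_sum fun k hk => ?_
      simp only [hV, Finset.mem_filter, Finset.mem_Ioo] at hk
      have h2 := hk₁ k hk.2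
      have h3 : (k : ℝ) ≤ K := by exact_mod_cast hk.1.2.le
      calc L ≤ k * mass κ P k := h2
        _ ≤ K * mass κ P k := mul_le_mul_of_nonneg_right h3 (mass_nonneg _ _ _)
    have h2 : ∑ k ∈ V, mass κ P k ≤ C₀ * (c + 4) := by
      rw [mass_sum V (N + hm)]
      · apply htop c N
        intro p hp
        simp only [Finset.mem_filter, Finset.mem_Icc, hV, Finset.mem_Ioo] at hp
        obtain ⟨⟨hp1, hp2⟩, hp3, hp4, ⟨hp5, hp6⟩, hp7⟩ := hp
        refine ⟨hp3, ?_, ?_⟩
        · have : N + N ≤ N ^ 2 := by nlinarith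
          omega
        · have hqp : q < p := by
            by_contra hc
            push Not at hc
            have := hκ hc
            omega
          exact hqs.trans_le (Nat.pow_le_pow_left hqp.le _)
      · intro k hk p hp
        simp only [Finset.mem_filter, hV, Finset.mem_Ioo] at hk
        by_contra hc
        push Not at hc
        have := hκ hc.le
        omega
    calc (V.card : ℝ) * L ≤ K * ∑ k ∈ V, mass κ P k := h1
      _ ≤ K * (C₀ * (c + 4)) := mul_le_mul_of_nonneg_left h2 (Nat.cast_nonneg _)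
  have hVc : (V.card : ℝ) ≤ (s / 2) * K := by
    have h1 : (K : ℝ) * (C₀ * (c + 4)) = ((s / 2) * K) * L := by
      rw [hL]; field_simp
    rw [h1] at hVK
    exact le_of_mul_le_mul_right hVK hL0
  have hcard := (Finset.card_le_card hsub).trans (Finset.card_union_le _ _)
  have h2 : (((range (κ z + 1) ∪ {κ q, K}) ∪ range k₁).card) ≤ κ z + 3 + k₁ := by
    refine (Finset.card_union_le _ _).trans ?_
    have h3 := Finset.card_union_le (range (κ z + 1)) {κ q, K}
    have h4 : ({κ q, K} : Finset ℕ).card ≤ 2 := Finset.card_le_two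
    simp only [Finset.card_range] at h3 ⊢
    omega
  have h5 : ((range (K + 1)).filter (fun k => ¬ ctl κ z c N k)).card ≤ κ z + 3 + k₁ + V.card := by
    omega
  calc (((range (K + 1)).filter (fun k => ¬ ctl κ z c N k)).card : ℝ)
      ≤ ((κ z + 3 + k₁ + V.card : ℕ) : ℝ) := by exact_mod_cast h5
    _ = ((κ z + 3 + k₁ : ℕ) : ℝ) + V.card := by push_cast; ring
    _ ≤ _ := by linarith

end FewBadAux

open Classical in
theorem few_bad {κ : ℕ → ℕ} (hκ : Monotone κ) (P : Set ℕ) {g : ℕ → ℤˣ} (hg : MultS g)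
    (hmass : Tendsto (fun k : ℕ => (k : ℝ) * mass κ P k) atTop atTop) (H : Finset ℕ)
    (hne : H.Nonempty) (hm : ℕ) (hH : ∀ h ∈ H, h ≤ hm) (δ s : ℝ) (hδ : 0 < δ) (hs : 0 < s) :
    ∃ C : ℝ, 0 < C ∧ ∀ N : ℕ, 2 ≤ N →
      (((range (κ (N + hm) + 1)).powerset.filter fun S : Finset ℕ =>
        δ ≤ |LA (prodSeq (fun n => g n * rnd (bs κ P (S : Set ℕ)) n) H) N|).card : ℝ) ≤
        C * (2:ℝ) ^ (s * (κ (N + hm) : ℝ)) := by
  obtain ⟨z, m, c, N₀, A, ρ, hA, hρ, hrep⟩ := repel (ι := Finset ℕ) H hne δ hδ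
  obtain ⟨u₀, hu₀⟩ := FewBadAux.unc_card hκ P hmass hm z c s hs
  obtain ⟨C2, hC2, hball⟩ := ball_count (mass κ P) (mass_nonneg κ P) hmass A (s / 2) (by linarith)
  set N1 := max N₀ hm with hN1
  set C : ℝ := (2:ℝ) ^ (κ (N1 + hm) + 1) + (2:ℝ) ^ u₀ * (8 / δ ^ 2) * C2 * (2:ℝ) ^ (s / 2) with hC
  have hCpos : 0 < C := by positivity
  refine ⟨C, hCpos, ?_⟩
  intro N hN2
  set K := κ (N + hm) with hK
  set Bad := (range (K + 1)).powerset.filter fun S : Finset ℕ =>
        δ ≤ |LA (prodSeq (fun n => g n * rnd (bs κ P (S : Set ℕ)) n) H) N| with hBad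
  have h2K : (1:ℝ) ≤ (2:ℝ) ^ (s * (K : ℝ)) := by
    apply Real.one_le_rpow (by norm_num)
    positivity
  rcases lt_or_ge N N1 with hN | hN
  · -- trivial bound
    have h1 : Bad.card ≤ 2 ^ (K + 1) := by
      calc Bad.card ≤ ((range (K + 1)).powerset).card := Finset.card_filter_le _ _
        _ = 2 ^ (K + 1) := by rw [Finset.card_powerset, Finset.card_range]
    have h2 : K ≤ κ (N1 + hm) := hκ (by omega)
    calc (Bad.card : ℝ) ≤ ((2 ^ (K + 1) : ℕ) : ℝ) := by exact_mod_cast h1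
      _ = (2:ℝ) ^ (K + 1) := by push_cast; ring
      _ ≤ (2:ℝ) ^ (κ (N1 + hm) + 1) := pow_le_pow_right₀ (by norm_num) (by omega)
      _ ≤ C := by rw [hC]; have : 0 ≤ (2:ℝ) ^ u₀ * (8 / δ ^ 2) * C2 * (2:ℝ) ^ (s / 2) := by positivity
                  linarith
      _ ≤ C * (2:ℝ) ^ (s * (K : ℝ)) := le_mul_of_one_le_right hCpos.le h2K
  have hNN0 : N₀ ≤ N := (le_max_left _ _).trans hN
  have hNhm : hm ≤ N := (le_max_right _ _).trans hN
  set U := (range (K + 1)).filter (fun k => ¬ FewBadAux.ctl κ z c N k) with hU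
  have hUc := hu₀ N hN2 hNhm
  rw [← hK, ← hU] at hUc
  set Lb : ℝ := C2 * (2:ℝ) ^ (s / 2 * ((K + 1 : ℕ) : ℝ)) with hLb
  -- bound for one class
  have hclass : ∀ W ∈ U.powerset, ((Bad.filter (fun S => S ∩ U = W)).card : ℝ) ≤ (8 / δ ^ 2) * Lb := by
    intro W _
    have hsubK : ∀ S ∈ Bad.filter (fun S => S ∩ U = W), S ⊆ range (K + 1) := by
      intro S hS
      have h1 := (Finset.mem_filter.mp hS).1
      rw [hBad, Finset.mem_filter, Finset.mem_powerset] at h1
      exact h1.1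
    have hctl : ∀ S ∈ Bad.filter (fun S => S ∩ U = W), ∀ S' ∈ Bad.filter (fun S => S ∩ U = W),
        ∀ k ∈ symmDiff S S', FewBadAux.ctl κ z c N k := by
      intro S hS S' hS' k hk
      by_contra hc
      have e : S ∩ U = S' ∩ U :=
        (Finset.mem_filter.mp hS).2.trans (Finset.mem_filter.mp hS').2.symm
      rw [Finset.mem_symmDiff] at hk
      rcases hk with ⟨h1, h2⟩ | ⟨h1, h2⟩
      · have hkU : k ∈ U := by
          rw [hU, Finset.mem_filter]; exact ⟨hsubK S hS h1, hc⟩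
        have : k ∈ S' ∩ U := by rw [← e]; exact Finset.mem_inter.mpr ⟨h1, hkU⟩
        exact h2 (Finset.mem_inter.mp this).1
      · have hkU : k ∈ U := by
          rw [hU, Finset.mem_filter]; exact ⟨hsubK S' hS' h1, hc⟩
        have : k ∈ S ∩ U := by rw [e]; exact Finset.mem_inter.mpr ⟨h1, hkU⟩
        exact h2 (Finset.mem_inter.mp this).1
    have hne_iff : ∀ (S S' : Finset ℕ) (p : ℕ), p.Prime →
        ((g p * rnd (bs κ P (S : Set ℕ)) p ≠ g p * rnd (bs κ P (S' : Set ℕ)) p) ↔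
          (p ∈ P ∧ κ p ∈ symmDiff S S')) := by
      intro S S' p hp
      have e1 : ∀ x : SS, rnd x p = x p := by
        intro x
        have := rnd_prime_pow x hp 1
        simpa using this
      rw [e1, e1, ne_eq, mul_right_inj, ← ne_eq, bs_ne_iff]
      rw [← Finset.coe_symmDiff, Finset.mem_coe]
    refine pack (Bad.filter (fun S => S ∩ U = W)) (fun S S' => A ≤ ∑ k ∈ symmDiff S S', mass κ P k)
      (fun x y h => by rw [symmDiff_comm]; exact h) (8 / δ ^ 2) Lb (by positivity) ?_ ?_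
    · -- far families are small
      intro t ht hfar
      refine hrep N hNN0 t (fun S n => g n * rnd (bs κ P (S : Set ℕ)) n)
        (fun S _ => fam_multS hg _) ?_ ?_ ?_ ?_
      · intro S hS S' hS' p hp hpz e _
        rw [rnd_prime_pow _ hp, rnd_prime_pow _ hp]
        by_cases hb : bs κ P (S : Set ℕ) p = bs κ P (S' : Set ℕ) p
        · rw [hb]
        · exfalso
          have h1 := (bs_ne_iff κ P (S : Set ℕ) (S' : Set ℕ) p).mp hb
          have h2 : κ p ∈ symmDiff S S' := by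
            rw [← Finset.mem_coe, Finset.coe_symmDiff]; exact h1.2
          have h3 := hctl S (ht hS) S' (ht hS') (κ p) h2
          have h4 := hκ hpz
          have h5 := h3.1
          omega
      · intro S hS S' hS' hSS'
        have h1 : A ≤ ∑ k ∈ symmDiff S S', mass κ P k := hfar S hS S' hS' hSS'
        refine h1.trans ?_
        rw [FewBadAux.mass_sum (symmDiff S S') N]
        · apply Finset.sum_le_sum_of_subset_of_nonneg
          · intro p hp
            simp only [Finset.mem_filter, Finset.mem_Icc] at hp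
            obtain ⟨⟨hp1, hp2⟩, hp3, hp4, hp5⟩ := hp
            have h3 := hctl S (ht hS) S' (ht hS') (κ p) hp5
            simp only [Finset.mem_filter, Finset.mem_Ioc]
            refine ⟨⟨?_, hp2⟩, hp3, h3.2 p le_rfl, ?_⟩
            · by_contra hc
              push Not at hc
              have h4 := hκ hc
              have h5 := h3.1
              omega
            · exact (hne_iff S S' p hp3).mpr ⟨hp4, hp5⟩
          · intro p _ _
            positivity
        · intro k hk p hp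
          have h3 := hctl S (ht hS) S' (ht hS') k hk
          have h4 := h3.2 p hp.le
          exact (Nat.le_self_pow (by positivity) p).trans h4
      · intro S hS S' hS'
        rw [Finset.sum_eq_zero]
        · exact hρ.le
        · intro p hp
          exfalso
          simp only [Finset.mem_filter, Finset.mem_Icc] at hp
          obtain ⟨⟨hp1, hp2⟩, hp3, hp4, hp5⟩ := hp
          have h2 := (hne_iff S S' p hp3).mp hp5
          have h3 := hctl S (ht hS) S' (ht hS') (κ p) h2.2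
          have h4 := h3.2 p le_rfl
          omega
      · intro S hS
        have h1 := (Finset.mem_filter.mp (ht hS)).1
        rw [hBad, Finset.mem_filter] at h1
        exact h1.2
    · -- balls are small
      intro x hx
      have hb := hball (K + 1)
      refine le_trans ?_ hb
      rw [Nat.cast_le]
      apply Finset.card_le_card_of_injOn (fun y => symmDiff x y)
      · intro y hy
        simp only [Finset.mem_coe, Finset.mem_filter] at hy
        obtain ⟨hy0, hy2⟩ := hy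
        have hy1 : y ∈ Bad.filter (fun S => S ∩ U = W) := Finset.mem_filter.mpr hy0
        refine Finset.mem_coe.mpr (Finset.mem_filter.mpr ⟨Finset.mem_powerset.mpr ?_, ?_⟩)
        · intro k hk
          rw [Finset.mem_symmDiff] at hk
          rcases hk with ⟨h1, _⟩ | ⟨h1, _⟩
          · exact hsubK x hx h1
          · exact hsubK y hy1 h1
        · rcases hy2 with h1 | h1
          · subst h1
            simpa using hA
          · exact not_le.mp h1
      · intro y _ y' _ h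
        exact symmDiff_right_injective x h
  -- sum over classes
  have hmaps : ∀ S ∈ Bad, S ∩ U ∈ U.powerset := by
    intro S _
    rw [Finset.mem_powerset]
    exact Finset.inter_subset_right
  have hsum : (Bad.card : ℝ) ≤ (2:ℝ) ^ U.card * ((8 / δ ^ 2) * Lb) := by
    rw [Finset.card_eq_sum_card_fiberwise hmaps]
    push_cast
    calc ∑ W ∈ U.powerset, ((Bad.filter (fun S => S ∩ U = W)).card : ℝ)
        ≤ ∑ W ∈ U.powerset, (8 / δ ^ 2) * Lb := Finset.sum_le_sum hclass
      _ = (2:ℝ) ^ U.card * ((8 / δ ^ 2) * Lb) := by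
          rw [Finset.sum_const, Finset.card_powerset, nsmul_eq_mul]
          push_cast
          ring
  have h2U : (2:ℝ) ^ U.card ≤ (2:ℝ) ^ u₀ * (2:ℝ) ^ (s / 2 * (K : ℝ)) := by
    calc (2:ℝ) ^ U.card = (2:ℝ) ^ ((U.card : ℕ) : ℝ) := by rw [Real.rpow_natCast]
      _ ≤ (2:ℝ) ^ ((u₀ : ℝ) + (s / 2) * K) := Real.rpow_le_rpow_of_exponent_le (by norm_num) hUc
      _ = _ := by rw [Real.rpow_add (by norm_num), Real.rpow_natCast]
  have hLbe : Lb = C2 * ((2:ℝ) ^ (s / 2 * (K : ℝ)) * (2:ℝ) ^ (s / 2)) := by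
    rw [hLb, ← Real.rpow_add (by norm_num)]
    congr 2
    push_cast; ring
  have hKK : (2:ℝ) ^ (s / 2 * (K : ℝ)) * (2:ℝ) ^ (s / 2 * (K : ℝ)) = (2:ℝ) ^ (s * (K : ℝ)) := by
    rw [← Real.rpow_add (by norm_num)]
    congr 1; ring
  calc (Bad.card : ℝ) ≤ (2:ℝ) ^ U.card * ((8 / δ ^ 2) * Lb) := hsum
    _ ≤ ((2:ℝ) ^ u₀ * (2:ℝ) ^ (s / 2 * (K : ℝ))) * ((8 / δ ^ 2) * Lb) :=
        mul_le_mul_of_nonneg_right h2U (by positivity)
    _ = (2:ℝ) ^ u₀ * (8 / δ ^ 2) * C2 * (2:ℝ) ^ (s / 2) *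
          ((2:ℝ) ^ (s / 2 * (K : ℝ)) * (2:ℝ) ^ (s / 2 * (K : ℝ))) := by rw [hLbe]; ring
    _ = (2:ℝ) ^ u₀ * (8 / δ ^ 2) * C2 * (2:ℝ) ^ (s / 2) * (2:ℝ) ^ (s * (K : ℝ)) := by rw [hKK]
    _ ≤ C * (2:ℝ) ^ (s * (K : ℝ)) := by
        apply mul_le_mul_of_nonneg_right _ (by positivity)
        rw [hC]
        have : 0 ≤ (2:ℝ) ^ (κ (N1 + hm) + 1) := by positivity
        linarith

end Pool.Agent.Lib.P4a7640D
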