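import Mathlib

/-!
# Limsup sets of dyadic intervals of dimension zero

Module P4a7640D.Haus.  (Self-contained.)

For `a : ℕ` and `i` let `I i a = {α ∈ [0,2) : ⌊2^(K i) α⌋₊ = a} ⊆ [a/2^(K i), (a+1)/2^(K i))`, of
diameter at most `2^(-K i)`.  For every `n`, `E ⊆ ⋃ i ≥ n, ⋃ a ∈ A i, I i a`.  For `s > 0` the
`s`-dimensional Hausdorff measure of `E` is `0`:
`MeasureTheory.Measure.hausdorffMeasure_le_liminf_tsum` (index type `β n = {(i, a) : n ≤ i, a ∈ A i}`,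
or `ℕ × ℕ` with empty sets for the pairs that are not used) and
`∑ i ≥ n, |A i| 2^(-s K i) → 0` (tails of the summable series `hsum`).  Then
`dimH E = 0`: `dimH_le_of_hausdorffMeasure_ne_top`/`dimH_le` for all `s > 0`
(`μH[s] E = 0 ≠ ∞` gives `dimH E ≤ s`).

`dimH_translates`: `E` is the countable union over `l : ℤ` of `(E ∩ [0,2)) + 2 l`
(`dimH_iUnion`), and translations are isometries (`IsometryEquiv.dimH_image`,
`(IsometryEquiv.addRight c).dimH_image` or `Isometry.dimH_image`).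
-/

open Filter Topology MeasureTheory
open scoped ENNReal NNReal

namespace Pool.Agent.Lib.P4a7640D

namespace HausAux

open Classical in
/-- the covering sets -/
noncomputable def cov (K : ℕ → ℕ) (A : ℕ → Finset ℕ) (n : ℕ) (x : ℕ × ℕ) : Set ℝ :=
  if n ≤ K (x.1 + n) ∧ x.2 ∈ A (x.1 + n) then
    {α | α ∈ Set.Ico (0:ℝ) 2 ∧ ⌊(2:ℝ) ^ (K (x.1 + n)) * α⌋₊ = x.2} else ∅

theorem diam_cell (k a : ℕ) :
    Metric.ediam {α | α ∈ Set.Ico (0:ℝ) 2 ∧ ⌊(2:ℝ) ^ k * α⌋₊ = a} ≤ (2⁻¹ : ℝ≥0∞) ^ k := by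
  apply Metric.ediam_le
  rintro x ⟨hx, hx'⟩ y ⟨hy, hy'⟩
  have h2 : (0:ℝ) < 2 ^ k := by positivity
  have hx0 : (0:ℝ) ≤ 2 ^ k * x := mul_nonneg h2.le hx.1
  have hy0 : (0:ℝ) ≤ 2 ^ k * y := mul_nonneg h2.le hy.1
  have hx1 := (Nat.floor_eq_iff hx0).1 hx'
  have hy1 := (Nat.floor_eq_iff hy0).1 hy'
  have h3 : |x - y| ≤ (2⁻¹:ℝ) ^ k := by
    have h4 : (2:ℝ) ^ k * |x - y| ≤ 1 := by
      have e : (2:ℝ) ^ k * |x - y| = |2 ^ k * (x - y)| := by rw [abs_mul, abs_of_pos h2]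
      rw [e, mul_sub, abs_le]
      constructor <;> linarith [hx1.1, hx1.2, hy1.1, hy1.2]
    rw [inv_pow, ← one_div, le_div_iff₀ h2, mul_comm]
    exact h4
  rw [edist_dist, Real.dist_eq]
  have h5 : (2⁻¹ : ℝ≥0∞) ^ k = ENNReal.ofReal ((2⁻¹:ℝ) ^ k) := by
    rw [ENNReal.ofReal_pow (by norm_num), ENNReal.ofReal_inv_of_pos (by norm_num)]
    norm_num
  rw [h5]
  exact ENNReal.ofReal_le_ofReal h3

theorem haus_zero (E : Set ℝ) (hE : E ⊆ Set.Ico 0 2) (K : ℕ → ℕ)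
    (hK : Tendsto K atTop atTop) (A : ℕ → Finset ℕ)
    (hcov : ∀ α ∈ E, ∃ᶠ i in atTop, ⌊(2:ℝ) ^ (K i) * α⌋₊ ∈ A i)
    (s : ℝ) (hs : 0 < s)
    (hsum : Summable fun i => ((A i).card : ℝ) * (2:ℝ) ^ (-(s * K i))) :
    Measure.hausdorffMeasure s E = 0 := by
  classical
  set g : ℕ → ℝ≥0∞ := fun i => ENNReal.ofReal (((A i).card : ℝ) * (2:ℝ) ^ (-(s * K i))) with hg
  have hgs : ∑' i, g i ≠ ∞ := by
    rw [hg, ← ENNReal.ofReal_tsum_of_nonneg (fun i => by positivity) hsum]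
    exact ENNReal.ofReal_ne_top
  have htail := ENNReal.tendsto_sum_nat_add g hgs
  have hr : Tendsto (fun n : ℕ => (2⁻¹ : ℝ≥0∞) ^ n) atTop (𝓝 0) :=
    ENNReal.tendsto_pow_atTop_nhds_zero_of_lt_one (by
      rw [ENNReal.inv_lt_one]; norm_num)
  have hcell : ∀ n x, Metric.ediam (cov K A n x) ≤ (2⁻¹ : ℝ≥0∞) ^ n := by
    intro n x
    unfold cov
    split_ifs with h
    · refine (diam_cell _ _).trans ?_
      exact pow_le_pow_right_of_le_one' (by rw [ENNReal.inv_le_one]; norm_num) h.1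
    · simp
  have hmain := Measure.hausdorffMeasure_le_liminf_tsum (X := ℝ) s E (l := atTop)
    (fun n : ℕ => (2⁻¹ : ℝ≥0∞) ^ n) hr (fun n (x : ℕ × ℕ) => cov K A n x)
    (Eventually.of_forall fun n x => hcell n x) (Eventually.of_forall fun n α hα => by
      have h1 : ∀ᶠ i in atTop, n ≤ K i ∧ n ≤ i :=
        (hK.eventually_ge_atTop n).and (eventually_ge_atTop n)
      obtain ⟨i, hi, hi1, hi2⟩ := ((hcov α hα).and_eventually h1).exists
      rw [Set.mem_iUnion]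
      refine ⟨(i - n, ⌊(2:ℝ) ^ (K i) * α⌋₊), ?_⟩
      unfold cov
      have e : i - n + n = i := by omega
      simp only [e]
      rw [if_pos ⟨hi1, hi⟩]
      exact ⟨hE hα, rfl⟩)
  have hle : ∀ n : ℕ, ∑' x : ℕ × ℕ, Metric.ediam (cov K A n x) ^ s ≤ ∑' k, g (k + n) := by
    intro n
    rw [ENNReal.tsum_prod']
    refine ENNReal.tsum_le_tsum fun k => ?_
    have h1 : ∀ a ∉ A (k + n), Metric.ediam (cov K A n (k, a)) ^ s = 0 := by
      intro a ha
      unfold cov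
      rw [if_neg (fun h => ha h.2), Metric.ediam_empty, ENNReal.zero_rpow_of_pos hs]
    rw [tsum_eq_sum h1]
    have h2 : ∀ a ∈ A (k + n), Metric.ediam (cov K A n (k, a)) ^ s ≤
        ENNReal.ofReal ((2:ℝ) ^ (-(s * K (k + n)))) := by
      intro a ha
      have h3 : Metric.ediam (cov K A n (k, a)) ≤ (2⁻¹ : ℝ≥0∞) ^ (K (k + n)) := by
        unfold cov
        split_ifs with h
        · exact diam_cell _ _
        · simp
      refine (ENNReal.rpow_le_rpow h3 hs.le).trans (le_of_eq ?_)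
      have h5 : (2⁻¹ : ℝ≥0∞) ^ (K (k + n)) = ENNReal.ofReal ((2⁻¹:ℝ) ^ (K (k + n))) := by
        rw [ENNReal.ofReal_pow (by norm_num), ENNReal.ofReal_inv_of_pos (by norm_num)]
        norm_num
      rw [h5, ENNReal.ofReal_rpow_of_nonneg (by positivity) hs.le]
      congr 1
      rw [Real.rpow_neg (by norm_num), mul_comm s, Real.rpow_mul (by norm_num),
        Real.rpow_natCast, inv_pow, Real.inv_rpow (by positivity)]
    refine (Finset.sum_le_sum h2).trans ?_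
    rw [Finset.sum_const, nsmul_eq_mul, hg]
    simp only
    rw [ENNReal.ofReal_mul (by positivity), ENNReal.ofReal_natCast]
  have hlim : Tendsto (fun n : ℕ => ∑' x : ℕ × ℕ, Metric.ediam (cov K A n x) ^ s) atTop (𝓝 0) :=
    tendsto_of_tendsto_of_tendsto_of_le_of_le tendsto_const_nhds htail
      (fun n => zero_le) hle
  rw [hlim.liminf_eq] at hmain
  exact le_antisymm hmain (zero_le)

end HausAux

theorem dimH_limsup_zero (E : Set ℝ) (hE : E ⊆ Set.Ico 0 2) (K : ℕ → ℕ)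
    (hK : Tendsto K atTop atTop) (A : ℕ → Finset ℕ)
    (hcov : ∀ α ∈ E, ∃ᶠ i in atTop, ⌊(2:ℝ) ^ (K i) * α⌋₊ ∈ A i)
    (hsum : ∀ s : ℝ, 0 < s → Summable fun i => ((A i).card : ℝ) * (2:ℝ) ^ (-(s * K i))) :
    dimH E = 0 := by
  by_contra h
  obtain ⟨d, hd0, hd⟩ := ENNReal.lt_iff_exists_nnreal_btwn.1 (pos_iff_ne_zero.2 h)
  have hd0' : (0:ℝ) < d := by
    have := ENNReal.coe_pos.1 hd0
    exact_mod_cast this
  have h1 := HausAux.haus_zero E hE K hK A hcov d hd0' (hsum d hd0')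
  have h2 : dimH E ≤ d := dimH_le_of_hausdorffMeasure_ne_top (by rw [h1]; exact ENNReal.zero_ne_top)
  exact absurd hd (not_lt.2 h2)

theorem dimH_translates (E : Set ℝ) (hper : ∀ α : ℝ, ∀ l : ℤ, α + 2 * l ∈ E ↔ α ∈ E)
    (h0 : dimH (E ∩ Set.Ico 0 2) = 0) : dimH E = 0 := by
  have h1 : E ⊆ ⋃ l : ℤ, (IsometryEquiv.addRight (2 * (l:ℝ))) '' (E ∩ Set.Ico 0 2) := by
    intro α hα
    rw [Set.mem_iUnion]
    refine ⟨⌊α / 2⌋, α + 2 * ((-⌊α / 2⌋ : ℤ) : ℝ), ⟨(hper α _).2 hα, ?_, ?_⟩, ?_⟩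
    · have := Int.floor_le (α / 2)
      push_cast
      linarith
    · have := Int.lt_floor_add_one (α / 2)
      push_cast
      linarith
    · simp
  refine le_antisymm ((dimH_mono h1).trans ?_) (zero_le)
  rw [dimH_iUnion]
  refine iSup_le fun l => ?_
  rw [IsometryEquiv.dimH_image, h0]

end Pool.Agent.Lib.P4a7640D
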