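import Mathlib
import Pool.Agent.Lib.P4a7640D.FewBad
import Pool.Agent.Lib.P4a7640D.Digits
import Pool.Agent.Lib.P4a7640D.Haus

/-!
# The exceptional set has dimension zero
-/

open Finset Filter Topology
open Pool.Agent.Lib.P4a7640

namespace Pool.Agent.Lib.P4a7640D

/-- growth of the number of blocks along the scales `NK i` -/
private lemma growth {κ : ℕ → ℕ} (hκ : Monotone κ)
    (hgrow : Tendsto (fun N : ℕ => (κ N : ℝ) / Real.log (Real.log (Real.log N))) atTop atTop)
    (hm : ℕ) {M : ℝ} (hM : 0 < M) :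
    ∀ᶠ i : ℕ in atTop, M * Real.log i ≤ (κ (NK i + hm) : ℝ) := by
  have h1 : Tendsto (fun i : ℕ => (κ (NK i) : ℝ) / Real.log (Real.log (Real.log (NK i)))) atTop
      atTop := hgrow.comp tendsto_NK
  filter_upwards [h1.eventually_ge_atTop (2 * M), eventually_ge_atTop 2] with i hi hi2
  have h2 : Real.log i / 2 ≤ Real.log (Real.log (Real.log (NK i))) :=
    half_log_le_l3_NK (by omega)
  have h3 : 0 < Real.log i := Real.log_pos (by exact_mod_cast hi2)
  have h4 : 0 < Real.log (Real.log (Real.log (NK i))) := by linarith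
  rw [le_div_iff₀ h4] at hi
  have h5 : (κ (NK i) : ℝ) ≤ κ (NK i + hm) := by exact_mod_cast hκ (Nat.le_add_right _ _)
  nlinarith

open Classical in
theorem dim_zero {κ : ℕ → ℕ} (hκ : Monotone κ)
    (hgrow : Tendsto (fun N : ℕ => (κ N : ℝ) / Real.log (Real.log (Real.log N))) atTop atTop)
    (P : Set ℕ) {g : ℕ → ℤˣ} (hg : MultS g)
    (hmass : Tendsto (fun k : ℕ => (k : ℝ) * mass κ P k) atTop atTop) :
    dimH {α : ℝ | ¬ Vanish fun n => g n * rnd (bs κ P (dig α)) n} = 0 := by
  set f : ℝ → ℕ → ℤˣ := fun α n => g n * rnd (bs κ P (dig α)) n with hf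
  apply dimH_translates
  · intro α l
    simp only [Set.mem_ofPred_eq, dig_add]
  set E' : Finset ℕ → ℕ → Set ℝ := fun H j => {α | α ∈ Set.Ico (0:ℝ) 2 ∧ H.Nonempty ∧
    ∃ᶠ i in atTop, 1 / ((j:ℝ) + 1) ≤ |LA (prodSeq (f α) H) (NK i)|} with hE'
  have hsub : {α : ℝ | ¬ Vanish (f α)} ∩ Set.Ico 0 2 ⊆ ⋃ H, ⋃ j, E' H j := by
    rintro α ⟨h1, h2⟩
    by_contra hcon
    simp only [Set.mem_iUnion, not_exists] at hcon
    apply h1
    intro H hne
    apply interp (fun n => (abs_prodSeq _ _ _).le)
    rw [Metric.tendsto_atTop]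
    intro ε hε
    obtain ⟨j, hj⟩ := exists_nat_one_div_lt hε
    have h3 := hcon H j
    simp only [hE', Set.mem_ofPred_eq, not_and] at h3
    have h4 := h3 h2 hne
    rw [not_frequently] at h4
    obtain ⟨i0, hi0⟩ := eventually_atTop.mp h4
    refine ⟨i0, fun i hi => ?_⟩
    have h5 := hi0 i hi
    rw [not_le] at h5
    rw [dist_zero_right, Real.norm_eq_abs]
    exact h5.trans hj
  have hzero : ∀ H j, dimH (E' H j) = 0 := by
    intro H j
    by_cases hne : H.Nonempty
    swap
    · have : E' H j = ∅ := by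
        ext α
        simp only [hE', Set.mem_ofPred_eq, Set.mem_empty_iff_false, iff_false]
        rintro ⟨-, h, -⟩
        exact hne h
      rw [this, dimH_empty]
    set hm := H.sup id with hhm
    have hH : ∀ h ∈ H, h ≤ hm := fun h hh => Finset.le_sup (f := id) hh
    have hδ : (0:ℝ) < 1 / ((j:ℝ) + 1) := by positivity
    set K : ℕ → ℕ := fun i => κ (NK i + hm) with hK
    set B : ℕ → Finset (Finset ℕ) := fun i => (range (K i + 1)).powerset.filter
      fun S : Finset ℕ => 1 / ((j:ℝ) + 1) ≤
        |LA (prodSeq (fun n => g n * rnd (bs κ P (S : Set ℕ)) n) H) (NK i)| with hB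
    set A : ℕ → Finset ℕ := fun i => (range (2 ^ (K i + 1))).filter fun a =>
      (range (K i + 1)).filter (fun k => Odd (a / 2 ^ (K i - k))) ∈ B i with hA
    have hKtop : Tendsto K atTop atTop := by
      have h1 : Tendsto (fun i => (K i : ℝ)) atTop atTop := by
        apply tendsto_atTop_mono' atTop (growth hκ hgrow hm one_pos)
        simp only [one_mul]
        exact Real.tendsto_log_atTop.comp tendsto_natCast_atTop_atTop
      exact tendsto_natCast_atTop_iff.mp h1
    refine dimH_limsup_zero (E' H j) (fun α hα => hα.1) K hKtop A ?_ ?_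
    · rintro α ⟨hα, -, hfr⟩
      refine hfr.mono fun i hi => ?_
      rw [hA]
      simp only [Finset.mem_filter, Finset.mem_range]
      refine ⟨floor_lt hα (K i), ?_⟩
      rw [hB]
      simp only [Finset.mem_filter, Finset.mem_powerset]
      refine ⟨Finset.filter_subset _ _, ?_⟩
      have h1 : LA (prodSeq (fun n => g n * rnd (bs κ P (dig α)) n) H) (NK i) =
          LA (prodSeq (fun n => g n * rnd (bs κ P (((range (K i + 1)).filter
            (fun k => Odd (⌊(2:ℝ) ^ K i * α⌋₊ / 2 ^ (K i - k))) : Finset ℕ) : Set ℕ)) n) H)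
            (NK i) := by
        apply fam_congr hκ P g hH
        intro k hk
        rw [dig_iff hα.1 hk, Finset.mem_coe, Finset.mem_filter, Finset.mem_range]
        constructor
        · intro h
          exact ⟨Nat.lt_succ_of_le hk, h⟩
        · intro h
          exact h.2
      rw [← h1]
      exact hi
    · intro s hs
      obtain ⟨C, hC0, hC⟩ := few_bad hκ P hg hmass H hne hm hH (1 / ((j:ℝ) + 1)) (s / 2) hδ
        (by positivity)
      have hl2 : 0 < Real.log 2 := Real.log_pos (by norm_num)
      have hMpos : (0:ℝ) < 4 / (s * Real.log 2) := by positivity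
      have hev : ∀ᶠ i : ℕ in atTop, ‖((A i).card : ℝ) * (2:ℝ) ^ (-(s * K i))‖ ≤
          C * (1 / (i:ℝ) ^ 2) := by
        filter_upwards [growth hκ hgrow hm hMpos, eventually_ge_atTop 2,
          tendsto_NK.eventually_ge_atTop 2] with i hi hi2 hNK
        have h1 : ((A i).card : ℝ) ≤ C * (2:ℝ) ^ (s / 2 * (K i : ℝ)) := by
          refine le_trans ?_ (hC (NK i) hNK)
          have h0 : ((A i).card : ℝ) ≤ ((B i).card : ℝ) := Nat.cast_le.mpr (card_le (K i) (B i))
          exact h0
        have hi0 : (0:ℝ) < i := by exact_mod_cast (show 0 < i by omega)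
        have h2 : (0:ℝ) ≤ (2:ℝ) ^ (-(s * K i)) := by positivity
        rw [Real.norm_of_nonneg (by positivity)]
        calc ((A i).card : ℝ) * (2:ℝ) ^ (-(s * K i))
            ≤ (C * (2:ℝ) ^ (s / 2 * (K i : ℝ))) * (2:ℝ) ^ (-(s * K i)) :=
              mul_le_mul_of_nonneg_right h1 h2
          _ = C * (2:ℝ) ^ (-(s / 2 * (K i : ℝ))) := by
              rw [mul_assoc, ← Real.rpow_add (by norm_num)]
              congr 2
              ring
          _ ≤ C * (1 / (i:ℝ) ^ 2) := by
              apply mul_le_mul_of_nonneg_left _ hC0.le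
              rw [Real.rpow_def_of_pos (by norm_num), one_div, ← Real.rpow_natCast (i:ℝ) 2,
                ← Real.rpow_neg hi0.le, Real.rpow_def_of_pos hi0]
              apply Real.exp_le_exp.mpr
              have h3 : 4 / (s * Real.log 2) * Real.log i ≤ (K i : ℝ) := hi
              have h4 : s / 2 * Real.log 2 * (4 / (s * Real.log 2) * Real.log i) =
                  2 * Real.log i := by
                field_simp
                ring
              have h5 : s / 2 * Real.log 2 * (4 / (s * Real.log 2) * Real.log i) ≤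
                  s / 2 * Real.log 2 * (K i : ℝ) := mul_le_mul_of_nonneg_left h3 (by positivity)
              push_cast
              nlinarith
      have hsum : Summable fun i : ℕ => C * (1 / (i:ℝ) ^ 2) :=
        (Real.summable_one_div_nat_pow.mpr (by norm_num)).mul_left C
      refine hsum.of_norm_bounded_eventually_nat ?_
      exact hev
  have hle : dimH ({α : ℝ | ¬ Vanish (f α)} ∩ Set.Ico 0 2) ≤ 0 := by
    refine (dimH_mono hsub).trans ?_
    rw [dimH_iUnion]
    refine iSup_le fun H => ?_
    rw [dimH_iUnion]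
    exact iSup_le fun j => (hzero H j).le
  exact le_antisymm hle bot_le

end Pool.Agent.Lib.P4a7640D
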