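import Mathlib
import Pool.Agent.Lib.P4a7640.Furst
import Pool.Agent.Lib.P4a7640D.DimMain

/-!
# One binary digit per block of primes: an exceptional set of Hausdorff dimension zero
-/

open MeasureTheory Filter Topology
open Pool.Agent.Lib.P4a7640
open Pool.Agent.Lib.P4a7640D

namespace Pool.Agent.Results.MP_4a7640_nt.DimensionZero

/-- Let `κ : ℕ → ℕ` be nondecreasing with `κ(N) / log log log N → ∞` (it cuts the primes into
consecutive blocks `κ(p) = k`), and let `P` be a set of primes such that
`k * ∑ 1/p → ∞` as `k → ∞`, the sum being over the primes `p ∈ P` with `κ(p) = k`. For instance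
`κ(p) = ⌊log log p⌋` and `P` the set of all primes. Let `g : ℕ → {-1,1}` be any multiplicative
function. For a real number `α` let `f_α = g * r_α`, where `r_α` is completely multiplicative,
`r_α(p) = -1` if `p ∈ P` and the binary digit `⌊2^k α⌋ mod 2` of `α` with `k = κ(p)` is `1`, and
`r_α(p) = 1` otherwise. Then the set of the real numbers `α` for which it is not true that `f_α` is
an aperiodic multiplicative function with a unique Furstenberg system and that this system is the
`(1/2, 1/2)` Bernoulli shift, has Hausdorff dimension `0`. -/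
theorem result (κ : ℕ → ℕ) (hκ : Monotone κ)
    (hgrow : Tendsto (fun N : ℕ => (κ N : ℝ) / Real.log (Real.log (Real.log N))) atTop atTop)
    (P : Set ℕ) (hmass : Tendsto (fun k : ℕ => (k : ℝ) * mass κ P k) atTop atTop)
    (g : ℕ → ℤˣ) (hg : MultS g) :
    dimH {α : ℝ | ¬ (MultS (fun n => g n * rnd (bs κ P (dig α)) n) ∧
      Aperiodic (fun n => g n * rnd (bs κ P (dig α)) n) ∧
      FairSystem (fun n => g n * rnd (bs κ P (dig α)) n))} = 0 := by
  have h := dim_zero hκ hgrow P hg hmass
  refine le_antisymm ((dimH_mono ?_).trans h.le) bot_le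
  intro α hα hv
  apply hα
  have hm : MultS fun n => g n * rnd (bs κ P (dig α)) n :=
    hg.mul fun m n hm hn _ => rnd_mul _ hm.ne' hn.ne'
  exact ⟨hm, hv.aperiodic hm, fairAlong_of_vanish le_rfl hv⟩

end Pool.Agent.Results.MP_4a7640_nt.DimensionZero
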