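import Mathlib
import Pool.Agent.Lib.P4a7640D.Annuli
import Pool.Agent.Lib.P4a7640D.CountMain

/-!
# Isolation in slow neighbourhoods
-/

open Finset Filter Topology
open Pool.Agent.Lib.P4a7640

namespace Pool.Agent.Lib.P4a7640D

namespace IsoSlowAux

lemma sum_inv_le_log (K : ℕ) : ∑ N ∈ Icc 1 K, (1:ℝ) / N ≤ 1 + Real.log K := by
  have h : (∑ N ∈ Icc 1 K, (1:ℝ) / N) = (harmonic K : ℝ) := by
    rw [harmonic_eq_sum_Icc]
    push_cast
    refine Finset.sum_congr rfl fun i _ => ?_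
    rw [one_div]
  rw [h]
  exact harmonic_le_one_add_log K

/-- if `A` is contained in `B` up to the initial segment `[1, a]` (for the elements up to `K`) then
the densities up to `K` differ by at most `(1 + log a) / log K` -/
lemma LD_le_add {A B : Set ℕ} {a K : ℕ} (hK : 3 ≤ K)
    (h : ∀ N, a < N → N ≤ K → N ∈ A → N ∈ B) :
    LD A K ≤ (1 + Real.log a) / Real.log K + LD B K := by
  classical
  have hlogK : 0 < Real.log K := Real.log_pos (by
    have : (3:ℝ) ≤ K := by exact_mod_cast hK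
    linarith)
  unfold LD
  rw [← add_div]
  apply div_le_div_of_nonneg_right _ hlogK.le
  have hsub : (Icc 1 K).filter (fun N => N ∈ A) ⊆
      Icc 1 a ∪ (Icc 1 K).filter (fun N => N ∈ B) := by
    intro N hN
    rw [mem_filter, mem_Icc] at hN
    rw [mem_union, mem_filter, mem_Icc, mem_Icc]
    by_cases hNa : N ≤ a
    · exact Or.inl ⟨hN.1.1, hNa⟩
    · exact Or.inr ⟨hN.1, h N (not_le.mp hNa) hN.1.2 hN.2⟩
  have h1 : ∑ N ∈ (Icc 1 K).filter (fun N => N ∈ A), (1:ℝ) / N ≤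
      ∑ N ∈ Icc 1 a ∪ (Icc 1 K).filter (fun N => N ∈ B), (1:ℝ) / N :=
    sum_le_sum_of_subset_of_nonneg hsub fun N _ _ => by positivity
  have h2 : ∑ N ∈ Icc 1 a ∪ (Icc 1 K).filter (fun N => N ∈ B), (1:ℝ) / N ≤
      ∑ N ∈ Icc 1 a, (1:ℝ) / N + ∑ N ∈ (Icc 1 K).filter (fun N => N ∈ B), (1:ℝ) / N := by
    rw [← sum_union_inter]
    have : (0:ℝ) ≤ ∑ N ∈ Icc 1 a ∩ (Icc 1 K).filter (fun N => N ∈ B), (1:ℝ) / N :=
      sum_nonneg fun N _ => by positivity
    linarith
  linarith [sum_inv_le_log a]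

lemma tendsto_const_div_log (c : ℝ) : Tendsto (fun K : ℕ => c / Real.log K) atTop (𝓝 0) :=
  (Real.tendsto_log_atTop.comp tendsto_natCast_atTop_atTop).const_div_atTop _

end IsoSlowAux

theorem choose_y {g : ℕ → ℤˣ} (hg : MultS g) :
    ∃ (y : ℕ → ℕ) (ρ : ℕ → ℕ → ℝ), Tendsto y atTop atTop ∧ (∀ N, y N ≤ N) ∧
      ∀ m l : ℕ, ∃ᶠ K in atTop, LD {N | N ∈ GG g m (ρ m l) (y N)} K < 3 / ((l:ℝ) + 1) := by
  have h𝒰 : ((hyperfilter ℕ : Ultrafilter ℕ) : Filter ℕ) ≤ atTop := Nat.hyperfilter_le_atTop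
  have hann : ∀ m l : ℕ, ∃ ρ : ℝ, ∀ y : ℕ, ∀ᶠ K in ((hyperfilter ℕ : Ultrafilter ℕ) : Filter ℕ),
      LD (GG g m ρ y) K < 1 / ((l:ℝ) + 1) := fun m l =>
    annuli hg (hyperfilter ℕ) h𝒰 m (1 / ((l:ℝ) + 1)) (by positivity)
  choose ρ hρ using hann
  have hstep : ∀ j a : ℕ, ∃ K : ℕ, a < K ∧ 3 ≤ K ∧
      (∀ m ∈ range (j + 1), ∀ l ∈ range (j + 1), LD (GG g m (ρ m l) j) K < 1 / ((l:ℝ) + 1)) ∧
      (1 + Real.log a) * ((j:ℝ) + 1) ≤ Real.log K := by
    intro j a
    have e1 : ∀ᶠ K in ((hyperfilter ℕ : Ultrafilter ℕ) : Filter ℕ), a < K :=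
      h𝒰 (eventually_gt_atTop a)
    have e2 : ∀ᶠ K in ((hyperfilter ℕ : Ultrafilter ℕ) : Filter ℕ), 3 ≤ K :=
      h𝒰 (eventually_ge_atTop 3)
    have e3 : ∀ᶠ K in ((hyperfilter ℕ : Ultrafilter ℕ) : Filter ℕ),
        ∀ m ∈ range (j + 1), ∀ l ∈ range (j + 1), LD (GG g m (ρ m l) j) K < 1 / ((l:ℝ) + 1) := by
      rw [eventually_all_finset]
      intro m _
      rw [eventually_all_finset]
      intro l _
      exact hρ m l j
    have e4 : ∀ᶠ K : ℕ in ((hyperfilter ℕ : Ultrafilter ℕ) : Filter ℕ),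
        (1 + Real.log a) * ((j:ℝ) + 1) ≤ Real.log K :=
      h𝒰 ((Real.tendsto_log_atTop.comp tendsto_natCast_atTop_atTop).eventually_ge_atTop _)
    obtain ⟨K, hK1, hK2, hK3, hK4⟩ := (e1.and (e2.and (e3.and e4))).exists
    exact ⟨K, hK1, hK2, hK3, hK4⟩
  choose F hF using hstep
  obtain ⟨Ks, hKs0, hKs⟩ : ∃ Ks : ℕ → ℕ, Ks 0 = 3 ∧ ∀ j, Ks (j + 1) = F (j + 1) (Ks j) :=
    ⟨fun n => Nat.rec 3 (fun j a => F (j + 1) a) n, rfl, fun _ => rfl⟩
  have hlt : ∀ j, Ks j < Ks (j + 1) := fun j => by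
    rw [hKs]
    exact (hF (j + 1) (Ks j)).1
  have hmonoK : StrictMono Ks := strictMono_nat_of_lt_succ hlt
  have hex : ∀ N : ℕ, ∃ j, N ≤ Ks j := fun N => ⟨N, hmonoK.id_le N⟩
  refine ⟨fun N => Nat.find (hex N), ρ, ?_, ?_, ?_⟩
  · rw [tendsto_atTop]
    intro b
    filter_upwards [eventually_gt_atTop (Ks b)] with N hN
    rw [Nat.le_find_iff]
    intro m hm hcon
    have := hmonoK.monotone hm.le
    omega
  · intro N
    exact Nat.find_min' (hex N) (hmonoK.id_le N)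
  · intro m l
    rw [frequently_atTop]
    intro b
    set j := max b (max m l) with hj
    have hbj : b ≤ j := le_max_left _ _
    have hmj : m ≤ j := (le_max_left m l).trans (le_max_right _ _)
    have hlj : l ≤ j := (le_max_right m l).trans (le_max_right _ _)
    refine ⟨Ks (j + 1), ?_, ?_⟩
    · have h1 : j + 1 ≤ Ks (j + 1) := hmonoK.id_le (j + 1)
      omega
    · obtain ⟨h1, h2, h3, h4⟩ := hF (j + 1) (Ks j)
      rw [← hKs] at h1 h2 h3 h4
      have h5 := h3 m (mem_range.mpr (by omega)) l (mem_range.mpr (by omega))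
      have h6 : LD {N | N ∈ GG g m (ρ m l) (Nat.find (hex N))} (Ks (j + 1)) ≤
          (1 + Real.log (Ks j)) / Real.log (Ks (j + 1)) +
            LD (GG g m (ρ m l) (j + 1)) (Ks (j + 1)) := by
        apply IsoSlowAux.LD_le_add h2
        intro N hN1 hN2 hN
        have h7 : Nat.find (hex N) = j + 1 := by
          rw [Nat.find_eq_iff]
          refine ⟨hN2, ?_⟩
          intro n hn hcon
          have : Ks n ≤ Ks j := hmonoK.monotone (by omega)
          omega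
        have h8 : N ∈ GG g m (ρ m l) (Nat.find (hex N)) := hN
        rw [h7] at h8
        exact h8
      have hlogK : 0 < Real.log (Ks (j + 1)) := Real.log_pos (by
        have : (3:ℝ) ≤ Ks (j + 1) := by exact_mod_cast h2
        linarith)
      have h9 : (1 + Real.log (Ks j)) / Real.log (Ks (j + 1)) ≤ 1 / ((l:ℝ) + 1) := by
        rw [div_le_div_iff₀ hlogK (by positivity), one_mul]
        refine le_trans ?_ h4
        have h10 : (l:ℝ) + 1 ≤ ((j + 1 : ℕ):ℝ) + 1 := by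
          have : (l:ℝ) ≤ ((j + 1 : ℕ):ℝ) := by exact_mod_cast (by omega : l ≤ j + 1)
          linarith
        have h11 : 0 ≤ 1 + Real.log (Ks j) := by
          have : 0 ≤ Real.log (Ks j) := Real.log_natCast_nonneg _
          linarith
        exact mul_le_mul_of_nonneg_left h10 h11
      have h12 : 3 / ((l:ℝ) + 1) = 1 / ((l:ℝ) + 1) + 1 / ((l:ℝ) + 1) + 1 / ((l:ℝ) + 1) := by ring
      have h13 : 0 < 1 / ((l:ℝ) + 1) := by positivity
      rw [h12]
      linarith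

theorem isolation_slow {g : ℕ → ℤˣ} (hg : MultS g) :
    ∃ y : ℕ → ℕ, Tendsto y atTop atTop ∧ ∀ f : ℕ → ℤˣ, MultS f →
      Tendsto (fun N => PS (fun p => f p ≠ g p) 0 N) atTop atTop →
      Tendsto (fun N => PS (fun p => f p ≠ g p) (y N) N) atTop (𝓝 0) →
      ∃ S : Set ℕ, (∀ ε : ℝ, 0 < ε → ∃ᶠ K in atTop, 1 - ε ≤ LD S K) ∧
        VanishL (atTop ⊓ 𝓟 S) f := by
  obtain ⟨y, ρ, hy, hyN, hy3⟩ := choose_y hg
  refine ⟨y, hy, ?_⟩
  intro f hf hdiv hclose
  apply good_of_dens f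
  intro m η hη
  set u : ℕ → ℤˣ := fun k => f k * g k with hu
  have hum : MultS u := hf.mul hg
  obtain ⟨l, hl⟩ := exists_nat_one_div_lt (show 0 < η / 6 by positivity)
  have hyR : Tendsto (fun N => (y N : ℝ)) atTop atTop := tendsto_natCast_atTop_atTop.comp hy
  -- the error term
  have herr : ∀ H : Finset ℕ, Tendsto (fun N : ℕ => ∑ j ∈ H, 2 * ((1 + 3 / Real.log N) *
      ((y N : ℝ) * (1 / 2) ^ (y N) + 1 / (y N : ℝ) + PS (fun p => f p ≠ g p) (y N) N) +
        3 * (j:ℝ) / Real.log N)) atTop (𝓝 0) := by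
    intro H
    have l2 : Tendsto (fun N => (y N : ℝ) * (1 / 2) ^ (y N)) atTop (𝓝 0) :=
      (tendsto_self_mul_const_pow_of_lt_one (r := 1 / 2) (by norm_num) (by norm_num)).comp hy
    have l3 : Tendsto (fun N => 1 / (y N : ℝ)) atTop (𝓝 0) := hyR.const_div_atTop 1
    have l4 : Tendsto (fun N : ℕ => 1 + 3 / Real.log N) atTop (𝓝 1) := by
      simpa using (IsoSlowAux.tendsto_const_div_log 3).const_add 1
    have l5 : Tendsto (fun N : ℕ => (1 + 3 / Real.log N) *
      ((y N : ℝ) * (1 / 2) ^ (y N) + 1 / (y N : ℝ) + PS (fun p => f p ≠ g p) (y N) N))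
        atTop (𝓝 0) := by
      have := l4.mul ((l2.add l3).add hclose)
      simpa using this
    have l6 : ∀ j ∈ H, Tendsto (fun N : ℕ => 2 * ((1 + 3 / Real.log N) *
      ((y N : ℝ) * (1 / 2) ^ (y N) + 1 / (y N : ℝ) + PS (fun p => f p ≠ g p) (y N) N) +
        3 * (j:ℝ) / Real.log N)) atTop (𝓝 0) := by
      intro j _
      have := (l5.add (IsoSlowAux.tendsto_const_div_log (3 * (j:ℝ)))).const_mul 2
      simpa using this
    simpa using tendsto_finsetSum H l6
  have hδ : (0:ℝ) < 1 / (((2 * m + 1 : ℕ):ℝ) + 1) := by positivity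
  have e1 : ∀ᶠ N : ℕ in atTop, ∀ H ∈ (range (m + 1)).powerset,
      ∑ j ∈ H, 2 * ((1 + 3 / Real.log N) *
      ((y N : ℝ) * (1 / 2) ^ (y N) + 1 / (y N : ℝ) + PS (fun p => f p ≠ g p) (y N) N) +
        3 * (j:ℝ) / Real.log N) < 1 / (((2 * m + 1 : ℕ):ℝ) + 1) := by
    rw [eventually_all_finset]
    intro H _
    exact (herr H).eventually_lt_const hδ
  have e2 : ∀ᶠ N in atTop, ρ (2 * m + 1) l < PS (fun p => f p ≠ g p) 0 (y N) :=
    (hdiv.comp hy).eventually_gt_atTop _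
  have e3 : ∀ᶠ N in atTop, 0 < y N := hy.eventually_gt_atTop 0
  obtain ⟨N₀, hN₀⟩ := eventually_atTop.mp (e1.and (e2.and (e3.and (eventually_ge_atTop 2))))
  -- the bad scales are in `GG`
  have hmem : ∀ N, N₀ < N → N ∈ {N | ∃ H ∈ (range (m + 1)).powerset, H.Nonempty ∧
      1 / ((m:ℝ) + 1) ≤ |LA (prodSeq f H) N|} →
      N ∈ {N | N ∈ GG g (2 * m + 1) (ρ (2 * m + 1) l) (y N)} := by
    intro N hN hbad
    obtain ⟨H, hH, hne, hle⟩ := hbad
    obtain ⟨h1, h2, h3, h4⟩ := hN₀ N hN.le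
    show N ∈ GG g (2 * m + 1) (ρ (2 * m + 1) l) (y N)
    refine ⟨u, hum, ?_, H, ?_, hne, ?_⟩
    · have h5 : (fun p => u p ≠ 1) = fun p => f p ≠ g p := by
        funext p
        apply propext
        rw [hu]
        rw [not_iff_not]
        constructor
        · intro h
          rcases Int.units_eq_one_or (f p) with h6 | h6 <;>
            rcases Int.units_eq_one_or (g p) with h7 | h7 <;> simp_all
        · intro h
          show f p * g p = 1
          rw [h]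
          exact Int.units_mul_self _
      rw [h5]
      exact h2
    · rw [mem_powerset] at hH ⊢
      exact hH.trans (range_mono (by omega))
    · have h6 := tru_close hf hg H h3 (hyN N) h4
      have h7 := h1 H hH
      have h8 := h6.trans_lt h7
      have h9 : |LA (prodSeq f H) N| ≤ |LA (prodSeq f H) N -
          LA (prodSeq (fun n => g n * tru u (y N) n) H) N| +
          |LA (prodSeq (fun n => g n * tru u (y N) n) H) N| := by
        have h10 := abs_add_le (LA (prodSeq f H) N -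
          LA (prodSeq (fun n => g n * tru u (y N) n) H) N)
          (LA (prodSeq (fun n => g n * tru u (y N) n) H) N)
        rwa [sub_add_cancel] at h10
      have h10 : 1 / ((m:ℝ) + 1) = 1 / (((2 * m + 1 : ℕ):ℝ) + 1) +
          1 / (((2 * m + 1 : ℕ):ℝ) + 1) := by
        push_cast
        field_simp
        ring
      rw [h10] at hle
      linarith
  have e5 : ∀ᶠ K : ℕ in atTop, (1 + Real.log N₀) / Real.log K < η / 2 :=
    (IsoSlowAux.tendsto_const_div_log _).eventually_lt_const (by positivity)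
  have e6 : ∃ᶠ K in atTop, LD {N | N ∈ GG g (2 * m + 1) (ρ (2 * m + 1) l) (y N)} K <
      3 / ((l:ℝ) + 1) := hy3 (2 * m + 1) l
  refine (e6.and_eventually (e5.and (eventually_ge_atTop 3))).mono ?_
  rintro K ⟨h1, h2, h3⟩
  have h4 := IsoSlowAux.LD_le_add h3 (fun N h5 _ => hmem N h5) (a := N₀)
  have h5 : 3 / ((l:ℝ) + 1) < η / 2 := by
    have : 3 / ((l:ℝ) + 1) = 3 * (1 / ((l:ℝ) + 1)) := by ring
    rw [this]
    linarith
  linarith

end Pool.Agent.Lib.P4a7640D
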