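import Mathlib
import Pool.Agent.Lib.P4a7640.Furst
import Pool.Agent.Lib.P4a7640D.IsoSlow
import Pool.Agent.Lib.P4a7640D.Neb

/-!
# Every multiplicative function is isolated among the possible counterexamples
-/

open MeasureTheory Filter Topology
open Pool.Agent.Lib.P4a7640
open Pool.Agent.Lib.P4a7640D

namespace Pool.Agent.Results.MP_4a7640_nt.Isolation

/-- For every multiplicative `g : ℕ → {-1,1}` there is `y : ℕ → ℕ` with `y(N) → ∞` such that the
following holds for all multiplicative `f : ℕ → {-1,1}`. If `∑ 1/p` over the primes with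
`f(p) ≠ g(p)` diverges, but the part of this sum over `y(N) < p ≤ N` tends to `0` as `N → ∞`, then
`f` is aperiodic and there is a set `S` of positive integers of upper logarithmic density `1` such
that `μ_N` for `f` converges weak-* to the `(1/2, 1/2)` Bernoulli measure as `N → ∞` in `S`. In
particular the `(1/2, 1/2)` Bernoulli shift is a Furstenberg system of `f`. -/
theorem result (g : ℕ → ℤˣ) (hg : MultS g) :
    ∃ y : ℕ → ℕ, Tendsto y atTop atTop ∧ ∀ f : ℕ → ℤˣ, MultS f →
      Tendsto (fun N => PS (fun p => f p ≠ g p) 0 N) atTop atTop →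
      Tendsto (fun N => PS (fun p => f p ≠ g p) (y N) N) atTop (𝓝 0) →
      Aperiodic f ∧ ∃ S : Set ℕ, (∀ ε : ℝ, 0 < ε → ∃ᶠ K in atTop, 1 - ε ≤ LD S K) ∧
        FairAlong f (atTop ⊓ 𝓟 S) := by
  obtain ⟨y, hy, hiso⟩ := isolation_slow hg
  refine ⟨y, hy, fun f hf h1 h2 => ?_⟩
  obtain ⟨S, hS, hv⟩ := hiso f hf h1 h2
  have := neBot_of_dens hS
  exact ⟨hv.aperiodic inf_le_left hf, S, hS, fairAlong_of_vanish inf_le_left hv⟩

end Pool.Agent.Results.MP_4a7640_nt.Isolation
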